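import Pool.Agent.Helper22.QC.Sem

/-! # Symmetries of regions -/

namespace Pool.Agent.Helper22.QC

open Finset
open Pool.Agent.Helper2.OC

/-- the permutation of the group element `g` -/
def gpF (g : ℕ) (i : Fin 4) : Fin 4 := Fin.ofNat 4 (gp g i)

private theorem m03_bij24 : ∀ h : Fin 24, Function.Bijective
    (fun i : Fin 4 => Fin.ofNat 4 ((perms4.getD h.1 []).getD i.1 0)) := by
  decide

private theorem m03_lt24 : ∀ h : Fin 24, ∀ i : Fin 4,
    (perms4.getD h.1 []).getD i.1 0 < 4 := by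
  decide

theorem gpF_bij (g : ℕ) (hg : g < 384) : Function.Bijective (gpF g) := by
  have h : g / 16 < 24 := by omega
  exact m03_bij24 ⟨g / 16, h⟩

private theorem m03_gp_lt (g : ℕ) (hg : g < 384) (i : Fin 4) : gp g i < 4 := by
  have h : g / 16 < 24 := by omega
  exact m03_lt24 ⟨g / 16, h⟩ i

private theorem m03_gpF_val (g : ℕ) (hg : g < 384) (i : Fin 4) : ((gpF g i : Fin 4) : ℕ) = gp g i := by
  unfold gpF
  rw [Fin.val_ofNat]
  exact Nat.mod_eq_of_lt (m03_gp_lt g hg i)

private theorem m03_cod_lt (p : Comp) (c : ℕ) : cod p c < 4 := by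
  unfold cod
  split_ifs <;> omega

private theorem m03_cod_flip (e : Bool) (p : Comp) (c : ℕ) :
    cod (flipC e p) c = if e then swc (cod p c) else cod p c := by
  cases e
  · rfl
  · unfold cod flipC swc
    by_cases h1 : c ∈ p true <;> by_cases h2 : c ∈ p false <;> simp [h1, h2]

private theorem m03_dig (s : Fin 4 → Comp) (c : ℕ) (i : Fin 4) :
    dig (typ s c) i = cod (s i) c := by
  have h0 := m03_cod_lt (s 0) c
  have h1 := m03_cod_lt (s 1) c
  have h2 := m03_cod_lt (s 2) c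
  have h3 := m03_cod_lt (s 3) c
  unfold dig typ
  fin_cases i
  · simp only [Fin.zero_eta, Fin.val_zero, pow_zero, Nat.div_one]
    omega
  · simp only [Fin.mk_one, Fin.val_one, pow_one]
    omega
  · show (_ / 4 ^ 2 % 4 = cod (s 2) c)
    omega
  · show (_ / 4 ^ 3 % 4 = cod (s 3) c)
    omega

private theorem m03_inP (A t : ℕ) : inP A t = true ↔
    (∀ i : Fin 4, (nib A i).testBit (dig t i) = true) ∧
      ∃ i : Fin 4, nib A i ≠ 15 ∧ dig t i ≠ 0 := by
  unfold inP
  rw [Bool.and_eq_true, List.all_eq_true, List.any_eq_true]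
  constructor
  · rintro ⟨h1, ⟨x, hx, h2⟩⟩
    rw [List.mem_range] at hx
    rw [Bool.and_eq_true, bne_iff_ne, bne_iff_ne] at h2
    exact ⟨fun i => h1 i (List.mem_range.2 i.2), ⟨x, hx⟩, h2⟩
  · rintro ⟨h1, ⟨x, h2⟩⟩
    refine ⟨fun i hi => h1 ⟨i, List.mem_range.1 hi⟩, x, List.mem_range.2 x.2, ?_⟩
    rw [Bool.and_eq_true, bne_iff_ne, bne_iff_ne]
    exact h2

private theorem m03_fl_test : ∀ m : Fin 16, ∀ x : Fin 4,
    (flN m.1).testBit x.1 = m.1.testBit (swc x.1) := by
  decide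

private theorem m03_fl_15 : ∀ m : Fin 16, (flN m.1 = 15 ↔ m.1 = 15) := by
  decide

private theorem m03_fl_lt : ∀ m : Fin 16, flN m.1 < 16 := by
  decide

private theorem m03_swc_zero : ∀ x : Fin 4, (swc x.1 = 0 ↔ x.1 = 0) := by
  decide

private theorem m03_nib_lt (A i : ℕ) : nib A i < 16 := Nat.mod_lt _ (by norm_num)

/-- the moved set of codes -/
private def m03_nn (g i A : ℕ) : ℕ := bif ge g i then flN (nib A i) else nib A i

private theorem m03_nn_lt (g i A : ℕ) : m03_nn g i A < 16 := by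
  unfold m03_nn
  cases ge g i
  · exact m03_nib_lt A i
  · exact m03_fl_lt ⟨nib A i, m03_nib_lt A i⟩

private theorem m03_nib_perm (h : Fin 24) (n : Fin 4 → ℕ) (hn : ∀ i, n i < 16) (i : Fin 4) :
    nib (n 0 * 16 ^ ((perms4.getD h.1 []).getD 0 0) + n 1 * 16 ^ ((perms4.getD h.1 []).getD 1 0) +
      n 2 * 16 ^ ((perms4.getD h.1 []).getD 2 0) + n 3 * 16 ^ ((perms4.getD h.1 []).getD 3 0))
      ((perms4.getD h.1 []).getD i.1 0) = n i := by
  have h0 := hn 0
  have h1 := hn 1
  have h2 := hn 2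
  have h3 := hn 3
  unfold nib
  fin_cases h <;> fin_cases i <;>
    simp [perms4] <;> omega

private theorem m03_nib_map (g : ℕ) (hg : g < 384) (A : ℕ) (i : Fin 4) :
    nib (mapA g A) (gp g i) = m03_nn g i A := by
  have h : g / 16 < 24 := by omega
  have h1 := m03_nib_perm ⟨g / 16, h⟩ (fun i => m03_nn g i A) (fun i => m03_nn_lt g i A) i
  exact h1

private theorem m03_key (g : ℕ) (hg : g < 384) (s : Fin 4 → Comp) (A c : ℕ) :
    inP A (typ (act (gpF g) (fun i => ge g i) s) c) = true ↔ inP (mapA g A) (typ s c) = true := by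
  have hbij := gpF_bij g hg
  have hd : ∀ i : Fin 4, dig (typ (act (gpF g) (fun i => ge g i) s) c) i =
      if ge g i then swc (cod (s (gpF g i)) c) else cod (s (gpF g i)) c := by
    intro i
    rw [m03_dig]
    exact m03_cod_flip _ _ _
  have ht : ∀ i : Fin 4, (nib (mapA g A) (gpF g i : Fin 4)).testBit (dig (typ s c) (gpF g i : Fin 4)) =
      (nib A i).testBit (dig (typ (act (gpF g) (fun i => ge g i) s) c) i) := by
    intro i
    rw [hd, m03_dig, m03_gpF_val g hg, m03_nib_map g hg A i]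
    unfold m03_nn
    cases ge g i
    · rfl
    · exact m03_fl_test ⟨nib A i, m03_nib_lt A i⟩ ⟨cod (s (gpF g i)) c, m03_cod_lt _ _⟩
  have h15 : ∀ i : Fin 4, (nib (mapA g A) (gpF g i : Fin 4) = 15 ↔ nib A i = 15) := by
    intro i
    rw [m03_gpF_val g hg, m03_nib_map g hg A i]
    unfold m03_nn
    cases ge g i
    · rfl
    · exact m03_fl_15 ⟨nib A i, m03_nib_lt A i⟩
  have h0 : ∀ i : Fin 4, (dig (typ s c) (gpF g i : Fin 4) = 0 ↔
      dig (typ (act (gpF g) (fun i => ge g i) s) c) i = 0) := by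
    intro i
    rw [hd, m03_dig]
    cases ge g i
    · rfl
    · exact (m03_swc_zero ⟨cod (s (gpF g i)) c, m03_cod_lt _ _⟩).symm
  rw [m03_inP, m03_inP]
  constructor
  · rintro ⟨h1, ⟨i, h2, h3⟩⟩
    refine ⟨fun j => ?_, gpF g i, fun h => h2 ((h15 i).1 h), fun h => h3 ((h0 i).1 h)⟩
    obtain ⟨i', rfl⟩ := hbij.2 j
    rw [ht i']
    exact h1 i'
  · rintro ⟨h1, ⟨j, h2, h3⟩⟩
    obtain ⟨i, rfl⟩ := hbij.2 j
    refine ⟨fun i' => ?_, i, fun h => h2 ((h15 i).2 h), fun h => h3 ((h0 i).2 h)⟩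
    rw [← ht i']
    exact h1 (gpF g i')

private theorem m03_U (g : ℕ) (hg : g < 384) (s : Fin 4 → Comp) :
    U (act (gpF g) (fun i => ge g i) s) = U s := by
  have hbij := gpF_bij g hg
  have hf : ∀ (e : Bool) (p : Comp), flipC e p false ∪ flipC e p true = p false ∪ p true := by
    intro e p
    cases e
    · rfl
    · exact Finset.union_comm _ _
  unfold U
  ext c
  rw [Finset.mem_biUnion, Finset.mem_biUnion]
  constructor
  · rintro ⟨i, _, hi⟩
    refine ⟨gpF g i, Finset.mem_univ _, ?_⟩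
    have h1 : c ∈ flipC (ge g i) (s (gpF g i)) false ∪ flipC (ge g i) (s (gpF g i)) true := hi
    rwa [hf] at h1
  · rintro ⟨j, _, hj⟩
    obtain ⟨i, rfl⟩ := hbij.2 j
    refine ⟨i, Finset.mem_univ _, ?_⟩
    change c ∈ flipC (ge g i) (s (gpF g i)) false ∪ flipC (ge g i) (s (gpF g i)) true
    rw [hf]
    exact hj

theorem cnt_act (g : ℕ) (hg : g < 384) (s : Fin 4 → Comp) (A : ℕ) :
    cnt (act (gpF g) (fun i => ge g i) s) A = cnt s (mapA g A) := by
  unfold cnt
  rw [m03_U g hg]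
  congr 1
  exact Finset.filter_congr fun c _ => m03_key g hg s A c

theorem satL_act (g : ℕ) (hg : g < 384) (s : Fin 4 → Comp) (l : ℕ)
    (h : satL s (mapL g l)) : satL (act (gpF g) (fun i => ge g i) s) l := by
  have h1 : mapL g l / 4 = mapA g (l / 4) := by
    unfold mapL
    omega
  have h2 : mapL g l % 4 = l % 4 := by
    unfold mapL
    omega
  unfold satL at h ⊢
  rw [h1, h2] at h
  rw [cnt_act g hg]
  exact h

end Pool.Agent.Helper22.QC
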