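import Pool.Agent.Helper22.QC.Lem.M09

/-! # Soundness of special leaves -/

namespace Pool.Agent.Helper22.QC

open Finset
open Pool.Agent.Helper2.OC

/-! ## new colours -/

private theorem m10_newc_unique {m f : Comp} (h : Fix1 m f) {σ : Bool} {c d : ℕ}
    (hc : c ∈ newc m f σ) (hd : d ∈ newc m f σ) : c = d := by
  obtain ⟨χ, h1, h2⟩ := h
  simp only [newc, Finset.mem_sdiff, h1 σ, Finset.mem_insert] at hc hd
  rcases hc with ⟨hc | hc, hc'⟩
  · rcases hd with ⟨hd | hd, hd'⟩
    · rw [hc, hd]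
    · exact absurd hd hd'
  · exact absurd hc hc'

private theorem m10_newc_notin {m f : Comp} (h : Fix1 m f) {σ : Bool} {c : ℕ}
    (hc : c ∈ newc m f σ) : c ∉ f (!σ) := by
  obtain ⟨χ, h1, h2⟩ := h
  have hc0 := hc
  simp only [newc, Finset.mem_sdiff, h1 σ, Finset.mem_insert] at hc
  rcases hc with ⟨hc | hc, hc'⟩
  · rw [hc]
    exact h2 σ
  · exact absurd hc hc'

private theorem m10_slot_eq (p q : Comp) (o σ : Bool) :
    slot p q σ (xor σ o) = mrg p q o σ \ mrg p q o (!σ) := by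
  unfold slot mrg
  have e : (!(xor σ o)) = xor (!σ) o := by cases σ <;> cases o <;> rfl
  rw [e]

private theorem m10_newc_ne {p q f : Comp} {o σ : Bool} (h : Fix1 (mrg p q o) f)
    (hs : slot p q σ (xor σ o) = ∅) : newc (mrg p q o) f σ ≠ ∅ := by
  rw [m10_slot_eq] at hs
  obtain ⟨χ, h1, h2⟩ := h
  intro he
  have h3 : χ σ ∈ f σ := by
    rw [h1 σ]
    exact Finset.mem_insert_self _ _
  have h4 : χ σ ∈ mrg p q o σ := by
    by_contra hn
    have : χ σ ∈ newc (mrg p q o) f σ := by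
      unfold newc
      exact Finset.mem_sdiff.mpr ⟨h3, hn⟩
    rw [he] at this
    exact absurd this (Finset.notMem_empty _)
  have h5 : χ σ ∈ mrg p q o (!σ) := by
    by_contra hn
    have : χ σ ∈ mrg p q o σ \ mrg p q o (!σ) := Finset.mem_sdiff.mpr ⟨h4, hn⟩
    rw [hs] at this
    exact absurd this (Finset.notMem_empty _)
  apply h2 σ
  rw [h1 (!σ)]
  exact Finset.mem_insert_of_mem h5

private theorem m10_card {p q f : Comp} {o : Bool} (σ : Bool) (h : Fix1 (mrg p q o) f) :
    (slot p q σ (xor σ o)).card + (newc (mrg p q o) f σ).card ≤ (f σ \ f (!σ)).card := by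
  rw [m10_slot_eq]
  have hd : Disjoint (mrg p q o σ \ mrg p q o (!σ)) (newc (mrg p q o) f σ) := by
    rw [Finset.disjoint_left]
    intro c hc hc'
    unfold newc at hc'
    exact (Finset.mem_sdiff.mp hc').2 (Finset.mem_sdiff.mp hc).1
  rw [← Finset.card_union_of_disjoint hd]
  apply Finset.card_le_card
  intro c hc
  rcases Finset.mem_union.mp hc with hc | hc
  · obtain ⟨χ, h1, h2⟩ := h
    obtain ⟨hc1, hc2⟩ := Finset.mem_sdiff.mp hc
    have hcf : c ∈ f σ := by
      rw [h1 σ]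
      exact Finset.mem_insert_of_mem hc1
    refine Finset.mem_sdiff.mpr ⟨hcf, ?_⟩
    rw [h1 (!σ), Finset.mem_insert]
    rintro (hh | hh)
    · have := h2 (!σ)
      rw [Bool.not_not, ← hh] at this
      exact this hcf
    · exact hc2 hh
  · refine Finset.mem_sdiff.mpr ⟨?_, m10_newc_notin h hc⟩
    unfold newc at hc
    exact (Finset.mem_sdiff.mp hc).1

/-! ## kinds -/

private theorem m10_kindOf_ne (x y : ℕ) : kindOf x y ≠ 0 ∧ kindOf x y ≠ 2 ∧ kindOf x y ≠ 3 ∧
    kindOf x y ≤ 11 := by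
  unfold kindOf
  split_ifs <;> decide

private theorem m10_nkind_unique {m f m' f' r t : Comp} {o' σ : Bool} {k k' : ℕ}
    (h : Fix1 m f) (hk : nkind m f m' f' r t o' σ k) (hk' : nkind m f m' f' r t o' σ k') :
    k = k' := by
  rcases hk with ⟨hk1, hk2⟩ | ⟨c, hc, hk⟩
  · rcases hk' with ⟨hk1', hk2'⟩ | ⟨d, hd, hk'⟩
    · rw [hk1, hk1']
    · rw [hk2] at hd
      exact absurd hd (Finset.notMem_empty _)
  · rcases hk' with ⟨hk1', hk2'⟩ | ⟨d, hd, hk'⟩
    · rw [hk2'] at hc
      exact absurd hc (Finset.notMem_empty _)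
    · rw [hk, hk', m10_newc_unique h hc hd]

private theorem m10_nkind_le {m f m' f' r t : Comp} {o' σ : Bool} {k : ℕ}
    (hk : nkind m f m' f' r t o' σ k) : k ≤ 11 := by
  rcases hk with ⟨hk1, hk2⟩ | ⟨c, hc, hk⟩
  · omega
  · rw [hk]
    split_ifs
    · norm_num
    · norm_num
    · exact (m10_kindOf_ne _ _).2.2.2

private theorem m10_nkind_zero {m f m' f' r t : Comp} {o' σ : Bool}
    (h : newc m f σ = ∅) : nkind m f m' f' r t o' σ 0 := Or.inl ⟨rfl, h⟩

private theorem m10_nkind_comm {m f m' f' r t : Comp} {o' σ : Bool} (b : Bool)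
    (h' : Fix1 m' f') : nkind m f m' f' r t o' σ (2 + b.toNat) ↔
      ∃ c, c ∈ newc m f σ ∧ c ∈ newc m' f' b := by
  constructor
  · rintro (⟨hk1, -⟩ | ⟨c, hc, hk⟩)
    · omega
    · refine ⟨c, hc, ?_⟩
      have h3 := m10_kindOf_ne (cod r c) (swo o' (cod t c))
      split_ifs at hk with h1 h2
      · cases b
        · exact h1
        · simp at hk
      · cases b
        · simp at hk
        · exact h2
      · cases b
        · exact absurd hk.symm h3.2.1
        · exact absurd hk.symm h3.2.2.1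
  · rintro ⟨c, hc, hc'⟩
    right
    refine ⟨c, hc, ?_⟩
    cases b
    · rw [if_pos hc']
      rfl
    · have hn : c ∉ newc m' f' false := by
        intro hcn
        have := m10_newc_notin h' hc'
        unfold newc at hcn
        exact this (Finset.mem_sdiff.mp hcn).1
      rw [if_neg hn, if_pos hc']
      rfl

/-! ## masks -/

/-- kinds of the side number `a` -/
private def m10K (p q r t : Comp) (o o' : Bool) (f f' : Comp) (a k : ℕ) : Prop :=
  (a = 0 ∧ nkind (mrg p q o) f (mrg r t o') f' r t o' false k) ∨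
  (a = 1 ∧ nkind (mrg p q o) f (mrg r t o') f' r t o' true k) ∨
  (a = 2 ∧ nkind (mrg r t o') f' (mrg p q o) f p q o false k) ∨
  (a = 3 ∧ nkind (mrg r t o') f' (mrg p q o) f p q o true k)

private theorem m10_kindsIn_iff (A : Msk) (p q r t : Comp) (o o' : Bool) (f f' : Comp) :
    KindsIn A p q r t o o' f f' ↔
      ∀ a k, m10K p q r t o o' f f' a k → (A.get a).testBit k = true := by
  constructor
  · rintro ⟨h0, h1, h2, h3⟩ a k (⟨rfl, h⟩ | ⟨rfl, h⟩ | ⟨rfl, h⟩ | ⟨rfl, h⟩)
    · exact h0 k h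
    · exact h1 k h
    · exact h2 k h
    · exact h3 k h
  · intro h
    refine ⟨fun k hk => ?_, fun k hk => ?_, fun k hk => ?_, fun k hk => ?_⟩
    · exact h 0 k (Or.inl ⟨rfl, hk⟩)
    · exact h 1 k (Or.inr (Or.inl ⟨rfl, hk⟩))
    · exact h 2 k (Or.inr (Or.inr (Or.inl ⟨rfl, hk⟩)))
    · exact h 3 k (Or.inr (Or.inr (Or.inr ⟨rfl, hk⟩)))

private theorem m10K_lt {p q r t : Comp} {o o' : Bool} {f f' : Comp} {a k : ℕ}
    (h : m10K p q r t o o' f f' a k) : a ≤ 3 ∧ k ≤ 11 := by
  rcases h with ⟨rfl, h⟩ | ⟨rfl, h⟩ | ⟨rfl, h⟩ | ⟨rfl, h⟩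
  · exact ⟨by norm_num, m10_nkind_le h⟩
  · exact ⟨by norm_num, m10_nkind_le h⟩
  · exact ⟨by norm_num, m10_nkind_le h⟩
  · exact ⟨by norm_num, m10_nkind_le h⟩

private theorem m10K_unique {p q r t : Comp} {o o' : Bool} {f f' : Comp}
    (hf : Fix1 (mrg p q o) f) (hf' : Fix1 (mrg r t o') f') {a k k' : ℕ}
    (h : m10K p q r t o o' f f' a k) (h' : m10K p q r t o o' f f' a k') : k = k' := by
  rcases h with ⟨rfl, h⟩ | ⟨rfl, h⟩ | ⟨rfl, h⟩ | ⟨rfl, h⟩
  · rcases h' with ⟨_, h'⟩ | ⟨h0, h'⟩ | ⟨h0, h'⟩ | ⟨h0, h'⟩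
    · exact m10_nkind_unique hf h h'
    · omega
    · omega
    · omega
  · rcases h' with ⟨h0, h'⟩ | ⟨_, h'⟩ | ⟨h0, h'⟩ | ⟨h0, h'⟩
    · omega
    · exact m10_nkind_unique hf h h'
    · omega
    · omega
  · rcases h' with ⟨h0, h'⟩ | ⟨h0, h'⟩ | ⟨_, h'⟩ | ⟨h0, h'⟩
    · omega
    · omega
    · exact m10_nkind_unique hf' h h'
    · omega
  · rcases h' with ⟨h0, h'⟩ | ⟨h0, h'⟩ | ⟨h0, h'⟩ | ⟨_, h'⟩
    · omega
    · omega
    · omega
    · exact m10_nkind_unique hf' h h'

private theorem m10_get_set (A : Msk) (a b v : ℕ) (ha : a ≤ 3) (hb : b ≤ 3) :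
    (A.set a v).get b = if b = a then v else A.get b := by
  interval_cases a <;> interval_cases b <;> rfl

private theorem m10_only {p q r t : Comp} {o o' : Bool} {f f' : Comp}
    (hf : Fix1 (mrg p q o) f) (hf' : Fix1 (mrg r t o') f') {A : Msk} {a k : ℕ}
    (hA : KindsIn A p q r t o o' f f') (hk : m10K p q r t o o' f f' a k) :
    KindsIn (A.only a k) p q r t o o' f f' := by
  rw [m10_kindsIn_iff] at hA ⊢
  intro b k' hk'
  unfold Msk.only
  rw [m10_get_set A a b _ (m10K_lt hk).1 (m10K_lt hk').1]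
  split_ifs with h
  · subst h
    have e := m10K_unique hf hf' hk hk'
    subst e
    have := hA b k hk
    show (A.get b &&& 2 ^ k).testBit k = true
    rw [Nat.testBit_and, this, Nat.testBit_two_pow_self]
    rfl
  · exact hA b k' hk'

private theorem m10_bit (k k' : ℕ) (hk : k ≤ 11) (hk' : k' ≤ 11) (h : k' ≠ k) :
    (4095 - 2 ^ k).testBit k' = true := by
  interval_cases k <;> interval_cases k' <;> first | rfl | exact absurd rfl h

private theorem m10_drop {p q r t : Comp} {o o' : Bool} {f f' : Comp} {A : Msk} {a k : ℕ}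
    (ha : a ≤ 3) (hkk : k ≤ 11)
    (hA : KindsIn A p q r t o o' f f') (hk : ¬ m10K p q r t o o' f f' a k) :
    KindsIn (A.drop a k) p q r t o o' f f' := by
  rw [m10_kindsIn_iff] at hA ⊢
  intro b k' hk'
  unfold Msk.drop
  rw [m10_get_set A a b _ ha (m10K_lt hk').1]
  split_ifs with h
  · subst h
    have e : k' ≠ k := by
      rintro rfl
      exact hk hk'
    have := hA b k' hk'
    show (A.get b &&& (4095 - 2 ^ k)).testBit k' = true
    rw [Nat.testBit_and, this, m10_bit k k' hkk (m10K_lt hk').2 e]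
    rfl
  · exact hA b k' hk'

private theorem m10K_comm {p q r t : Comp} {o o' : Bool} {f f' : Comp}
    (hf : Fix1 (mrg p q o) f) (hf' : Fix1 (mrg r t o') f') (a b : ℕ) (ha : a ≤ 1) (hb : b ≤ 1) :
    m10K p q r t o o' f f' a (2 + b) ↔ m10K p q r t o o' f f' (2 + b) (2 + a) := by
  have e1 : ∀ x y : Bool, nkind (mrg p q o) f (mrg r t o') f' r t o' x (2 + y.toNat) ↔
      nkind (mrg r t o') f' (mrg p q o) f p q o y (2 + x.toNat) := by
    intro x y
    rw [m10_nkind_comm y hf', m10_nkind_comm x hf]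
    constructor
    · rintro ⟨c, h1, h2⟩
      exact ⟨c, h2, h1⟩
    · rintro ⟨c, h1, h2⟩
      exact ⟨c, h2, h1⟩
  interval_cases a <;> interval_cases b
  · have := e1 false false
    simpa [m10K] using this
  · have := e1 false true
    simpa [m10K] using this
  · have := e1 true false
    simpa [m10K] using this
  · have := e1 true true
    simpa [m10K] using this

/-! ## bounds of the weights -/

private theorem m10_mx_le {a b N : ℕ} (ha : a ≤ N) (hb : b ≤ N) : mx a b ≤ N := by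
  unfold mx
  cases Nat.ble a b
  · exact ha
  · exact hb

private theorem m10_cond_le {b : Bool} {y N : ℕ} (h : y ≤ N) : (bif b then y else 0) ≤ N := by
  cases b
  · exact Nat.zero_le _
  · exact h

private theorem m10_wOne_le {cov c0 c1 p0 m0 p1 m1 lp lm : ℕ} {b0 b1 : Bool}
    (h1 : cov ≤ 2 ^ 26) (h2 : c0 ≤ 2 ^ 24) (h3 : c1 ≤ 2 ^ 24) (h4 : p0 ≤ 2 ^ 24)
    (h5 : p1 ≤ 2 ^ 24) (h6 : lm ≤ 2 ^ 24) :
    wOne cov c0 c1 p0 m0 p1 m1 lp lm b0 b1 ≤ 2 ^ 27 := by
  unfold wOne
  refine m10_mx_le (by omega) (m10_mx_le (m10_cond_le ?_) (m10_cond_le ?_))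
  · omega
  · omega

private theorem m10_getD_le {l : List ℕ} {N : ℕ} (h : ∀ y ∈ l, y ≤ N) (j : ℕ) :
    l.getD j 0 ≤ N := by
  rw [List.getD_eq_getElem?_getD]
  by_cases hj : j < l.length
  · rw [List.getElem?_eq_getElem hj]
    exact h _ (List.getElem_mem hj)
  · rw [List.getElem?_eq_none (by omega)]
    exact Nat.zero_le _

private theorem m10_sp_le {v : ℕ} (h : v < 2 ^ 24) : sp v ≤ 2 ^ 24 := by
  unfold sp
  cases Nat.ble 8388608 v
  · exact h.le
  · exact Nat.zero_le _

private theorem m10_wts_le (P : Pot) (hlm : ∀ i, P.lm.getD i 0 ≤ 2 ^ 24) (A : Msk) (x idx j : ℕ) :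
    (wts P A (tcOf x idx)).getD j 0 ≤ 2 ^ 27 := by
  apply m10_getD_le
  have a0 := (fd_lt x idx).le
  have a1 := (fd_lt x (idx + 1)).le
  have a2 := (fd_lt x (idx + 2)).le
  have a3 := (fd_lt x (idx + 3)).le
  have p0 := m10_sp_le (fd_lt x (idx + 4))
  have p1 := m10_sp_le (fd_lt x (idx + 5))
  have p2 := m10_sp_le (fd_lt x (idx + 6))
  have p3 := m10_sp_le (fd_lt x (idx + 7))
  have g1 : ∀ (cov c0 c1 q0 m0 q1 m1 k i a b : ℕ), cov ≤ 2 ^ 26 → c0 ≤ 2 ^ 24 → c1 ≤ 2 ^ 24 →
      q0 ≤ 2 ^ 24 → q1 ≤ 2 ^ 24 → wOne cov c0 c1 q0 m0 q1 m1 (P.lp.getD i 0) (P.lm.getD i 0)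
        (a.testBit k) (b.testBit k) ≤ 2 ^ 27 := by
    intro cov c0 c1 q0 m0 q1 m1 k i a b h1 h2 h3 h4 h5
    exact m10_wOne_le h1 h2 h3 h4 h5 (hlm i)
  have e : tcOf x idx = ⟨fd x idx, fd x (idx + 1), fd x (idx + 2), fd x (idx + 3),
    sp (fd x (idx + 4)), sp (fd x (idx + 5)), sp (fd x (idx + 6)), sp (fd x (idx + 7)),
    sm (fd x (idx + 4)), sm (fd x (idx + 5)), sm (fd x (idx + 6)), sm (fd x (idx + 7))⟩ := rfl
  rw [e]
  generalize fd x idx = b0 at *
  generalize fd x (idx + 1) = b1 at *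
  generalize fd x (idx + 2) = b2 at *
  generalize fd x (idx + 3) = b3 at *
  generalize sp (fd x (idx + 4)) = q0 at *
  generalize sp (fd x (idx + 5)) = q1 at *
  generalize sp (fd x (idx + 6)) = q2 at *
  generalize sp (fd x (idx + 7)) = q3 at *
  intro y hy
  simp only [wts, List.mem_cons, List.not_mem_nil, or_false] at hy
  rcases hy with rfl | rfl | rfl | rfl | rfl | rfl | rfl | rfl | rfl | rfl | rfl | rfl | rfl |
    rfl | rfl | rfl | rfl | rfl | rfl | rfl
  · omega
  · omega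
  · omega
  · omega
  all_goals exact g1 _ _ _ _ _ _ _ _ _ _ _ (by omega) (by omega) (by omega) (by omega) (by omega)

/-! ## the sides of a term -/

private theorem m10_pr_lt (i : Fin 3) : pr i 0 < pr i 1 ∧ pr i 2 < pr i 3 := by
  fin_cases i <;> decide

private theorem m10_cnt_side (s : Fin 4 → Comp) (i : Fin 3) (o o' : Bool) :
    cnt s ((tdC i o o').mp.getD 0 0) =
      (slot (s (pr i 0)) (s (pr i 1)) false (xor false o)).card ∧
    cnt s ((tdC i o o').mp.getD 1 0) =
      (slot (s (pr i 0)) (s (pr i 1)) true (xor true o)).card ∧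
    cnt s ((tdC i o o').mp.getD 2 0) =
      (slot (s (pr i 2)) (s (pr i 3)) false (xor false o')).card ∧
    cnt s ((tdC i o o').mp.getD 3 0) =
      (slot (s (pr i 2)) (s (pr i 3)) true (xor true o')).card := by
  obtain ⟨h1, h2⟩ := m10_pr_lt i
  refine ⟨?_, ?_, ?_, ?_⟩
  · rw [← cnt_mP s _ _ h1]
    cases o <;> rfl
  · rw [← cnt_mP s _ _ h1]
    cases o <;> rfl
  · rw [← cnt_mP s _ _ h2]
    cases o' <;> rfl
  · rw [← cnt_mP s _ _ h2]
    cases o' <;> rfl

private theorem m10_xn_cases (m f : Comp) (σ : Bool) : xn m f σ = 0 ∨ xn m f σ = 1 := by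
  unfold xn
  split_ifs
  · exact Or.inl rfl
  · exact Or.inr rfl

private theorem m10_xn_one {m f : Comp} {σ : Bool} (h : newc m f σ ≠ ∅) : xn m f σ = 1 := by
  unfold xn
  rw [if_neg h]

private theorem m10_contrib {b : Bool} {P M : ℕ} {y : ℤ} (h : y = 0 ∨ y = 1)
    (hb : b = true → y = 1) :
    (((bif b then P else 0 : ℕ) : ℤ) - M) ≤ ((P : ℤ) - M) * y := by
  have hP : (0 : ℤ) ≤ P := Int.natCast_nonneg P
  have hM : (0 : ℤ) ≤ M := Int.natCast_nonneg M
  cases b
  · rcases h with rfl | rfl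
    · simp
    · simp
  · rw [hb rfl]
    simp

/-- a side with two private colours -/
private theorem m10_two {p q f : Comp} {o : Bool} (σ : Bool) (h : Fix1 (mrg p q o) f)
    (h2 : 2 ≤ (slot p q σ (xor σ o)).card + (newc (mrg p q o) f σ).card) : ¬ Mini f := by
  intro hm
  have h3 := hm σ
  have h4 := m10_card σ h
  omega

private theorem m10_card_pos {m f : Comp} {σ : Bool} (h : newc m f σ ≠ ∅) :
    1 ≤ (newc m f σ).card := Finset.card_pos.mpr (Finset.nonempty_iff_ne_empty.mpr h)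

private theorem m10_ne_of_mask {m f m' f' r t : Comp} {o' σ : Bool} {a : ℕ}
    (hA : ∀ k, nkind m f m' f' r t o' σ k → a.testBit k = true) (h : a.testBit 0 = false) :
    newc m f σ ≠ ∅ := by
  intro he
  rw [hA 0 (m10_nkind_zero he)] at h
  exact absurd h (by decide)

/-! ## leaves of a case distinction -/

private theorem m10_leaf (E : Env) (hE : EnvOK E) (s : Fin 4 → Comp) (hOk : ∀ i, (s i).Ok)
    (R : List ℕ) (hR : R.length ≤ 1000) (hs : ∀ l ∈ R, satL s l) (i : Fin 3) (o o' : Bool)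
    (f f' : Comp)
    (hf : Fix1 (mrg (s (pr i 0)) (s (pr i 1)) o) f)
    (hf' : Fix1 (mrg (s (pr i 2)) (s (pr i 3)) o') f') (C w : ℕ) (W : ℕ → ℕ) (hw : w = pk W)
    (hW : ∀ t, W t ≤ 2 ^ 33) (A : Msk)
    (hA : KindsIn A (s (pr i 0)) (s (pr i 1)) (s (pr i 2)) (s (pr i 3)) o o' f f') (x : ℕ)
    (h : ctLeaf E R (kill R) (tdC i o o') C w A x = true) :
    (C : ℤ) ≤ valZ E.P (s (pr i 0)) (s (pr i 1)) (s (pr i 2)) (s (pr i 3)) o o' f f' +
      ∑ c ∈ U s, (W (typ s c) : ℤ) := by
  obtain ⟨c0, c1, c2, c3⟩ := m10_cnt_side s i o o'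
  obtain ⟨A0, A1, A2, A3⟩ := id hA
  have hmk := testBit_mk
  unfold ctLeaf at h
  simp only [Acc.add, Bool.and_eq_true] at h
  obtain ⟨⟨⟨h1, h1v, h1l⟩, h2⟩, h3⟩ := h
  obtain ⟨fL1, fR1, a1, a2, a3, a4, a5⟩ := vLoop_sem s hOk x 8
  obtain ⟨fL2, fR2, b1, b2, b3, b4, b5⟩ := lLoop_sem s R hs x 16
  rw [hE.hlv] at h1v h2 h3
  have a6 := a5 h1v
  have b6 := b5 h1l
  -- not both minimal
  have hnb : ((tdC i o o').mp.any (fun B => has R (4 * B + 1)) ||
      [0, 1, 2, 3].any fun a => !((A.get a).testBit 0) && isN R ((tdC i o o').mp.getD a 0)) = true →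
      ¬ (Mini f ∧ Mini f') := by
    have hhas : ∀ B, has R (4 * B + 1) = true → 2 ≤ cnt s B := by
      intro B hB
      have := (hs _ ((has_iff R _).mp hB)).2.1 (by omega)
      rwa [show (4 * B + 1) / 4 = B by omega] at this
    intro hh
    rw [Bool.or_eq_true] at hh
    rcases hh with hh | hh
    · rw [List.any_eq_true] at hh
      obtain ⟨B, hB, hB'⟩ := hh
      have h5 := hhas B hB'
      simp only [tdC, List.mem_cons, List.not_mem_nil, or_false] at hB
      rcases hB with rfl | rfl | rfl | rfl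
      · rw [show mP (pr i 0) 0 (pr i 1) o.toNat = (tdC i o o').mp.getD 0 0 from rfl, c0] at h5
        exact fun hm => m10_two false hf (by omega) hm.1
      · rw [show mP (pr i 0) 1 (pr i 1) (!o).toNat = (tdC i o o').mp.getD 1 0 from rfl, c1] at h5
        exact fun hm => m10_two true hf (by omega) hm.1
      · rw [show mP (pr i 2) 0 (pr i 3) o'.toNat = (tdC i o o').mp.getD 2 0 from rfl, c2] at h5
        exact fun hm => m10_two false hf' (by omega) hm.2
      · rw [show mP (pr i 2) 1 (pr i 3) (!o').toNat = (tdC i o o').mp.getD 3 0 from rfl, c3] at h5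
        exact fun hm => m10_two true hf' (by omega) hm.2
    · simp only [List.any_cons, List.any_nil, Bool.or_false, Bool.or_eq_true, Bool.and_eq_true,
        Bool.not_eq_true'] at hh
      rcases hh with ⟨u1, u2⟩ | ⟨u1, u2⟩ | ⟨u1, u2⟩ | ⟨u1, u2⟩
      · have h5 := isN_sound s R hs _ u2
        have h6 := m10_card_pos (m10_ne_of_mask A0 u1)
        rw [c0] at h5
        exact fun hm => m10_two false hf (by omega) hm.1
      · have h5 := isN_sound s R hs _ u2
        have h6 := m10_card_pos (m10_ne_of_mask A1 u1)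
        rw [c1] at h5
        exact fun hm => m10_two true hf (by omega) hm.1
      · have h5 := isN_sound s R hs _ u2
        have h6 := m10_card_pos (m10_ne_of_mask A2 u1)
        rw [c2] at h5
        exact fun hm => m10_two false hf' (by omega) hm.2
      · have h5 := isN_sound s R hs _ u2
        have h6 := m10_card_pos (m10_ne_of_mask A3 u1)
        rw [c3] at h5
        exact fun hm => m10_two true hf' (by omega) hm.2
  have hV : ∀ d, d ∉ U s → cod (s (pr i 0)) d = 0 ∧ cod (s (pr i 1)) d = 0 ∧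
      cod (s (pr i 2)) d = 0 ∧ cod (s (pr i 3)) d = 0 := by
    intro d hd
    have : ∀ j, cod (s j) d = 0 := by
      intro j
      by_contra hn
      exact hd ((mem_U s d).mpr ⟨j, hn⟩)
    exact ⟨this _, this _, this _, this _⟩
  have hT := term_bound E.P hE.hKB _ A (tcOf x 0) _ _ _ _ o o' f f' hf hf' h1 hnb hA (U s) hV
  -- the forced new colours
  have x0 : (isE (kill R) ((tdC i o o').mp.getD 0 0) || !((A.get 0).testBit 0)) = true →
      xn (mrg (s (pr i 0)) (s (pr i 1)) o) f false = 1 := by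
    intro hh
    apply m10_xn_one
    rw [Bool.or_eq_true] at hh
    rcases hh with hh | hh
    · have := isE_sound hmk s R hs _ hh
      rw [c0, Finset.card_eq_zero] at this
      exact m10_newc_ne hf this
    · exact m10_ne_of_mask A0 (by rw [Bool.not_eq_true'] at hh; exact hh)
  have x1 : (isE (kill R) ((tdC i o o').mp.getD 1 0) || !((A.get 1).testBit 0)) = true →
      xn (mrg (s (pr i 0)) (s (pr i 1)) o) f true = 1 := by
    intro hh
    apply m10_xn_one
    rw [Bool.or_eq_true] at hh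
    rcases hh with hh | hh
    · have := isE_sound hmk s R hs _ hh
      rw [c1, Finset.card_eq_zero] at this
      exact m10_newc_ne hf this
    · exact m10_ne_of_mask A1 (by rw [Bool.not_eq_true'] at hh; exact hh)
  have x2 : (isE (kill R) ((tdC i o o').mp.getD 2 0) || !((A.get 2).testBit 0)) = true →
      xn (mrg (s (pr i 2)) (s (pr i 3)) o') f' false = 1 := by
    intro hh
    apply m10_xn_one
    rw [Bool.or_eq_true] at hh
    rcases hh with hh | hh
    · have := isE_sound hmk s R hs _ hh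
      rw [c2, Finset.card_eq_zero] at this
      exact m10_newc_ne hf' this
    · exact m10_ne_of_mask A2 (by rw [Bool.not_eq_true'] at hh; exact hh)
  have x3 : (isE (kill R) ((tdC i o o').mp.getD 3 0) || !((A.get 3).testBit 0)) = true →
      xn (mrg (s (pr i 2)) (s (pr i 3)) o') f' true = 1 := by
    intro hh
    apply m10_xn_one
    rw [Bool.or_eq_true] at hh
    rcases hh with hh | hh
    · have := isE_sound hmk s R hs _ hh
      rw [c3, Finset.card_eq_zero] at this
      exact m10_newc_ne hf' this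
    · exact m10_ne_of_mask A3 (by rw [Bool.not_eq_true'] at hh; exact hh)
  have y0 := m10_contrib (P := (tcOf x 0).p0) (M := (tcOf x 0).m0) (m10_xn_cases _ _ _) x0
  have y1 := m10_contrib (P := (tcOf x 0).p1) (M := (tcOf x 0).m1) (m10_xn_cases _ _ _) x1
  have y2 := m10_contrib (P := (tcOf x 0).p2) (M := (tcOf x 0).m2) (m10_xn_cases _ _ _) x2
  have y3 := m10_contrib (P := (tcOf x 0).p3) (M := (tcOf x 0).m3) (m10_xn_cases _ _ _) x3
  -- the packed comparison
  have hlen : (wts E.P A (tcOf x 0)).length = 20 := rfl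
  rw [dot_td _ hlen, a1, b1, a2, b2, hw, ← pk_add, ← pk_add, Nat.zero_add, ← pk_add,
    ← pk_add] at h3
  have hb3 : ∀ t, fL2 t ≤ 1000 * 2 ^ 27 := fun t =>
    (b3 t).trans (Nat.mul_le_mul_right _ hR)
  have hb4 : ∀ t, fR2 t ≤ 1000 * 2 ^ 27 := fun t =>
    (b4 t).trans (Nat.mul_le_mul_right _ hR)
  have hc := cmpF_sound _ _ (fun t => by
    have := m10_wts_le E.P hE.hlm A x 0 (cls i o o' t)
    have := a3 t
    have := hb3 t
    omega) (fun t => by
    have := hW t
    have := a4 t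
    have := hb4 t
    omega) h3
  have hsum : ∑ d ∈ U s, ((wts E.P A (tcOf x 0)).getD
      (clsC (s (pr i 0)) (s (pr i 1)) (s (pr i 2)) (s (pr i 3)) o o' d) 0 : ℤ) +
      ∑ d ∈ U s, (fL1 (typ s d) : ℤ) + ∑ d ∈ U s, (fL2 (typ s d) : ℤ) ≤
      ∑ d ∈ U s, (fR1 (typ s d) : ℤ) + ∑ d ∈ U s, (fR2 (typ s d) : ℤ) +
      ∑ d ∈ U s, (W (typ s d) : ℤ) := by
    rw [← Finset.sum_add_distrib, ← Finset.sum_add_distrib, ← Finset.sum_add_distrib,
      ← Finset.sum_add_distrib]
    apply Finset.sum_le_sum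
    intro d _
    have := hc (typ s d) (typ_lt s d)
    rw [cls_typ] at this
    have h7 : (((wts E.P A (tcOf x 0)).getD
      (clsC (s (pr i 0)) (s (pr i 1)) (s (pr i 2)) (s (pr i 3)) o o' d) 0 : ℕ) : ℤ) +
      ((fL1 (typ s d) : ℤ) + (fL2 (typ s d) : ℤ)) ≤
      (fR1 (typ s d) : ℤ) + (fR2 (typ s d) : ℤ) + (W (typ s d) : ℤ) := by exact_mod_cast this
    linarith
  have h4 : C + ((tcOf x 0).m0 + (tcOf x 0).m1 + (tcOf x 0).m2 + (tcOf x 0).m3 +
      ((vLoop x lvL 8).lo + (lLoop x R 16).lo)) ≤ _ := Nat.le_of_ble_eq_true h2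
  zify at h4
  linarith

/-- Case distinction.  `nkind … k` holds for exactly one `k`; `k = 2 + b` for the side `a` of `f`
iff `k = 2 + a` for the side `b` of `f'`. -/
theorem ctOK_sound (E : Env) (hE : EnvOK E) (s : Fin 4 → Comp) (hOk : ∀ i, (s i).Ok) (R : List ℕ)
    (hR : R.length ≤ 1000) (hs : ∀ l ∈ R, satL s l) (i : Fin 3) (o o' : Bool) (f f' : Comp)
    (hf : Fix1 (mrg (s (pr i 0)) (s (pr i 1)) o) f)
    (hf' : Fix1 (mrg (s (pr i 2)) (s (pr i 3)) o') f') (C w : ℕ) (W : ℕ → ℕ) (hw : w = pk W)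
    (hW : ∀ t, W t ≤ 2 ^ 33) (t : CT) (A : Msk)
    (hA : KindsIn A (s (pr i 0)) (s (pr i 1)) (s (pr i 2)) (s (pr i 3)) o o' f f')
    (h : ctOK E R (kill R) (tdC i o o') C w t A = true) :
    (C : ℤ) ≤ valZ E.P (s (pr i 0)) (s (pr i 1)) (s (pr i 2)) (s (pr i 3)) o o' f f' +
      ∑ c ∈ U s, (W (typ s c) : ℤ) := by
  induction t generalizing A with
  | leaf x =>
    exact m10_leaf E hE s hOk R hR hs i o o' f f' hf hf' C w W hw hW A hA x h
  | node a k l r ihl ihr =>
    simp only [ctOK, Bool.and_eq_true] at h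
    obtain ⟨⟨⟨⟨⟨ha, hk⟩, -⟩, -⟩, hl⟩, hr⟩ := h
    by_cases hK : m10K (s (pr i 0)) (s (pr i 1)) (s (pr i 2)) (s (pr i 3)) o o' f f' a k
    · exact ihl _ (m10_only hf hf' hA hK) hl
    · exact ihr _ (m10_drop (Nat.le_of_ble_eq_true ha) (Nat.le_of_ble_eq_true hk) hA hK) hr
  | nodeC a b l r ihl ihr =>
    simp only [ctOK, Bool.and_eq_true] at h
    obtain ⟨⟨⟨ha, hb⟩, hl⟩, hr⟩ := h
    have ha' := Nat.le_of_ble_eq_true ha
    have hb' := Nat.le_of_ble_eq_true hb
    have hcomm := m10K_comm (o := o) (o' := o') hf hf' a b ha' hb'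
    by_cases hK : m10K (s (pr i 0)) (s (pr i 1)) (s (pr i 2)) (s (pr i 3)) o o' f f' a (2 + b)
    · exact ihl _ (m10_only hf hf' (m10_only hf hf' hA hK) (hcomm.mp hK)) hl
    · exact ihr _ (m10_drop (by omega) (by omega) (m10_drop (by omega) (by omega) hA hK)
        (fun h' => hK (hcomm.mpr h'))) hr

/-! ## sparse weights -/

private theorem m10_single (z : ℕ × ℕ) (hz : z.1 ≤ 255) :
    z.2 * 2 ^ (40 * z.1) = pk fun t => if z.1 = t then z.2 else 0 := by
  unfold pk
  rw [Finset.sum_eq_single z.1]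
  · simp
  · intro b _ hb
    simp [Ne.symm hb]
  · intro h
    exact absurd (Finset.mem_range.mpr (by omega)) h

theorem spk_eq (l : List (ℕ × ℕ)) (hl : ∀ z ∈ l, z.1 ≤ 255) :
    spk l = pk fun t => (l.map fun z => if z.1 = t then z.2 else 0).sum := by
  induction l with
  | nil =>
    simp only [spk, List.map_nil, List.sum_nil]
    exact pk_zero.symm
  | cons z l ih =>
    have h1 := ih (fun y hy => hl y (List.mem_cons_of_mem _ hy))
    have h2 := m10_single z (hl z (List.mem_cons_self))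
    simp only [spk, List.map_cons, List.sum_cons]
    rw [pk_add, ← h1, ← h2]

private theorem m10_wsum_le (l : List (ℕ × ℕ)) (hl : ∀ z ∈ l, z.2 ≤ 16777215) (t : ℕ) :
    (l.map fun z => if z.1 = t then z.2 else 0).sum ≤ l.length * 2 ^ 24 := by
  induction l with
  | nil => simp
  | cons z l ih =>
    have h1 := ih (fun y hy => hl y (List.mem_cons_of_mem _ hy))
    have h2 := hl z (List.mem_cons_self)
    simp only [List.map_cons, List.sum_cons, List.length_cons]
    have h3 : (if z.1 = t then z.2 else 0) ≤ 2 ^ 24 := by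
      split_ifs
      · omega
      · exact Nat.zero_le _
    rw [Nat.succ_mul]
    omega

private theorem m10_mAll (p q r t : Comp) (o o' : Bool) (f f' : Comp) :
    KindsIn mAll p q r t o o' f f' := by
  rw [m10_kindsIn_iff]
  intro a k hk
  obtain ⟨h1, h2⟩ := m10K_lt hk
  interval_cases a <;> interval_cases k <;> rfl

/-! ## terms of a special leaf -/

private theorem m10_sAcc (E : Env) (hE : EnvOK E) (s : Fin 4 → Comp) (hOk : ∀ i, (s i).Ok)
    (R : List ℕ) (hR : R.length ≤ 1000) (hs : ∀ l ∈ R, satL s l) (x idx : ℕ) (i : Fin 3)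
    (o o' : Bool) (f f' : Comp) (hf : Fix1 (mrg (s (pr i 0)) (s (pr i 1)) o) f)
    (hf' : Fix1 (mrg (s (pr i 2)) (s (pr i 3)) o') f') (st : Option ST)
    (hok : (sAcc E R (kill R) x (tdC i o o') idx st).ok = true) :
    Sem s (sAcc E R (kill R) x (tdC i o o') idx st) (tVal E.P s x idx i o o' f f') 32 := by
  cases st with
  | none =>
    obtain ⟨fL, fR, h1, h2, h3, h4, h5⟩ :=
      tAcc_sem E.P hE.hKB hE.hlm s R hs x idx i o o' f f' hf hf'
    refine ⟨fL, fR, h1, h2, fun t => ?_, fun t => ?_, h5⟩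
    · have := h3 t
      omega
    · have := h4 t
      omega
  | some st =>
    simp only [sAcc, Bool.and_eq_true] at hok
    obtain ⟨⟨⟨g1, g2⟩, g3⟩, g4⟩ := hok
    have g1' := Nat.eq_of_beq_eq_true g1
    have g3' := Nat.le_of_ble_eq_true g3
    rw [List.all_eq_true] at g2
    have e1 : ∀ z ∈ st.w, z.1 ≤ 255 := by
      intro z hz
      have := g2 z hz
      rw [Bool.and_eq_true] at this
      exact Nat.le_of_ble_eq_true this.1
    have e2 : ∀ z ∈ st.w, z.2 ≤ 16777215 := by
      intro z hz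
      have := g2 z hz
      rw [Bool.and_eq_true] at this
      exact Nat.le_of_ble_eq_true this.2
    have e3 := spk_eq st.w e1
    have e4 := m10_wsum_le st.w e2
    have e5 : st.w.length * 2 ^ 24 ≤ 255 * 2 ^ 24 := Nat.mul_le_mul_right _ g3'
    refine ⟨fun t => (st.w.map fun z => if z.1 = t then z.2 else 0).sum, fun _ => 0, ?_, ?_,
      fun t => (e4 t).trans (e5.trans ?_), fun t => Nat.zero_le _, fun _ => ?_⟩
    · simp only [sAcc]
      exact e3
    · simp only [sAcc]
      exact pk_zero.symm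
    · norm_num
    · have e7 : ∀ t, (st.w.map fun z => if z.1 = t then z.2 else 0).sum ≤ 2 ^ 33 := by
        intro t
        refine (e4 t).trans (e5.trans ?_)
        norm_num
      have key := ctOK_sound E hE s hOk R hR hs i o o' f f' hf hf' st.C (spk st.w) _ e3
        e7 st.t mAll (m10_mAll _ _ _ _ _ _ _ _) g4
      have z0 : sp (fd x (idx + 4)) = 0 := by omega
      have z1 : sp (fd x (idx + 5)) = 0 := by omega
      have z2 : sp (fd x (idx + 6)) = 0 := by omega
      have z3 : sp (fd x (idx + 7)) = 0 := by omega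
      have e6 : tVal E.P s x idx i o o' f f' =
          valZ E.P (s (pr i 0)) (s (pr i 1)) (s (pr i 2)) (s (pr i 3)) o o' f f' := by
        unfold tVal
        rw [z0, z1, z2, z3]
        simp
      rw [e6]
      simp only [sAcc]
      push_cast
      push_cast at key
      simp only [Finset.sum_const_zero]
      linarith

private theorem m10_sLoop_cons (E : Env) (R : List ℕ) (kl x : ℕ) (td : TD) (ts : List TD)
    (idx : ℕ) (ss : List (Option ST)) :
    sLoop E R kl x (td :: ts) idx ss =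
      (sAcc E R kl x td idx ss.head?.join).add (sLoop E R kl x ts (idx + 8) ss.tail) := by
  cases ss <;> rfl

private def m10v (P : Pot) (s : Fin 4 → Comp) (x : ℕ) (F : Fin 3 → Bool → Bool → Comp × Comp) :
    List (Fin 3 × Bool × Bool) → ℕ → ℤ
  | [], _ => 0
  | z :: l, idx => tVal P s x idx z.1 z.2.1 z.2.2 (F z.1 z.2.1 z.2.2).1 (F z.1 z.2.1 z.2.2).2 +
      m10v P s x F l (idx + 8)

private theorem m10_zero_sem (s : Fin 4 → Comp) : Sem s ⟨true, 0, 0, 0, 0⟩ 0 0 := by
  refine ⟨fun _ => 0, fun _ => 0, pk_zero.symm, pk_zero.symm, fun _ => Nat.zero_le _,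
    fun _ => Nat.zero_le _, fun _ => ?_⟩
  simp

private theorem m10_sLoop_sem (E : Env) (hE : EnvOK E) (s : Fin 4 → Comp) (hOk : ∀ i, (s i).Ok)
    (R : List ℕ) (hR : R.length ≤ 1000) (hs : ∀ l ∈ R, satL s l) (x : ℕ)
    (F : Fin 3 → Bool → Bool → Comp × Comp) (hF : Fam s F) (tl : List (Fin 3 × Bool × Bool)) :
    ∀ (idx : ℕ) (ss : List (Option ST)),
      (sLoop E R (kill R) x (tl.map fun z => tdC z.1 z.2.1 z.2.2) idx ss).ok = true →
      Sem s (sLoop E R (kill R) x (tl.map fun z => tdC z.1 z.2.1 z.2.2) idx ss)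
        (m10v E.P s x F tl idx) (32 * tl.length) := by
  induction tl with
  | nil =>
    intro idx ss _
    cases ss <;> exact m10_zero_sem s
  | cons z tl ih =>
    intro idx ss hok
    rw [List.map_cons, m10_sLoop_cons] at hok ⊢
    simp only [Acc.add, Bool.and_eq_true] at hok
    have h1 := m10_sAcc E hE s hOk R hR hs x idx z.1 z.2.1 z.2.2 _ _ (hF z.1 z.2.1 z.2.2).1
      (hF z.1 z.2.1 z.2.2).2 _ hok.1
    have h2 := Sem.add h1 (ih _ _ hok.2) pk_add
    rw [List.length_cons, show 32 * (tl.length + 1) = 32 + 32 * tl.length by ring]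
    exact h2

private def m10tl : List (Fin 3 × Bool × Bool) :=
  [(0, false, false), (0, false, true), (0, true, false), (0, true, true),
   (1, false, false), (1, false, true), (1, true, false), (1, true, true),
   (2, false, false), (2, false, true), (2, true, false), (2, true, true)]

theorem spec_sound (E : Env) (hE : EnvOK E) (R : List ℕ) (hR : R.length ≤ 1000) (x : ℕ)
    (ss : List (Option ST)) (h : specOK E R x ss = true) : Holds E.P E.T R := by
  intro s hOk hs F hF
  unfold specOK at h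
  have hok : (sLoop E R (kill R) x E.td 0 ss).ok = true := by
    unfold accOK at h
    simp only [Acc.add, Bool.and_eq_true] at h
    exact h.1.1.1.1
  have htd : E.td = m10tl.map fun z => tdC z.1 z.2.1 z.2.2 := hE.htd
  rw [htd] at h hok
  have h1 := m10_sLoop_sem E hE s hOk R hR hs x F hF m10tl 0 ss hok
  have h2 := vLoop_sem s hOk x 108
  have h3 := lLoop_sem s R hs x 140
  have p0 := pAcc_sem E.P hE.hKB s hOk R hs x 0 0 1 (by decide) [4, 12, 20, 28, 21, 29, 5, 13]
  have p1 := pAcc_sem E.P hE.hKB s hOk R hs x 1 0 2 (by decide) [36, 44, 52, 60, 53, 61, 37, 45]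
  have p2 := pAcc_sem E.P hE.hKB s hOk R hs x 2 0 3 (by decide) [68, 76, 84, 92, 85, 93, 69, 77]
  have p3 := pAcc_sem E.P hE.hKB s hOk R hs x 3 1 2 (by decide) [70, 86, 78, 94, 79, 95, 71, 87]
  have p4 := pAcc_sem E.P hE.hKB s hOk R hs x 4 1 3 (by decide) [38, 54, 46, 62, 47, 63, 39, 55]
  have p5 := pAcc_sem E.P hE.hKB s hOk R hs x 5 2 3 (by decide) [6, 22, 14, 30, 15, 31, 7, 23]
  have hp := Sem.add p0 (Sem.add p1 (Sem.add p2 (Sem.add p3 (Sem.add p4 (Sem.add p5
    (m10_zero_sem s) pk_add) pk_add) pk_add) pk_add) pk_add) pk_add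
  have hall := Sem.add (Sem.add h1 hp pk_add) (Sem.add h2 h3 pk_add) pk_add
  rw [hE.hpd, hE.hlv] at h
  have hfin := accOK_sound E hE s _ _ _ (by
    have : m10tl.length = 12 := rfl
    omega) hall h
  have hM : ∀ (p q : Comp) (o σ : Bool), eM p q o σ = eS p q σ (xor σ o) := fun _ _ _ _ => rfl
  have q00 : pr 0 0 = 0 := rfl
  have q01 : pr 0 1 = 1 := rfl
  have q02 : pr 0 2 = 2 := rfl
  have q03 : pr 0 3 = 3 := rfl
  have q10 : pr 1 0 = 0 := rfl
  have q11 : pr 1 1 = 2 := rfl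
  have q12 : pr 1 2 = 1 := rfl
  have q13 : pr 1 3 = 3 := rfl
  have q20 : pr 2 0 = 0 := rfl
  have q21 : pr 2 1 = 3 := rfl
  have q22 : pr 2 2 = 1 := rfl
  have q23 : pr 2 3 = 2 := rfl
  have r0 : (xor false false) = false := rfl
  have r1 : (xor false true) = true := rfl
  have r2 : (xor true false) = true := rfl
  have r3 : (xor true true) = false := rfl
  simp only [m10v, m10tl, tVal, hM, List.getD_cons_zero, List.getD_cons_succ, q00, q01, q02, q03,
    q10, q11, q12, q13, q20, q21, q22, q23, r0, r1, r2, r3, Nat.reduceAdd] at hfin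
  simp only [Fin.sum_univ_four, Fin.sum_univ_three, Fintype.sum_bool, q00, q01, q02, q03,
    q10, q11, q12, q13, q20, q21, q22, q23]
  have l01 : (0 : Fin 4) < 1 := by decide
  have l02 : (0 : Fin 4) < 2 := by decide
  have l03 : (0 : Fin 4) < 3 := by decide
  have l12 : (1 : Fin 4) < 2 := by decide
  have l13 : (1 : Fin 4) < 3 := by decide
  have l23 : (2 : Fin 4) < 3 := by decide
  simp only [l01, l02, l03, l12, l13, l23, lt_irrefl, if_true, if_false, not_lt.mpr l01.le,
    not_lt.mpr l02.le, not_lt.mpr l03.le, not_lt.mpr l12.le, not_lt.mpr l13.le, not_lt.mpr l23.le]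
  linarith

end Pool.Agent.Helper22.QC
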