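import Pool.Agent.Helper22.QC.Lem.M02
import Pool.Agent.Helper22.QC.Lem.M03
import Pool.Agent.Helper22.QC.Lem.M10

/-! # Soundness of the records -/

namespace Pool.Agent.Helper22.QC

open Finset
open Pool.Agent.Helper2.OC

theorem M11.decR_length : ∀ (n x : ℕ), (decR n x).length ≤ n
  | 0, _ => by simp [decR]
  | n + 1, x => by
    have ih := M11.decR_length n (x / 262144)
    unfold decR
    rcases Bool.eq_false_or_eq_true (Nat.beq x 0) with h | h
    · rw [h]
      simp
    · rw [h]
      simp only [cond_false, List.length_cons]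
      omega

theorem reg_length (t : Tr) (i : ℕ) : (t.reg i).length ≤ 64 := M11.decR_length 64 (t.get i)

theorem M11.flipC_ok (e : Bool) (p : Comp) (h : p.Ok) : (flipC e p).Ok := by
  intro σ
  obtain ⟨c, hc, hc'⟩ := h (xor σ e)
  refine ⟨c, hc, ?_⟩
  unfold flipC
  have e1 : xor (!σ) e = !(xor σ e) := by
    cases σ <;> cases e <;> rfl
  rw [e1]
  exact hc'

/-- use `gpF_bij`, `good_act`, `satL_act`, `impl_sound`, and `(act π ε s) i` is Ok -/
theorem sub1_sound (P : Pot) (T : ℕ) (Q : List ℕ) (g : ℕ) (R : List ℕ)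
    (h : sub1 lvL Q g R = true) (hQ : Holds P T Q) : Holds P T R := by
  intro s hOk hs
  unfold sub1 at h
  rw [Bool.and_eq_true] at h
  obtain ⟨h1, h2⟩ := h
  have hg : g < 384 := by
    have := Nat.le_of_ble_eq_true h1
    omega
  have h2' : ∀ q ∈ Q, impl lvL R (kill R) (mapL g q) = true := List.all_eq_true.1 h2
  have hgood : Good P T (act (gpF g) (fun i => ge g i) s) := by
    refine hQ _ (fun i => M11.flipC_ok _ _ (hOk _)) fun l hl => ?_
    exact satL_act g hg s l (impl_sound (fun A t ht => testBit_mk A t ht) s hOk R hs _ (h2' l hl))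
  exact good_act P T (Equiv.ofBijective (gpF g) (gpF_bij g hg)) (fun i => ge g i) s hgood

theorem M11.sat_or (s : Fin 4 → Comp) (l : ℕ) (hl : l % 4 ≤ 1) : satL s l ∨ satL s (l + 2) := by
  have hd : (l + 2) / 4 = l / 4 := by omega
  unfold satL
  rw [hd]
  have hc : l % 4 = 0 ∨ l % 4 = 1 := by omega
  rcases hc with hc | hc
  · have hm : (l + 2) % 4 = 2 := by omega
    rw [hc, hm]
    rcases Nat.eq_zero_or_pos (cnt s (l / 4)) with h0 | h0
    · right
      refine ⟨fun h => ?_, fun h => ?_, fun _ => h0, fun h => ?_⟩ <;> omega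
    · left
      refine ⟨fun _ => h0, fun h => ?_, fun h => ?_, fun h => ?_⟩ <;> omega
  · have hm : (l + 2) % 4 = 3 := by omega
    rw [hc, hm]
    rcases Nat.lt_or_ge 1 (cnt s (l / 4)) with h0 | h0
    · left
      refine ⟨fun h => ?_, fun _ => h0, fun h => ?_, fun h => ?_⟩ <;> omega
    · right
      refine ⟨fun h => ?_, fun h => ?_, fun h => ?_, fun _ => h0⟩ <;> omega

theorem rcOK_sound (E : Env) (hE : EnvOK E) (t : Tr) (i : ℕ) (r : Rc) (h : rcOK E t i r = true)
    (hp : ∀ j < i, Holds E.P E.T (t.reg j)) : Holds E.P E.T (t.reg i) := by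
  have hlen : (t.reg i).length ≤ 1000 := (reg_length t i).trans (by norm_num)
  cases r with
  | leaf x => exact leaf_sound E hE (t.reg i) hlen x h
  | spec x ss => exact spec_sound E hE (t.reg i) hlen x ss h
  | br l j0 g0 j1 g1 =>
    unfold rcOK at h
    simp only [Bool.and_eq_true] at h
    obtain ⟨⟨⟨⟨h1, h2⟩, h3⟩, h4⟩, h5⟩ := h
    rw [hE.hlv] at h4 h5
    have hl : l % 4 ≤ 1 := Nat.le_of_ble_eq_true h1
    have hj0 : j0 < i := Nat.le_of_ble_eq_true h2
    have hj1 : j1 < i := Nat.le_of_ble_eq_true h3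
    have k0 := sub1_sound E.P E.T (t.reg j0) g0 (l :: t.reg i) h4 (hp j0 hj0)
    have k1 := sub1_sound E.P E.T (t.reg j1) g1 ((l + 2) :: t.reg i) h5 (hp j1 hj1)
    intro s hOk hs
    rcases M11.sat_or s l hl with hc | hc
    · refine k0 s hOk fun q hq => ?_
      rcases List.mem_cons.1 hq with rfl | hq
      · exact hc
      · exact hs q hq
    · refine k1 s hOk fun q hq => ?_
      rcases List.mem_cons.1 hq with rfl | hq
      · exact hc
      · exact hs q hq

theorem chunk_sound (E : Env) (hE : EnvOK E) (t : Tr) (i : ℕ) (rs : List Rc)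
    (h : chunk E t i rs = true) (hp : ∀ j < i, Holds E.P E.T (t.reg j)) :
    ∀ j < i + rs.length, Holds E.P E.T (t.reg j) := by
  induction rs generalizing i with
  | nil =>
    intro j hj
    exact hp j (by simpa using hj)
  | cons r rs ih =>
    unfold chunk at h
    rw [Bool.and_eq_true] at h
    have hi := rcOK_sound E hE t i r h.1 hp
    intro j hj
    refine ih (i + 1) h.2 (fun j' hj' => ?_) j (by rw [List.length_cons] at hj; omega)
    rcases Nat.lt_succ_iff_lt_or_eq.1 hj' with h' | rfl
    · exact hp j' h'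
    · exact hi

end Pool.Agent.Helper22.QC
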