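import Pool.Agent.Helper22.QC.Sem

/-! # From `Good` to `FourIneq` -/

namespace Pool.Agent.Helper22.QC

open Finset
open Pool.Agent.Helper2.OC

/-! ## codes and statuses -/

theorem M01.cod_stt (p : Comp) (c : ℕ) : ((cod p c = 1 ∨ cod p c = 2) ↔ stt c p = 1) ∧
    (cod p c = 3 ↔ stt c p = 2) ∧ cod p c < 4 := by
  unfold cod stt
  by_cases h1 : c ∈ p false <;> by_cases h2 : c ∈ p true <;> simp [h1, h2]

theorem M01.dig_typ (s : Fin 4 → Comp) (c : ℕ) : dig (typ s c) 0 = cod (s 0) c ∧
    dig (typ s c) 1 = cod (s 1) c ∧ dig (typ s c) 2 = cod (s 2) c ∧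
    dig (typ s c) 3 = cod (s 3) c := by
  have h0 := (M01.cod_stt (s 0) c).2.2
  have h1 := (M01.cod_stt (s 1) c).2.2
  have h2 := (M01.cod_stt (s 2) c).2.2
  have h3 := (M01.cod_stt (s 3) c).2.2
  unfold dig typ
  refine ⟨?_, ?_, ?_, ?_⟩
  · norm_num
    omega
  · norm_num
    omega
  · norm_num
    omega
  · norm_num
    omega

theorem M01.nL_typ (s : Fin 4 → Comp) (c : ℕ) : nL (typ s c) =
    (if stt c (s 0) = 1 then 1 else 0) + (if stt c (s 1) = 1 then 1 else 0) +
      (if stt c (s 2) = 1 then 1 else 0) + (if stt c (s 3) = 1 then 1 else 0) := by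
  obtain ⟨h0, h1, h2, h3⟩ := M01.dig_typ s c
  unfold nL
  simp only [List.range_succ, List.range_zero, List.nil_append, List.map_append, List.map_cons,
    List.map_nil, List.sum_append, List.sum_cons, List.sum_nil, add_zero, h0, h1, h2, h3,
    (M01.cod_stt _ c).1]

theorem M01.nD_typ (s : Fin 4 → Comp) (c : ℕ) : nD (typ s c) =
    (if stt c (s 0) = 2 then 1 else 0) + (if stt c (s 1) = 2 then 1 else 0) +
      (if stt c (s 2) = 2 then 1 else 0) + (if stt c (s 3) = 2 then 1 else 0) := by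
  obtain ⟨h0, h1, h2, h3⟩ := M01.dig_typ s c
  unfold nD
  simp only [List.range_succ, List.range_zero, List.nil_append, List.map_append, List.map_cons,
    List.map_nil, List.sum_append, List.sum_cons, List.sum_nil, add_zero, h0, h1, h2, h3,
    (M01.cod_stt _ c).2.1]

theorem M01.gR_eq (P : Pot) (T : ℕ) (s : Fin 4 → Comp) (c : ℕ) :
    gR P T (stt c (s 0)) (stt c (s 1)) (stt c (s 2)) (stt c (s 3)) = (gT P (typ s c) : ℝ) / T := by
  unfold gR gT
  rw [M01.nL_typ, M01.nD_typ]

theorem M01.lamK_eq (r t : Comp) (o : Bool) (c : ℕ) :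
    lamK (stt c r) (stt c t) (stt c (mrg r t o)) = lamCls (cod r c) (swo o (cod t c)) := by
  cases o <;> by_cases h1 : c ∈ r false <;> by_cases h2 : c ∈ r true <;>
    by_cases h3 : c ∈ t false <;> by_cases h4 : c ∈ t true <;>
    simp [lamK, lamCls, stt, cod, swo, swc, mrg, h1, h2, h3, h4]

theorem M01.lamC_eq (P : Pot) (T : ℕ) (r t : Comp) (o : Bool) (c : ℕ) :
    lamC (ΛR P T) c r t o = 24 * (lamZ P r t o c : ℝ) / T := by
  unfold lamC ΛR lamZ
  rw [M01.lamK_eq]
  push_cast
  ring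

/-! ## symmetries of `valZ` -/

theorem M01.slot_comm (p q : Comp) (σ ρ : Bool) : slot q p ρ σ = slot p q σ ρ := by
  unfold slot
  rw [Finset.union_comm (q ρ), Finset.union_comm (q (!ρ))]

theorem M01.emp_comm (p q : Comp) : emp q p = emp p q := by
  unfold emp
  rw [Finset.sum_comm]
  apply Finset.sum_congr rfl
  intro σ _
  apply Finset.sum_congr rfl
  intro ρ _
  rw [M01.slot_comm]

theorem M01.KK_comm (P : Pot) (p q : Comp) : KK P q p = KK P p q := by
  unfold KK
  rw [M01.emp_comm]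
  simp only [and_comm]

theorem M01.slot_flip (e : Bool) (p q : Comp) (σ ρ : Bool) :
    slot (flipC e p) q σ ρ = slot p q (xor σ e) ρ := by
  unfold slot flipC
  cases σ <;> cases e <;> rfl

theorem M01.emp_flip (e : Bool) (p q : Comp) : emp (flipC e p) q = emp p q := by
  unfold emp
  simp only [M01.slot_flip, Fintype.sum_bool]
  cases e <;> simp <;> ring

theorem M01.mini_flip (e : Bool) (p : Comp) : Mini (flipC e p) ↔ Mini p := by
  unfold Mini flipC
  cases e
  · simp
  · simp only [Bool.forall_bool, Bool.xor_true, Bool.not_false, Bool.not_true]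
    exact and_comm

theorem M01.KK_flip (P : Pot) (e : Bool) (p q : Comp) : KK P (flipC e p) q = KK P p q := by
  unfold KK
  rw [M01.emp_flip]
  simp only [M01.mini_flip]

theorem M01.union_flip (e : Bool) (p : Comp) :
    flipC e p false ∪ flipC e p true = p false ∪ p true := by
  unfold flipC
  cases e
  · rfl
  · exact Finset.union_comm _ _

theorem M01.mrg_swap (p q : Comp) (o : Bool) : mrg q p o = flipC o (mrg p q o) := by
  funext σ
  unfold mrg flipC
  cases σ <;> cases o <;> exact Finset.union_comm _ _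

theorem M01.nw_flip (m f : Comp) (e : Bool) : nw (flipC e m) f = nw m (flipC e f) := by
  unfold nw
  rw [M01.union_flip, M01.union_flip]

theorem M01.nw_swap (p q f : Comp) (o : Bool) : nw (mrg q p o) f = nw (mrg p q o) (flipC o f) := by
  rw [M01.mrg_swap, M01.nw_flip]

theorem M01.fix_flip (m f : Comp) (e : Bool) (h : Fix1 (flipC e m) f) : Fix1 m (flipC e f) := by
  obtain ⟨χ, h1, h2⟩ := h
  refine ⟨fun σ => χ (xor σ e), ?_, ?_⟩
  · intro σ
    change f (xor σ e) = insert (χ (xor σ e)) (m σ)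
    rw [h1]
    unfold flipC
    cases σ <;> cases e <;> rfl
  · intro σ
    change χ (xor σ e) ∉ f (xor (!σ) e)
    have := h2 (xor σ e)
    cases σ <;> cases e <;> exact this

theorem M01.fix_swap (p q f : Comp) (o : Bool) (h : Fix1 (mrg q p o) f) :
    Fix1 (mrg p q o) (flipC o f) := by
  rw [M01.mrg_swap] at h
  exact M01.fix_flip _ _ _ h

theorem M01.lamCls_swap (p q : Comp) (o : Bool) (c : ℕ) :
    lamCls (cod q c) (swo o (cod p c)) = lamCls (cod p c) (swo o (cod q c)) := by
  cases o <;> by_cases h1 : c ∈ p false <;> by_cases h2 : c ∈ p true <;>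
    by_cases h3 : c ∈ q false <;> by_cases h4 : c ∈ q true <;>
    simp [lamCls, cod, swo, swc, h1, h2, h3, h4]

theorem M01.lamZ_swap (P : Pot) (p q : Comp) (o : Bool) (c : ℕ) :
    lamZ P q p o c = lamZ P p q o c := by
  unfold lamZ
  rw [M01.lamCls_swap]

theorem M01.val_swap1 (P : Pot) (p q r t : Comp) (o o' : Bool) (f f' : Comp) :
    valZ P q p r t o o' f f' = valZ P p q r t o o' (flipC o f) f' := by
  unfold valZ
  simp only [M01.KK_flip, M01.nw_swap p q, M01.lamZ_swap P p q]

theorem M01.val_swap3 (P : Pot) (p q r t : Comp) (o o' : Bool) (f f' : Comp) :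
    valZ P r t p q o' o f' f = valZ P p q r t o o' f f' := by
  unfold valZ
  rw [M01.KK_comm, Finset.inter_comm]
  ring

theorem M01.val_swap2 (P : Pot) (p q r t : Comp) (o o' : Bool) (f f' : Comp) :
    valZ P p q t r o o' f f' = valZ P p q r t o o' f (flipC o' f') := by
  rw [← M01.val_swap3, M01.val_swap1, M01.val_swap3]

/-! ## the transversals -/

def M01.bs : Fin 3 → Equiv.Perm (Fin 4) :=
  ![1, Equiv.swap 1 2, ⟨![0, 3, 1, 2], ![0, 2, 3, 1], by decide, by decide⟩]

def M01.sg (x : Fin 3 × Bool × Bool × Bool) : Equiv.Perm (Fin 4) :=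
  M01.bs x.1 * (if x.2.2.2 then Equiv.swap 0 2 * Equiv.swap 1 3 else 1) *
    (if x.2.1 then Equiv.swap 0 1 else 1) * (if x.2.2.1 then Equiv.swap 2 3 else 1)

theorem M01.sg_bij : Function.Bijective M01.sg := by
  rw [Fintype.bijective_iff_injective_and_card]
  constructor
  · decide +kernel
  · simp [Fintype.card_perm, Nat.factorial]

/-- flip if the flag is set -/
def M01.fl (a o : Bool) (f : Comp) : Comp := if a then flipC o f else f

/-- the family belonging to `(a, b, e)` -/
def M01.fam (f f' : Equiv.Perm (Fin 4) → Bool → Bool → Comp) (a b e : Bool) :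
    Fin 3 → Bool → Bool → Comp × Comp := fun i o o' =>
  if e then (M01.fl b o (f' (M01.sg (i, a, b, e)) o' o), M01.fl a o' (f (M01.sg (i, a, b, e)) o' o))
  else (M01.fl a o (f (M01.sg (i, a, b, e)) o o'), M01.fl b o' (f' (M01.sg (i, a, b, e)) o o'))

theorem M01.sg_false : ∀ (i : Fin 3) (a b : Bool), M01.sg (i, a, b, false) 0 = pr i (if a then 1 else 0) ∧
    M01.sg (i, a, b, false) 1 = pr i (if a then 0 else 1) ∧
    M01.sg (i, a, b, false) 2 = pr i (if b then 3 else 2) ∧
    M01.sg (i, a, b, false) 3 = pr i (if b then 2 else 3) := by decide +kernel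

theorem M01.sg_true : ∀ (i : Fin 3) (a b : Bool), M01.sg (i, a, b, true) 0 = pr i (if a then 3 else 2) ∧
    M01.sg (i, a, b, true) 1 = pr i (if a then 2 else 3) ∧
    M01.sg (i, a, b, true) 2 = pr i (if b then 1 else 0) ∧
    M01.sg (i, a, b, true) 3 = pr i (if b then 0 else 1) := by decide +kernel

theorem M01.fl_fix (s : Fin 4 → Comp) (a o : Bool) (x y : Fin 4) (f : Comp)
    (h : Fix1 (mrg (s (if a then y else x)) (s (if a then x else y)) o) f) :
    Fix1 (mrg (s x) (s y) o) (M01.fl a o f) := by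
  cases a
  · exact h
  · exact M01.fix_swap _ _ _ _ h

theorem M01.fam_ok (s : Fin 4 → Comp) (f f' : Equiv.Perm (Fin 4) → Bool → Bool → Comp)
    (hf : ∀ σ o o', Fix1 (mrg (s (σ 0)) (s (σ 1)) o) (f σ o o'))
    (hf' : ∀ σ o o', Fix1 (mrg (s (σ 2)) (s (σ 3)) o') (f' σ o o')) (a b e : Bool) :
    Fam s (M01.fam f f' a b e) := by
  intro i o o'
  cases e
  · obtain ⟨h0, h1, h2, h3⟩ := M01.sg_false i a b
    have g1 := hf (M01.sg (i, a, b, false)) o o'
    have g2 := hf' (M01.sg (i, a, b, false)) o o'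
    rw [h0, h1] at g1
    rw [h2, h3] at g2
    constructor
    · apply M01.fl_fix
      cases a <;> exact g1
    · apply M01.fl_fix
      cases b <;> exact g2
  · obtain ⟨h0, h1, h2, h3⟩ := M01.sg_true i a b
    have g1 := hf (M01.sg (i, a, b, true)) o' o
    have g2 := hf' (M01.sg (i, a, b, true)) o' o
    rw [h0, h1] at g1
    rw [h2, h3] at g2
    constructor
    · apply M01.fl_fix
      cases b <;> exact g2
    · apply M01.fl_fix
      cases a <;> exact g1

theorem M01.fl_val (P : Pot) (s : Fin 4 → Comp) (a b o o' : Bool) (x y z w : Fin 4) (f f' : Comp) :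
    valZ P (s (if a then y else x)) (s (if a then x else y)) (s (if b then w else z))
      (s (if b then z else w)) o o' f f' =
    valZ P (s x) (s y) (s z) (s w) o o' (M01.fl a o f) (M01.fl b o' f') := by
  cases a <;> cases b
  · rfl
  · exact M01.val_swap2 _ _ _ _ _ _ _ _ _
  · exact M01.val_swap1 _ _ _ _ _ _ _ _ _
  · change valZ P (s y) (s x) (s w) (s z) o o' f f' =
      valZ P (s x) (s y) (s z) (s w) o o' (flipC o f) (flipC o' f')
    rw [M01.val_swap1, M01.val_swap2]

theorem M01.pr_if (i : Fin 3) (a : Bool) (x y : Fin 4) :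
    pr i (if a then y else x) = if a then pr i y else pr i x := by
  cases a <;> rfl

theorem M01.sum_val (P : Pot) (s : Fin 4 → Comp) (f f' : Equiv.Perm (Fin 4) → Bool → Bool → Comp)
    (i : Fin 3) (a b e : Bool) :
    ∑ o : Bool, ∑ o' : Bool, valZ P (s (M01.sg (i, a, b, e) 0)) (s (M01.sg (i, a, b, e) 1))
      (s (M01.sg (i, a, b, e) 2)) (s (M01.sg (i, a, b, e) 3)) o o' (f (M01.sg (i, a, b, e)) o o')
      (f' (M01.sg (i, a, b, e)) o o') =
    ∑ o : Bool, ∑ o' : Bool,
      valZ P (s (pr i 0)) (s (pr i 1)) (s (pr i 2)) (s (pr i 3)) o o' (M01.fam f f' a b e i o o').1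
        (M01.fam f f' a b e i o o').2 := by
  cases e
  · obtain ⟨h0, h1, h2, h3⟩ := M01.sg_false i a b
    rw [h0, h1, h2, h3]
    apply Finset.sum_congr rfl
    intro o _
    apply Finset.sum_congr rfl
    intro o' _
    simp only [M01.pr_if]
    exact M01.fl_val P s a b o o' (pr i 0) (pr i 1) (pr i 2) (pr i 3) _ _
  · obtain ⟨h0, h1, h2, h3⟩ := M01.sg_true i a b
    rw [h0, h1, h2, h3, Finset.sum_comm]
    apply Finset.sum_congr rfl
    intro o _
    apply Finset.sum_congr rfl
    intro o' _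
    simp only [M01.pr_if]
    rw [M01.fl_val P s a b o' o (pr i 2) (pr i 3) (pr i 0) (pr i 1), M01.val_swap3]
    rfl

/-! ## the four-sample expression -/

theorem M01.T4_eq (P : Pot) (T : ℕ) (h0 : gT P 0 = 0) (A : Finset ℕ) (s : Fin 4 → Comp)
    (hA : ∀ i τ, s i τ ⊆ A) (σ : Equiv.Perm (Fin 4)) (o o' : Bool) (f f' : Comp) :
    T4 (gR P T) (ΛR P T) (12 * (P.kap : ℝ) / T) (fun p q => 12 * (KK P p q : ℝ) / T) A s σ o o' f f' =
      (∑ c ∈ U s, (gT P (typ s c) : ℝ)) / T +
        12 / T * (valZ P (s (σ 0)) (s (σ 1)) (s (σ 2)) (s (σ 3)) o o' f f' : ℝ) := by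
  have hU : U s ⊆ A := by
    unfold U
    rw [Finset.biUnion_subset]
    intro i _
    exact Finset.union_subset (hA i false) (hA i true)
  have h1 : ∑ c ∈ A, gR P T (stt c (s 0)) (stt c (s 1)) (stt c (s 2)) (stt c (s 3)) =
      (∑ c ∈ U s, (gT P (typ s c) : ℝ)) / T := by
    rw [Finset.sum_div]
    simp only [M01.gR_eq]
    symm
    apply Finset.sum_subset hU
    intro c _ hc
    have h2 : ∀ i, cod (s i) c = 0 := by
      intro i
      have h3 : c ∉ s i false := fun h => hc (by
        unfold U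
        exact Finset.mem_biUnion.2 ⟨i, Finset.mem_univ _, Finset.mem_union_left _ h⟩)
      have h4 : c ∉ s i true := fun h => hc (by
        unfold U
        exact Finset.mem_biUnion.2 ⟨i, Finset.mem_univ _, Finset.mem_union_right _ h⟩)
      unfold cod
      simp [h3, h4]
    have h5 : typ s c = 0 := by
      unfold typ
      simp [h2]
    rw [h5, h0]
    simp
  unfold T4
  rw [h1]
  simp only [M01.lamC_eq]
  unfold valZ
  push_cast
  rw [← Finset.sum_div, ← Finset.mul_sum, ← Finset.sum_div, ← Finset.mul_sum]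
  ring

theorem M01.sum_KK (P : Pot) (s : Fin 4 → Comp) :
    ∑ i : Fin 4, ∑ j : Fin 4, (if i ≠ j then (KK P (s i) (s j)) else 0) =
      2 * ∑ i : Fin 4, ∑ j : Fin 4, (if i < j then KK P (s i) (s j) else 0) := by
  have h1 := M01.KK_comm P (s 0) (s 1)
  have h2 := M01.KK_comm P (s 0) (s 2)
  have h3 := M01.KK_comm P (s 0) (s 3)
  have h4 := M01.KK_comm P (s 1) (s 2)
  have h5 := M01.KK_comm P (s 1) (s 3)
  have h6 := M01.KK_comm P (s 2) (s 3)
  simp only [Fin.sum_univ_four]
  simp [h1, h2, h3, h4, h5, h6]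
  ring

/-- The 96 terms of `FourIneq` split into 8 families of 12 terms (one for each element of the group
of order 8 which fixes the pairing `01|23`); `Good P T s` is applied to each of them, with suitable
swaps of the sides of the fixes (`mrg q p o = flipC o (mrg p q o)`) and of `f, f'`. -/
theorem fourIneq_of_good (P : Pot) (T : ℕ) (hT : 0 < T) (h0 : gT P 0 = 0)
    (h : ∀ s : Fin 4 → Comp, (∀ i, (s i).Ok) → Good P T s) :
    FourIneq (gR P T) (ΛR P T) (12 * (P.kap : ℝ) / T) (fun p q => 12 * (KK P p q : ℝ) / T) := by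
  intro s hs f f' hf hf' A hA _ _
  have hg := h s hs
  set K : ℤ := ∑ i : Fin 4, ∑ j : Fin 4, (if i < j then KK P (s i) (s j) else 0) with hK
  set G : ℤ := ∑ c ∈ U s, (gT P (typ s c) : ℤ) with hG
  set V : ℤ := ∑ σ : Equiv.Perm (Fin 4), ∑ o : Bool, ∑ o' : Bool,
    valZ P (s (σ 0)) (s (σ 1)) (s (σ 2)) (s (σ 3)) o o' (f σ o o') (f' σ o o') with hV
  -- the integer inequality
  have hVe : V = ∑ a : Bool, ∑ b : Bool, ∑ e : Bool, ∑ i : Fin 3, ∑ o : Bool, ∑ o' : Bool,
      valZ P (s (pr i 0)) (s (pr i 1)) (s (pr i 2)) (s (pr i 3)) o o' (M01.fam f f' a b e i o o').1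
        (M01.fam f f' a b e i o o').2 := by
    rw [hV, ← M01.sg_bij.sum_comp]
    simp only [Fintype.sum_prod_type]
    simp only [M01.sum_val]
    rw [Finset.sum_comm]
    apply Finset.sum_congr rfl
    intro a _
    rw [Finset.sum_comm]
    apply Finset.sum_congr rfl
    intro b _
    rw [Finset.sum_comm]
  have hint : 8 * (T : ℤ) + 16 * K ≤ 8 * G + V := by
    have h1 : ∀ a b e : Bool, (T : ℤ) + 2 * K ≤ G + ∑ i : Fin 3, ∑ o : Bool, ∑ o' : Bool,
      valZ P (s (pr i 0)) (s (pr i 1)) (s (pr i 2)) (s (pr i 3)) o o' (M01.fam f f' a b e i o o').1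
        (M01.fam f f' a b e i o o').2 := fun a b e => hg _ (M01.fam_ok s f f' hf hf' a b e)
    have h2 : ∑ a : Bool, ∑ b : Bool, ∑ e : Bool, ((T : ℤ) + 2 * K) ≤
        ∑ a : Bool, ∑ b : Bool, ∑ e : Bool, (G + ∑ i : Fin 3, ∑ o : Bool, ∑ o' : Bool,
      valZ P (s (pr i 0)) (s (pr i 1)) (s (pr i 2)) (s (pr i 3)) o o' (M01.fam f f' a b e i o o').1
        (M01.fam f f' a b e i o o').2) :=
      Finset.sum_le_sum fun a _ => Finset.sum_le_sum fun b _ => Finset.sum_le_sum fun e _ => h1 a b e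
    simp only [Finset.sum_add_distrib, Finset.sum_const, Finset.card_univ, Fintype.card_bool,
      smul_eq_mul, nsmul_eq_mul] at h2
    rw [hVe]
    push_cast at h2
    linarith
  have hTr : (0 : ℝ) < T := by exact_mod_cast hT
  have hintR : 8 * (T : ℝ) + 16 * (K : ℝ) ≤ 8 * (G : ℝ) + (V : ℝ) := by exact_mod_cast hint
  -- left-hand side
  have hL : ∑ i : Fin 4, ∑ j : Fin 4,
      (if i ≠ j then (fun p q => 12 * (KK P p q : ℝ) / T) (s i) (s j) else 0) =
      12 / T * (2 * (K : ℝ)) := by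
    have h1 := M01.sum_KK P s
    rw [← hK] at h1
    have h2 : (2 * (K : ℝ)) = ((∑ i : Fin 4, ∑ j : Fin 4,
        (if i ≠ j then (KK P (s i) (s j)) else 0) : ℤ) : ℝ) := by
      rw [h1]
      push_cast
      ring
    rw [h2]
    push_cast
    rw [Finset.mul_sum]
    apply Finset.sum_congr rfl
    intro i _
    rw [Finset.mul_sum]
    apply Finset.sum_congr rfl
    intro j _
    split_ifs
    · ring
    · simp
  have hR : ∑ σ : Equiv.Perm (Fin 4), ∑ o : Bool, ∑ o' : Bool,
      T4 (gR P T) (ΛR P T) (12 * (P.kap : ℝ) / T) (fun p q => 12 * (KK P p q : ℝ) / T) A s σ o o'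
        (f σ o o') (f' σ o o') = 96 * ((G : ℝ) / T) + 12 / T * (V : ℝ) := by
    simp only [M01.T4_eq P T h0 A s hA]
    simp only [Finset.sum_add_distrib, ← Finset.mul_sum, Finset.sum_const, Finset.card_univ,
      Fintype.card_bool, Fintype.card_perm, Fintype.card_fin, nsmul_eq_mul, smul_eq_mul]
    rw [hV, hG]
    push_cast
    rw [show (Nat.factorial 4) = 24 from rfl]
    push_cast
    ring
  rw [hL, hR]
  have h3 : 96 * ((G : ℝ) / T) + 12 / T * (V : ℝ) - (96 + 8 * (12 / T * (2 * (K : ℝ)))) =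
      12 / T * (8 * (G : ℝ) + V - (8 * T + 16 * K)) := by
    field_simp
    ring
  have h4 : 0 ≤ 12 / (T : ℝ) * (8 * (G : ℝ) + V - (8 * T + 16 * K)) :=
    mul_nonneg (by positivity) (by linarith)
  linarith

/-! ## scaling -/

theorem M01.getD_scale (D : ℕ) (l : List ℕ) (i : ℕ) : (l.map (D * ·)).getD i 0 = D * l.getD i 0 := by
  have h := List.getD_map (l := l) (d := 0) (n := i) (fun x : ℕ => D * x)
  simpa using h

theorem M01.gT_scale (P : Pot) (D t : ℕ) : gT (P.scale D) t = D * gT P t := by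
  unfold gT Pot.scale
  have h := List.getD_map (l := P.G) (d := []) (n := nL t) (fun l : List ℕ => l.map (D * ·))
  simp only [List.map_nil] at h
  simp only
  rw [h, M01.getD_scale]

theorem M01.KK_scale (P : Pot) (D : ℕ) (p q : Comp) : KK (P.scale D) p q = D * KK P p q := by
  unfold KK Pot.scale
  push_cast
  split_ifs <;> ring

theorem M01.lamZ_scale (P : Pot) (D : ℕ) (r t : Comp) (o : Bool) (c : ℕ) :
    lamZ (P.scale D) r t o c = D * lamZ P r t o c := by
  unfold lamZ Pot.scale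
  simp only [M01.getD_scale]
  push_cast
  ring

theorem M01.valZ_scale (P : Pot) (D : ℕ) (p q r t : Comp) (o o' : Bool) (f f' : Comp) :
    valZ (P.scale D) p q r t o o' f f' = D * valZ P p q r t o o' f f' := by
  unfold valZ
  simp only [M01.KK_scale, M01.lamZ_scale, ← Finset.mul_sum]
  have : (P.scale D).kap = D * P.kap := rfl
  rw [this]
  push_cast
  ring

/-- rounding: all terms of `Good (P.scale D)` are multiples of `D` -/
theorem good_scale (P : Pot) (D T : ℕ) (hD : 0 < D) (s : Fin 4 → Comp)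
    (h : Good (P.scale D) (D * T + 1) s) : Good P (T + 1) s := by
  intro F hF
  have h1 := h F hF
  simp only [M01.gT_scale, M01.KK_scale, M01.valZ_scale] at h1
  have h2 : ∑ i : Fin 4, ∑ j : Fin 4, (if i < j then (D : ℤ) * KK P (s i) (s j) else 0) =
      D * ∑ i : Fin 4, ∑ j : Fin 4, (if i < j then KK P (s i) (s j) else 0) := by
    simp only [Finset.mul_sum, mul_ite, mul_zero]
  rw [h2] at h1
  push_cast at h1
  simp only [← Finset.mul_sum] at h1
  push_cast
  set K : ℤ := ∑ i : Fin 4, ∑ j : Fin 4, (if i < j then KK P (s i) (s j) else 0) with hK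
  set G : ℤ := ∑ c ∈ U s, (gT P (typ s c) : ℤ) with hG
  set V : ℤ := ∑ i : Fin 3, ∑ o : Bool, ∑ o' : Bool,
        valZ P (s (pr i 0)) (s (pr i 1)) (s (pr i 2)) (s (pr i 3)) o o' (F i o o').1 (F i o o').2
    with hV
  have hD' : (0 : ℤ) < D := by exact_mod_cast hD
  have h3 : (D : ℤ) * (T + 2 * K) < D * (G + V) := by linarith
  have h4 := lt_of_mul_lt_mul_left h3 hD'.le
  linarith

end Pool.Agent.Helper22.QC
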