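import Pool.Agent.Helper22.QC.Sem

/-! # Symmetries -/

namespace Pool.Agent.Helper22.QC

open Finset
open Pool.Agent.Helper2.OC

namespace M02

private theorem flipC_flipC (a : Bool) (p : Comp) : flipC a (flipC a p) = p := by
  funext σ; simp [flipC]

private theorem mrg_flip (a b : Bool) (p q : Comp) (o : Bool) :
    mrg (flipC a p) (flipC b q) o = flipC a (mrg p q (xor (xor a o) b)) := by
  funext σ
  cases a <;> cases b <;> cases o <;> cases σ <;> rfl

private theorem mrg_comm (p q : Comp) (o : Bool) : mrg q p o = flipC o (mrg p q o) := by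
  funext σ
  cases o <;> cases σ <;> simp [mrg, flipC, Finset.union_comm]

private theorem fix_flip (a : Bool) {m f : Comp} (h : Fix1 m f) : Fix1 (flipC a m) (flipC a f) := by
  obtain ⟨χ, h1, h2⟩ := h
  refine ⟨fun σ => χ (xor σ a), fun σ => h1 _, fun σ => ?_⟩
  have := h2 (xor σ a)
  cases a <;> cases σ <;> simpa [flipC] using this

private theorem nw_flip (a : Bool) (m f : Comp) : nw (flipC a m) (flipC a f) = nw m f := by
  cases a <;> simp [nw, flipC, Finset.union_comm]

private theorem slot_flip (a b : Bool) (p q : Comp) (σ ρ : Bool) :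
    slot (flipC a p) (flipC b q) σ ρ = slot p q (xor σ a) (xor ρ b) := by
  cases a <;> cases b <;> cases σ <;> cases ρ <;> rfl

private theorem slot_comm (p q : Comp) (σ ρ : Bool) : slot q p ρ σ = slot p q σ ρ := by
  simp [slot, Finset.union_comm]

private theorem emp_flip (a b : Bool) (p q : Comp) : emp (flipC a p) (flipC b q) = emp p q := by
  simp only [emp, slot_flip, Fintype.sum_bool]
  cases a <;> cases b <;> simp <;> omega

private theorem emp_comm (p q : Comp) : emp q p = emp p q := by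
  simp only [emp, slot_comm p q, Fintype.sum_bool]
  omega

private theorem mini_flip (a : Bool) (p : Comp) : Mini (flipC a p) ↔ Mini p := by
  cases a <;> simp [Mini, flipC, and_comm]

theorem KK_flip (P : Pot) (a b : Bool) (p q : Comp) : KK P (flipC a p) (flipC b q) = KK P p q := by
  simp only [KK, emp_flip, mini_flip]

theorem KK_comm (P : Pot) (p q : Comp) : KK P q p = KK P p q := by
  simp only [KK, emp_comm p q, and_comm]

theorem cod_flip (a : Bool) (p : Comp) (c : ℕ) : cod (flipC a p) c = swo a (cod p c) := by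
  cases a
  · simp [cod, flipC, swo]
  · simp only [cod, flipC, swo, swc]
    by_cases h : c ∈ p false <;> by_cases h' : c ∈ p true <;> simp [h, h']

theorem cod_lt (p : Comp) (c : ℕ) : cod p c < 4 := by
  simp only [cod]
  split_ifs <;> omega

private theorem swo_lt (a : Bool) {x : ℕ} (h : x < 4) : swo a x < 4 := by
  cases a
  · simpa [swo] using h
  · simp only [swo, swc, if_true]; omega

private theorem lam_sw (a : Bool) {x y : ℕ} (hx : x < 4) (hy : y < 4) :
    lamCls (swo a x) (swo a y) = lamCls x y := by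
  cases a <;> interval_cases x <;> interval_cases y <;> rfl

private theorem lam_comm {x y : ℕ} (hx : x < 4) (hy : y < 4) : lamCls y x = lamCls x y := by
  interval_cases x <;> interval_cases y <;> rfl

private theorem swo_swo (a b : Bool) {x : ℕ} (h : x < 4) : swo a (swo b x) = swo (xor a b) x := by
  cases a <;> cases b <;> interval_cases x <;> rfl

private theorem lamZ_flip (P : Pot) (a b : Bool) (r t : Comp) (o : Bool) (c : ℕ) :
    lamZ P (flipC a r) (flipC b t) o c = lamZ P r t (xor (xor a o) b) c := by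
  have h : lamCls (cod (flipC a r) c) (swo o (cod (flipC b t) c)) =
      lamCls (cod r c) (swo (xor (xor a o) b) (cod t c)) := by
    rw [cod_flip, cod_flip, ← lam_sw a (cod_lt r c) (swo_lt _ (cod_lt t c)),
      swo_swo _ _ (cod_lt t c), swo_swo _ _ (cod_lt t c)]
    congr 2
    cases a <;> cases b <;> cases o <;> rfl
  simp only [lamZ, h]

private theorem lamZ_comm (P : Pot) (r t : Comp) (o : Bool) (c : ℕ) :
    lamZ P t r o c = lamZ P r t o c := by
  have h : lamCls (cod t c) (swo o (cod r c)) = lamCls (cod r c) (swo o (cod t c)) := by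
    rw [← lam_sw o (cod_lt t c) (swo_lt _ (cod_lt r c)), swo_swo _ _ (cod_lt r c)]
    rw [lam_comm (swo_lt _ (cod_lt r c)) (swo_lt _ (cod_lt t c))]
    cases o <;> simp [swo]
  simp only [lamZ, h]

/-- the value `x` can be achieved by admissible fixes -/
def Ach (P : Pot) (p q r t : Comp) (x : ℤ) : Prop :=
  ∃ F : Bool → Bool → Comp × Comp,
    (∀ o o', Fix1 (mrg p q o) (F o o').1 ∧ Fix1 (mrg r t o') (F o o').2) ∧
    ∑ o : Bool, ∑ o' : Bool, valZ P p q r t o o' (F o o').1 (F o o').2 = x

theorem Ach.swp {P : Pot} {p q r t : Comp} {x : ℤ} (h : Ach P p q r t x) : Ach P r t p q x := by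
  obtain ⟨F, h1, h2⟩ := h
  refine ⟨fun o o' => ((F o' o).2, (F o' o).1), fun o o' => ⟨(h1 o' o).2, (h1 o' o).1⟩, ?_⟩
  rw [← h2, Finset.sum_comm]
  refine Finset.sum_congr rfl fun o _ => Finset.sum_congr rfl fun o' _ => ?_
  simp only [valZ]
  rw [KK_comm, Finset.inter_comm]
  ring

theorem Ach.sw1 {P : Pot} {p q r t : Comp} {x : ℤ} (h : Ach P p q r t x) : Ach P q p r t x := by
  obtain ⟨F, h1, h2⟩ := h
  refine ⟨fun o o' => (flipC o (F o o').1, (F o o').2), fun o o' => ⟨?_, (h1 o o').2⟩, ?_⟩
  · rw [mrg_comm]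
    exact fix_flip _ (h1 o o').1
  · rw [← h2]
    refine Finset.sum_congr rfl fun o _ => Finset.sum_congr rfl fun o' _ => ?_
    simp only [valZ]
    rw [mrg_comm p q, nw_flip]
    have hk := KK_flip P o false (F o o').1 (F o o').2
    have hk' : flipC false (F o o').2 = (F o o').2 := by funext σ; simp [flipC]
    rw [hk'] at hk
    rw [hk]
    simp only [lamZ_comm P p q]

theorem Ach.fl1 {P : Pot} {p q r t : Comp} {x : ℤ} (a b : Bool) (h : Ach P p q r t x) :
    Ach P (flipC a p) (flipC b q) r t x := by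
  obtain ⟨F, h1, h2⟩ := h
  refine ⟨fun o o' => (flipC a (F (xor (xor a o) b) o').1, (F (xor (xor a o) b) o').2),
    fun o o' => ⟨?_, (h1 _ o').2⟩, ?_⟩
  · rw [mrg_flip]
    exact fix_flip _ (h1 _ o').1
  · have key : ∀ o o', valZ P (flipC a p) (flipC b q) r t o o' (flipC a (F (xor (xor a o) b) o').1)
        (F (xor (xor a o) b) o').2 = valZ P p q r t (xor (xor a o) b) o'
          (F (xor (xor a o) b) o').1 (F (xor (xor a o) b) o').2 := by
      intro o o'
      simp only [valZ]
      rw [mrg_flip, nw_flip]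
      have hk := KK_flip P a false (F (xor (xor a o) b) o').1 (F (xor (xor a o) b) o').2
      have hk' : flipC false (F (xor (xor a o) b) o').2 = (F (xor (xor a o) b) o').2 := by
        funext σ; simp [flipC]
      rw [hk'] at hk
      rw [hk]
      simp only [lamZ_flip P a b p q]
    simp only [key]
    rw [← h2]
    simp only [Fintype.sum_bool]
    cases a <;> cases b <;> simp <;> ring

theorem Ach.fl {P : Pot} {p q r t : Comp} {x : ℤ} (a b c d : Bool) (h : Ach P p q r t x) :
    Ach P (flipC a p) (flipC b q) (flipC c r) (flipC d t) x :=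
  ((h.fl1 a b).swp.fl1 c d).swp

/-- the eight symmetries of a pairing -/
def Mt (π : Equiv.Perm (Fin 4)) (i i' : Fin 3) (w u v : Bool) : Prop :=
  (π (pr i 0), π (pr i 1), π (pr i 2), π (pr i 3)) =
    if w then (if v then pr i' 3 else pr i' 2, if v then pr i' 2 else pr i' 3,
      if u then pr i' 1 else pr i' 0, if u then pr i' 0 else pr i' 1)
    else (if u then pr i' 1 else pr i' 0, if u then pr i' 0 else pr i' 1,
      if v then pr i' 3 else pr i' 2, if v then pr i' 2 else pr i' 3)

instance (π : Equiv.Perm (Fin 4)) (i i' : Fin 3) (w u v : Bool) : Decidable (Mt π i i' w u v) := by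
  unfold Mt; infer_instance

set_option maxRecDepth 100000 in
theorem exists_mt : ∀ π : Equiv.Perm (Fin 4), ∃ ρ : Equiv.Perm (Fin 3), ∀ i, ∃ w u v,
    Mt π i (ρ i) w u v := by
  decide +kernel

theorem Ach.mt {P : Pot} {s : Fin 4 → Comp} {x : ℤ} {π : Equiv.Perm (Fin 4)} {i i' : Fin 3}
    {w u v : Bool} (hm : Mt π i i' w u v)
    (h : Ach P (s (pr i' 0)) (s (pr i' 1)) (s (pr i' 2)) (s (pr i' 3)) x) :
    Ach P (s (π (pr i 0))) (s (π (pr i 1))) (s (π (pr i 2))) (s (π (pr i 3))) x := by
  unfold Mt at hm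
  cases w <;> cases u <;> cases v <;>
    simp only [if_true, if_false, Bool.false_eq_true, Prod.mk.injEq] at hm <;>
    obtain ⟨e0, e1, e2, e3⟩ := hm <;> rw [e0, e1, e2, e3]
  · exact h
  · exact h.swp.sw1.swp
  · exact h.sw1
  · exact h.sw1.swp.sw1.swp
  · exact h.swp
  · exact h.swp.sw1
  · exact h.sw1.swp
  · exact h.sw1.swp.sw1

/-! ## the sum over the used colours -/

theorem U_act (π : Equiv.Perm (Fin 4)) (ε : Fin 4 → Bool) (s : Fin 4 → Comp) :
    U (act π ε s) = U s := by
  ext c
  simp only [U, act, flipC, Finset.mem_biUnion, Finset.mem_univ, true_and, Finset.mem_union]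
  constructor
  · rintro ⟨i, h⟩
    refine ⟨π i, ?_⟩
    cases hε : ε i <;> rw [hε] at h
    · simpa using h
    · simpa using h.symm
  · rintro ⟨i, h⟩
    refine ⟨π.symm i, ?_⟩
    rw [Equiv.apply_symm_apply]
    cases hε : ε (π.symm i)
    · simpa using h
    · simpa using h.symm

theorem dig_typ (s : Fin 4 → Comp) (c : ℕ) (i : Fin 4) : dig (typ s c) i = cod (s i) c := by
  have h0 := cod_lt (s 0) c
  have h1 := cod_lt (s 1) c
  have h2 := cod_lt (s 2) c
  have h3 := cod_lt (s 3) c
  fin_cases i <;> simp [dig, typ] <;> omega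

theorem nL_typ (s : Fin 4 → Comp) (c : ℕ) :
    nL (typ s c) = ∑ i : Fin 4, if cod (s i) c = 1 ∨ cod (s i) c = 2 then 1 else 0 := by
  have h0 := dig_typ s c 0
  have h1 := dig_typ s c 1
  have h2 := dig_typ s c 2
  have h3 := dig_typ s c 3
  have h0' : dig (typ s c) 0 = cod (s 0) c := h0
  have h1' : dig (typ s c) 1 = cod (s 1) c := h1
  have h2' : dig (typ s c) 2 = cod (s 2) c := h2
  have h3' : dig (typ s c) 3 = cod (s 3) c := h3
  simp only [nL, List.range_succ, List.range_zero, List.nil_append, List.map_append, List.map_cons,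
    List.map_nil, List.sum_append, List.sum_cons, List.sum_nil, Fin.sum_univ_four, h0', h1', h2',
    h3']
  ring

theorem nD_typ (s : Fin 4 → Comp) (c : ℕ) :
    nD (typ s c) = ∑ i : Fin 4, if cod (s i) c = 3 then 1 else 0 := by
  have h0 := dig_typ s c 0
  have h1 := dig_typ s c 1
  have h2 := dig_typ s c 2
  have h3 := dig_typ s c 3
  have h0' : dig (typ s c) 0 = cod (s 0) c := h0
  have h1' : dig (typ s c) 1 = cod (s 1) c := h1
  have h2' : dig (typ s c) 2 = cod (s 2) c := h2
  have h3' : dig (typ s c) 3 = cod (s 3) c := h3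
  simp only [nD, List.range_succ, List.range_zero, List.nil_append, List.map_append, List.map_cons,
    List.map_nil, List.sum_append, List.sum_cons, List.sum_nil, Fin.sum_univ_four, h0', h1', h2',
    h3']
  ring

theorem gT_act (P : Pot) (π : Equiv.Perm (Fin 4)) (ε : Fin 4 → Bool) (s : Fin 4 → Comp) (c : ℕ) :
    gT P (typ (act π ε s) c) = gT P (typ s c) := by
  have hL : nL (typ (act π ε s) c) = nL (typ s c) := by
    rw [nL_typ, nL_typ, ← Equiv.sum_comp π fun i => if cod (s i) c = 1 ∨ cod (s i) c = 2 then 1 else 0]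
    refine Finset.sum_congr rfl fun i _ => ?_
    have h := cod_lt (s (π i)) c
    simp only [act, cod_flip]
    generalize cod (s (π i)) c = x at h
    cases ε i <;> interval_cases x <;> rfl
  have hD : nD (typ (act π ε s) c) = nD (typ s c) := by
    rw [nD_typ, nD_typ, ← Equiv.sum_comp π fun i => if cod (s i) c = 3 then 1 else 0]
    refine Finset.sum_congr rfl fun i _ => ?_
    have h := cod_lt (s (π i)) c
    simp only [act, cod_flip]
    generalize cod (s (π i)) c = x at h
    cases ε i <;> interval_cases x <;> rfl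
  simp only [gT, hL, hD]

private theorem sum_lt (k : Fin 4 → Fin 4 → ℤ) (hk : ∀ i j, k i j = k j i) :
    2 * ∑ i : Fin 4, ∑ j : Fin 4, (if i < j then k i j else 0) =
      ∑ i : Fin 4, ∑ j : Fin 4, (if i ≠ j then k i j else 0) := by
  simp only [Fin.sum_univ_four]
  have e10 := hk 1 0
  have e20 := hk 2 0
  have e30 := hk 3 0
  have e21 := hk 2 1
  have e31 := hk 3 1
  have e32 := hk 3 2
  simp [e10, e20, e30, e21, e31, e32]
  ring

theorem KK_act (P : Pot) (π : Equiv.Perm (Fin 4)) (ε : Fin 4 → Bool) (s : Fin 4 → Comp) :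
    2 * ∑ i : Fin 4, ∑ j : Fin 4, (if i < j then KK P (act π ε s i) (act π ε s j) else 0) =
      2 * ∑ i : Fin 4, ∑ j : Fin 4, (if i < j then KK P (s i) (s j) else 0) := by
  rw [sum_lt (fun i j => KK P (act π ε s i) (act π ε s j)) fun i j => KK_comm P _ _,
    sum_lt (fun i j => KK P (s i) (s j)) fun i j => KK_comm P _ _]
  rw [← Equiv.sum_comp π (fun i => ∑ j : Fin 4, (if i ≠ j then KK P (s i) (s j) else 0))]
  refine Finset.sum_congr rfl fun i _ => ?_
  rw [← Equiv.sum_comp π (fun j => if π i ≠ j then KK P (s (π i)) (s j) else 0)]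
  refine Finset.sum_congr rfl fun j _ => ?_
  simp only [act, KK_flip, ne_eq, EmbeddingLike.apply_eq_iff_eq]

end M02

open M02 in
theorem good_act (P : Pot) (T : ℕ) (π : Equiv.Perm (Fin 4)) (ε : Fin 4 → Bool)
    (s : Fin 4 → Comp) (h : Good P T (act π ε s)) : Good P T s := by
  intro F hF
  obtain ⟨ρ, hρ⟩ := exists_mt π
  have hA : ∀ i : Fin 3, Ach P (act π ε s (pr i 0)) (act π ε s (pr i 1)) (act π ε s (pr i 2))
      (act π ε s (pr i 3)) (∑ o : Bool, ∑ o' : Bool, valZ P (s (pr (ρ i) 0)) (s (pr (ρ i) 1))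
        (s (pr (ρ i) 2)) (s (pr (ρ i) 3)) o o' (F (ρ i) o o').1 (F (ρ i) o o').2) := by
    intro i
    obtain ⟨w, u, v, hm⟩ := hρ i
    have h0 : Ach P (s (pr (ρ i) 0)) (s (pr (ρ i) 1)) (s (pr (ρ i) 2)) (s (pr (ρ i) 3))
        (∑ o : Bool, ∑ o' : Bool, valZ P (s (pr (ρ i) 0)) (s (pr (ρ i) 1))
        (s (pr (ρ i) 2)) (s (pr (ρ i) 3)) o o' (F (ρ i) o o').1 (F (ρ i) o o').2) :=
      ⟨F (ρ i), fun o o' => hF (ρ i) o o', rfl⟩
    exact (h0.mt hm).fl _ _ _ _
  choose F' h1 h2 using hA
  have h3 := h F' fun i o o' => h1 i o o'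
  simp only [h2] at h3
  rw [Equiv.sum_comp ρ (fun i => ∑ o : Bool, ∑ o' : Bool, valZ P (s (pr i 0)) (s (pr i 1))
        (s (pr i 2)) (s (pr i 3)) o o' (F i o o').1 (F i o o').2), KK_act, U_act] at h3
  simp only [gT_act] at h3
  exact h3

end Pool.Agent.Helper22.QC
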