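import Pool.Agent.Helper22.QC.Sem

/-! # The term inequality -/

namespace Pool.Agent.Helper22.QC

open Finset
open Pool.Agent.Helper2.OC

theorem M04.fixf {m f : Comp} (hf : Fix1 m f) (d : ℕ) :
    (d ∉ newc m f false ∧ d ∉ newc m f true ∧ (d ∈ f false ↔ d ∈ m false) ∧
      (d ∈ f true ↔ d ∈ m true) ∧ d ∉ nw m f) ∨
    (d ∈ newc m f false ∧ d ∉ newc m f true ∧ d ∈ f false ∧ d ∉ f true ∧ d ∉ m false ∧
      d ∉ m true ∧ d ∈ nw m f) ∨
    (d ∉ newc m f false ∧ d ∈ newc m f true ∧ d ∉ f false ∧ d ∈ f true ∧ d ∉ m false ∧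
      d ∉ m true ∧ d ∈ nw m f) := by
  obtain ⟨χ, h1, h2⟩ := hf
  have a0 : d ∈ f false ↔ d = χ false ∨ d ∈ m false := by rw [h1 false, mem_insert]
  have a1 : d ∈ f true ↔ d = χ true ∨ d ∈ m true := by rw [h1 true, mem_insert]
  have b0 : d = χ false → d ∉ f true := by
    rintro rfl
    exact h2 false
  have b1 : d = χ true → d ∉ f false := by
    rintro rfl
    exact h2 true
  simp only [newc, nw, mem_sdiff, mem_union]
  by_cases e0 : d = χ false <;> by_cases e1 : d = χ true <;> by_cases m0 : d ∈ m false <;>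
    by_cases m1 : d ∈ m true <;> simp_all

theorem M04.xn_card {m f : Comp} (hf : Fix1 m f) (σ : Bool) :
    xn m f σ = ((newc m f σ).card : ℤ) := by
  obtain ⟨χ, h1, -⟩ := hf
  have h : newc m f σ ⊆ {χ σ} := by
    intro d hd
    rw [newc, mem_sdiff, h1 σ, mem_insert] at hd
    rw [mem_singleton]
    rcases hd.1 with h | h
    · exact h
    · exact absurd h hd.2
  rcases Finset.subset_singleton_iff.1 h with h | h
  · rw [xn, h]
    simp
  · rw [xn, h]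
    simp

theorem M04.mem_slot (p q : Comp) (σ ρ : Bool) (d : ℕ) :
    d ∈ slot p q σ ρ ↔ (d ∈ p σ ∨ d ∈ q ρ) ∧ ¬ (d ∈ p (!σ) ∨ d ∈ q (!ρ)) := by
  rw [slot, mem_sdiff, mem_union, mem_union]

theorem M04.mx_ge (a b : ℕ) : a ≤ mx a b ∧ b ≤ mx a b := by
  unfold mx
  cases h : Nat.ble a b
  · simp only [cond_false]
    have : ¬ a ≤ b := by
      intro h'
      rw [Nat.ble_eq_true_of_le h'] at h
      exact Bool.noConfusion h
    omega
  · have := Nat.le_of_ble_eq_true h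
    simp only [cond_true]
    omega

theorem M04.wOne_ge (cov c0 c1 p0 m0 p1 m1 lp lm : ℕ) (b0 b1 : Bool) :
    ((cov : ℤ) ≤ wOne cov c0 c1 p0 m0 p1 m1 lp lm b0 b1) ∧
    (b0 = true → (c0 : ℤ) + p0 + lm - (m0 + lp) ≤ wOne cov c0 c1 p0 m0 p1 m1 lp lm b0 b1) ∧
    (b1 = true → (c1 : ℤ) + p1 + lm - (m1 + lp) ≤ wOne cov c0 c1 p0 m0 p1 m1 lp lm b0 b1) := by
  unfold wOne
  refine ⟨?_, ?_, ?_⟩
  · exact_mod_cast (M04.mx_ge _ _).1
  · rintro rfl
    have h1 := (M04.mx_ge cov (mx (bif true then c0 + p0 + lm - (m0 + lp) else 0)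
      (bif b1 then c1 + p1 + lm - (m1 + lp) else 0))).2
    have h2 := (M04.mx_ge (bif true then c0 + p0 + lm - (m0 + lp) else 0)
      (bif b1 then c1 + p1 + lm - (m1 + lp) else 0)).1
    simp only [cond_true] at h1 h2 ⊢
    omega
  · rintro rfl
    have h1 := (M04.mx_ge cov (mx (bif b0 then c0 + p0 + lm - (m0 + lp) else 0)
      (bif true then c1 + p1 + lm - (m1 + lp) else 0))).2
    have h2 := (M04.mx_ge (bif b0 then c0 + p0 + lm - (m0 + lp) else 0)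
      (bif true then c1 + p1 + lm - (m1 + lp) else 0)).2
    simp only [cond_true] at h1 h2 ⊢
    omega

theorem M04.kfacts (p q : Comp) (o : Bool) (d : ℕ) :
    (kindOf (cod p d) (swo o (cod q d)) = 1 ∧ d ∉ mrg p q o false ∧ d ∉ mrg p q o true ∧
      lamCls (cod p d) (swo o (cod q d)) = 0) ∨
    (kindOf (cod p d) (swo o (cod q d)) = 4 ∧ d ∈ mrg p q o false ∧ d ∉ mrg p q o true ∧
      lamCls (cod p d) (swo o (cod q d)) = 1) ∨
    (kindOf (cod p d) (swo o (cod q d)) = 5 ∧ d ∈ mrg p q o false ∧ d ∉ mrg p q o true ∧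
      lamCls (cod p d) (swo o (cod q d)) = 3) ∨
    (kindOf (cod p d) (swo o (cod q d)) = 6 ∧ d ∉ mrg p q o false ∧ d ∈ mrg p q o true ∧
      lamCls (cod p d) (swo o (cod q d)) = 1) ∨
    (kindOf (cod p d) (swo o (cod q d)) = 7 ∧ d ∉ mrg p q o false ∧ d ∈ mrg p q o true ∧
      lamCls (cod p d) (swo o (cod q d)) = 3) ∨
    (kindOf (cod p d) (swo o (cod q d)) = 8 ∧ d ∈ mrg p q o false ∧ d ∈ mrg p q o true ∧
      lamCls (cod p d) (swo o (cod q d)) = 4) ∨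
    (kindOf (cod p d) (swo o (cod q d)) = 9 ∧ d ∈ mrg p q o false ∧ d ∈ mrg p q o true ∧
      lamCls (cod p d) (swo o (cod q d)) = 2) ∨
    (kindOf (cod p d) (swo o (cod q d)) = 10 ∧ d ∈ mrg p q o false ∧ d ∈ mrg p q o true ∧
      lamCls (cod p d) (swo o (cod q d)) = 5) ∨
    (kindOf (cod p d) (swo o (cod q d)) = 11 ∧ d ∈ mrg p q o false ∧ d ∈ mrg p q o true ∧
      lamCls (cod p d) (swo o (cod q d)) = 6) := by
  cases o <;> by_cases h1 : d ∈ p false <;> by_cases h2 : d ∈ p true <;>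
    by_cases h3 : d ∈ q false <;> by_cases h4 : d ∈ q true <;>
    simp [cod, swo, swc, kindOf, lamCls, mrg, h1, h2, h3, h4]


/-- the possible states of a colour -/
def M04.St (n0 n1 f0 f1 w : Prop) (k l : ℕ) : Prop :=
    (¬ n0 ∧ ¬ n1 ∧ ¬ f0 ∧ ¬ f1 ∧ ¬ w ∧ k = 1 ∧ l = 0) ∨
    (n0 ∧ ¬ n1 ∧ f0 ∧ ¬ f1 ∧ w ∧ k = 1 ∧ l = 0) ∨
    (¬ n0 ∧ n1 ∧ ¬ f0 ∧ f1 ∧ w ∧ k = 1 ∧ l = 0) ∨
    (¬ n0 ∧ ¬ n1 ∧ f0 ∧ ¬ f1 ∧ ¬ w ∧ k = 4 ∧ l = 1) ∨
    (¬ n0 ∧ ¬ n1 ∧ f0 ∧ ¬ f1 ∧ ¬ w ∧ k = 5 ∧ l = 3) ∨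
    (¬ n0 ∧ ¬ n1 ∧ ¬ f0 ∧ f1 ∧ ¬ w ∧ k = 6 ∧ l = 1) ∨
    (¬ n0 ∧ ¬ n1 ∧ ¬ f0 ∧ f1 ∧ ¬ w ∧ k = 7 ∧ l = 3) ∨
    (¬ n0 ∧ ¬ n1 ∧ f0 ∧ f1 ∧ ¬ w ∧ k = 8 ∧ l = 4) ∨
    (¬ n0 ∧ ¬ n1 ∧ f0 ∧ f1 ∧ ¬ w ∧ k = 9 ∧ l = 2) ∨
    (¬ n0 ∧ ¬ n1 ∧ f0 ∧ f1 ∧ ¬ w ∧ k = 10 ∧ l = 5) ∨
    (¬ n0 ∧ ¬ n1 ∧ f0 ∧ f1 ∧ ¬ w ∧ k = 11 ∧ l = 6)

theorem M04.st (p q : Comp) (o : Bool) (f : Comp) (hf : Fix1 (mrg p q o) f) (d : ℕ) :
    M04.St (d ∈ newc (mrg p q o) f false) (d ∈ newc (mrg p q o) f true) (d ∈ f false)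
      (d ∈ f true) (d ∈ nw (mrg p q o) f) (kindOf (cod p d) (swo o (cod q d)))
      (lamCls (cod p d) (swo o (cod q d))) := by
  unfold M04.St
  have F := M04.fixf hf d
  have K := M04.kfacts p q o d
  rcases K with ⟨a, b, c, e⟩ | ⟨a, b, c, e⟩ | ⟨a, b, c, e⟩ | ⟨a, b, c, e⟩ | ⟨a, b, c, e⟩ |
    ⟨a, b, c, e⟩ | ⟨a, b, c, e⟩ | ⟨a, b, c, e⟩ | ⟨a, b, c, e⟩ <;>
  rcases F with ⟨h1, h2, h3, h4, h5⟩ | ⟨h1, h2, h3, h4, h5, h6, h7⟩ |
    ⟨h1, h2, h3, h4, h5, h6, h7⟩ <;>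
  simp_all

theorem M04.w0 (P : Pot) (A : Msk) (c : TC) : (wts P A c).getD 0 0 = c.l00 := rfl

theorem M04.w1 (P : Pot) (A : Msk) (c : TC) : (wts P A c).getD 1 0 = c.l01 := rfl

theorem M04.w2 (P : Pot) (A : Msk) (c : TC) : (wts P A c).getD 2 0 = c.l10 := rfl

theorem M04.w3 (P : Pot) (A : Msk) (c : TC) : (wts P A c).getD 3 0 = c.l11 := rfl

theorem M04.w20 (P : Pot) (A : Msk) (c : TC) : (wts P A c).getD 20 0 = 0 := rfl

theorem M04.w4 (P : Pot) (A : Msk) (c : TC) : (wts P A c).getD 4 0 =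
    wOne (c.l00 + c.l10) c.l00 c.l10 c.p0 c.m0 c.p1 c.m1 (P.lp.getD 1 0) (P.lm.getD 1 0) (A.a0.testBit 4)
      (A.a1.testBit 4) := rfl

theorem M04.w5 (P : Pot) (A : Msk) (c : TC) : (wts P A c).getD 5 0 =
    wOne (c.l00 + c.l10) c.l00 c.l10 c.p0 c.m0 c.p1 c.m1 (P.lp.getD 3 0) (P.lm.getD 3 0) (A.a0.testBit 5)
      (A.a1.testBit 5) := rfl

theorem M04.w6 (P : Pot) (A : Msk) (c : TC) : (wts P A c).getD 6 0 =
    wOne (c.l01 + c.l11) c.l01 c.l11 c.p0 c.m0 c.p1 c.m1 (P.lp.getD 1 0) (P.lm.getD 1 0) (A.a0.testBit 6)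
      (A.a1.testBit 6) := rfl

theorem M04.w7 (P : Pot) (A : Msk) (c : TC) : (wts P A c).getD 7 0 =
    wOne (c.l01 + c.l11) c.l01 c.l11 c.p0 c.m0 c.p1 c.m1 (P.lp.getD 3 0) (P.lm.getD 3 0) (A.a0.testBit 7)
      (A.a1.testBit 7) := rfl

theorem M04.w8 (P : Pot) (A : Msk) (c : TC) : (wts P A c).getD 8 0 =
    wOne (0) 0 0 c.p0 c.m0 c.p1 c.m1 (P.lp.getD 4 0) (P.lm.getD 4 0) (A.a0.testBit 8)
      (A.a1.testBit 8) := rfl

theorem M04.w9 (P : Pot) (A : Msk) (c : TC) : (wts P A c).getD 9 0 =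
    wOne (0) 0 0 c.p0 c.m0 c.p1 c.m1 (P.lp.getD 2 0) (P.lm.getD 2 0) (A.a0.testBit 9)
      (A.a1.testBit 9) := rfl

theorem M04.w10 (P : Pot) (A : Msk) (c : TC) : (wts P A c).getD 10 0 =
    wOne (0) 0 0 c.p0 c.m0 c.p1 c.m1 (P.lp.getD 5 0) (P.lm.getD 5 0) (A.a0.testBit 10)
      (A.a1.testBit 10) := rfl

theorem M04.w11 (P : Pot) (A : Msk) (c : TC) : (wts P A c).getD 11 0 =
    wOne (0) 0 0 c.p0 c.m0 c.p1 c.m1 (P.lp.getD 6 0) (P.lm.getD 6 0) (A.a0.testBit 11)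
      (A.a1.testBit 11) := rfl

theorem M04.w12 (P : Pot) (A : Msk) (c : TC) : (wts P A c).getD 12 0 =
    wOne (c.l00 + c.l01) c.l00 c.l01 c.p2 c.m2 c.p3 c.m3 (P.lp.getD 1 0) (P.lm.getD 1 0) (A.a2.testBit 4)
      (A.a3.testBit 4) := rfl

theorem M04.w13 (P : Pot) (A : Msk) (c : TC) : (wts P A c).getD 13 0 =
    wOne (c.l00 + c.l01) c.l00 c.l01 c.p2 c.m2 c.p3 c.m3 (P.lp.getD 3 0) (P.lm.getD 3 0) (A.a2.testBit 5)
      (A.a3.testBit 5) := rfl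

theorem M04.w14 (P : Pot) (A : Msk) (c : TC) : (wts P A c).getD 14 0 =
    wOne (c.l10 + c.l11) c.l10 c.l11 c.p2 c.m2 c.p3 c.m3 (P.lp.getD 1 0) (P.lm.getD 1 0) (A.a2.testBit 6)
      (A.a3.testBit 6) := rfl

theorem M04.w15 (P : Pot) (A : Msk) (c : TC) : (wts P A c).getD 15 0 =
    wOne (c.l10 + c.l11) c.l10 c.l11 c.p2 c.m2 c.p3 c.m3 (P.lp.getD 3 0) (P.lm.getD 3 0) (A.a2.testBit 7)
      (A.a3.testBit 7) := rfl

theorem M04.w16 (P : Pot) (A : Msk) (c : TC) : (wts P A c).getD 16 0 =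
    wOne (0) 0 0 c.p2 c.m2 c.p3 c.m3 (P.lp.getD 4 0) (P.lm.getD 4 0) (A.a2.testBit 8)
      (A.a3.testBit 8) := rfl

theorem M04.w17 (P : Pot) (A : Msk) (c : TC) : (wts P A c).getD 17 0 =
    wOne (0) 0 0 c.p2 c.m2 c.p3 c.m3 (P.lp.getD 2 0) (P.lm.getD 2 0) (A.a2.testBit 9)
      (A.a3.testBit 9) := rfl

theorem M04.w18 (P : Pot) (A : Msk) (c : TC) : (wts P A c).getD 18 0 =
    wOne (0) 0 0 c.p2 c.m2 c.p3 c.m3 (P.lp.getD 5 0) (P.lm.getD 5 0) (A.a2.testBit 10)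
      (A.a3.testBit 10) := rfl

theorem M04.w19 (P : Pot) (A : Msk) (c : TC) : (wts P A c).getD 19 0 =
    wOne (0) 0 0 c.p2 c.m2 c.p3 c.m3 (P.lp.getD 6 0) (P.lm.getD 6 0) (A.a2.testBit 11)
      (A.a3.testBit 11) := rfl

/-- contribution of the colour `d` -/
def M04.T (P : Pot) (c : TC) (p q r t : Comp) (o o' : Bool) (f f' : Comp) (d : ℕ) : ℤ :=
  (c.l00 : ℤ) * (if d ∈ slot f f' false false then 1 else 0) +
  (c.l01 : ℤ) * (if d ∈ slot f f' false true then 1 else 0) +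
  (c.l10 : ℤ) * (if d ∈ slot f f' true false then 1 else 0) +
  (c.l11 : ℤ) * (if d ∈ slot f f' true true then 1 else 0) -
  (if d ∈ nw (mrg p q o) f then lamZ P r t o' d else 0) -
  (if d ∈ nw (mrg r t o') f' then lamZ P p q o d else 0) +
  (P.kap : ℤ) * (if d ∈ nw (mrg p q o) f ∩ nw (mrg r t o') f' then 1 else 0) +
  ((c.p0 : ℤ) - c.m0) * (if d ∈ newc (mrg p q o) f false then 1 else 0) +
  ((c.p1 : ℤ) - c.m1) * (if d ∈ newc (mrg p q o) f true then 1 else 0) +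
  ((c.p2 : ℤ) - c.m2) * (if d ∈ newc (mrg r t o') f' false then 1 else 0) +
  ((c.p3 : ℤ) - c.m3) * (if d ∈ newc (mrg r t o') f' true then 1 else 0)

theorem M04.tok (P : Pot) (nb : Bool) (A : Msk) (c : TC) (hok : tOK P nb A c = true) :
    ((c.l00 - (bif nb then P.KE else P.KE - P.KB)) + (c.l01 - (bif nb then P.KE else P.KE - P.KB)) +
      (c.l10 - (bif nb then P.KE else P.KE - P.KB)) +
      (c.l11 - (bif nb then P.KE else P.KE - P.KB)) ≤ P.K1) ∧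
    (A.a0.testBit 1 = true → c.l00 + c.l01 + c.p0 + P.lm.getD 0 0 ≤ P.lp.getD 0 0 + c.m0) ∧
    (A.a1.testBit 1 = true → c.l10 + c.l11 + c.p1 + P.lm.getD 0 0 ≤ P.lp.getD 0 0 + c.m1) ∧
    (A.a2.testBit 1 = true → c.l00 + c.l10 + c.p2 + P.lm.getD 0 0 ≤ P.lp.getD 0 0 + c.m2) ∧
    (A.a3.testBit 1 = true → c.l01 + c.l11 + c.p3 + P.lm.getD 0 0 ≤ P.lp.getD 0 0 + c.m3) ∧
    (A.a0.testBit 2 = true → A.a2.testBit 2 = true →
      c.l00 + c.p0 + c.p2 + P.kap + 2 * P.lm.getD 0 0 ≤ 2 * P.lp.getD 0 0 + c.m0 + c.m2) ∧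
    (A.a0.testBit 3 = true → A.a3.testBit 2 = true →
      c.l01 + c.p0 + c.p3 + P.kap + 2 * P.lm.getD 0 0 ≤ 2 * P.lp.getD 0 0 + c.m0 + c.m3) ∧
    (A.a1.testBit 2 = true → A.a2.testBit 3 = true →
      c.l10 + c.p1 + c.p2 + P.kap + 2 * P.lm.getD 0 0 ≤ 2 * P.lp.getD 0 0 + c.m1 + c.m2) ∧
    (A.a1.testBit 3 = true → A.a3.testBit 3 = true →
      c.l11 + c.p1 + c.p3 + P.kap + 2 * P.lm.getD 0 0 ≤ 2 * P.lp.getD 0 0 + c.m1 + c.m3) := by
  simp only [tOK, Bool.and_eq_true, Bool.or_eq_true, Bool.not_eq_true', Nat.ble_eq,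
    Bool.eq_false_iff, ne_eq] at hok
  obtain ⟨⟨⟨⟨⟨⟨⟨⟨h0, h1⟩, h2⟩, h3⟩, h4⟩, h5⟩, h6⟩, h7⟩, h8⟩ := hok
  exact ⟨h0, fun a => h1.resolve_left fun h => h a, fun a => h2.resolve_left fun h => h a,
    fun a => h3.resolve_left fun h => h a, fun a => h4.resolve_left fun h => h a,
    fun a b => h5.resolve_left fun h => h.elim (fun h => h a) fun h => h b,
    fun a b => h6.resolve_left fun h => h.elim (fun h => h a) fun h => h b,
    fun a b => h7.resolve_left fun h => h.elim (fun h => h a) fun h => h b,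
    fun a b => h8.resolve_left fun h => h.elim (fun h => h a) fun h => h b⟩

theorem M04.col (P : Pot) (nb : Bool) (A : Msk) (c : TC) (p q r t : Comp)
    (o o' : Bool) (f f' : Comp) (hf : Fix1 (mrg p q o) f) (hf' : Fix1 (mrg r t o') f')
    (hok : tOK P nb A c = true) (hA : KindsIn A p q r t o o' f f') (d : ℕ) :
    M04.T P c p q r t o o' f f' d ≤ ((wts P A c).getD (clsC p q r t o o' d) 0 : ℤ) := by
  obtain ⟨hA0, hA1, hA2, hA3⟩ := hA
  have B0 : d ∈ newc (mrg p q o) f false → A.a0.testBit (if d ∈ newc (mrg r t o') f' false then 2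
      else if d ∈ newc (mrg r t o') f' true then 3 else kindOf (cod r d) (swo o' (cod t d))) = true :=
    fun h => hA0 _ (Or.inr ⟨d, h, rfl⟩)
  have B1 : d ∈ newc (mrg p q o) f true → A.a1.testBit (if d ∈ newc (mrg r t o') f' false then 2
      else if d ∈ newc (mrg r t o') f' true then 3 else kindOf (cod r d) (swo o' (cod t d))) = true :=
    fun h => hA1 _ (Or.inr ⟨d, h, rfl⟩)
  have B2 : d ∈ newc (mrg r t o') f' false → A.a2.testBit (if d ∈ newc (mrg p q o) f false then 2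
      else if d ∈ newc (mrg p q o) f true then 3 else kindOf (cod p d) (swo o (cod q d))) = true :=
    fun h => hA2 _ (Or.inr ⟨d, h, rfl⟩)
  have B3 : d ∈ newc (mrg r t o') f' true → A.a3.testBit (if d ∈ newc (mrg p q o) f false then 2
      else if d ∈ newc (mrg p q o) f true then 3 else kindOf (cod p d) (swo o (cod q d))) = true :=
    fun h => hA3 _ (Or.inr ⟨d, h, rfl⟩)
  have S := M04.st p q o f hf d
  have S' := M04.st r t o' f' hf' d
  clear hA0 hA1 hA2 hA3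
  simp only [M04.T, M04.mem_slot, lamZ, clsC, mem_inter, Bool.not_false, Bool.not_true]
  generalize kindOf (cod p d) (swo o (cod q d)) = k at *
  generalize kindOf (cod r d) (swo o' (cod t d)) = k' at *
  generalize lamCls (cod p d) (swo o (cod q d)) = l at *
  generalize lamCls (cod r d) (swo o' (cod t d)) = l' at *
  unfold M04.St at S S'
  obtain ⟨-, H1, H2, H3, H4, H5, H6, H7, H8⟩ := M04.tok P nb A c hok
  rcases S with ⟨n0, n1, f0, f1, w, rfl, rfl⟩ | ⟨n0, n1, f0, f1, w, rfl, rfl⟩ | ⟨n0, n1, f0, f1, w, rfl, rfl⟩ | ⟨n0, n1, f0, f1, w, rfl, rfl⟩ | ⟨n0, n1, f0, f1, w, rfl, rfl⟩ | ⟨n0, n1, f0, f1, w, rfl, rfl⟩ | ⟨n0, n1, f0, f1, w, rfl, rfl⟩ | ⟨n0, n1, f0, f1, w, rfl, rfl⟩ | ⟨n0, n1, f0, f1, w, rfl, rfl⟩ | ⟨n0, n1, f0, f1, w, rfl, rfl⟩ | ⟨n0, n1, f0, f1, w, rfl, rfl⟩ <;>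
  rcases S' with ⟨n0', n1', f0', f1', w', rfl, rfl⟩ | ⟨n0', n1', f0', f1', w', rfl, rfl⟩ | ⟨n0', n1', f0', f1', w', rfl, rfl⟩ | ⟨n0', n1', f0', f1', w', rfl, rfl⟩ | ⟨n0', n1', f0', f1', w', rfl, rfl⟩ | ⟨n0', n1', f0', f1', w', rfl, rfl⟩ | ⟨n0', n1', f0', f1', w', rfl, rfl⟩ | ⟨n0', n1', f0', f1', w', rfl, rfl⟩ | ⟨n0', n1', f0', f1', w', rfl, rfl⟩ | ⟨n0', n1', f0', f1', w', rfl, rfl⟩ | ⟨n0', n1', f0', f1', w', rfl, rfl⟩ <;>
  simp [-List.getD_eq_getElem?_getD, n0, n1, f0, f1, w, n0', n1', f0', f1', w', clsK, mcd, M04.w0, M04.w1, M04.w2, M04.w3, M04.w4,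
    M04.w5, M04.w6, M04.w7, M04.w8, M04.w9, M04.w10, M04.w11, M04.w12, M04.w13, M04.w14, M04.w15,
    M04.w16, M04.w17, M04.w18, M04.w19, M04.w20] at B0 B1 B2 B3 ⊢ <;>
  first
    | (refine le_trans ?_ (M04.wOne_ge _ _ _ _ _ _ _ _ _ _ _).1; push_cast; linarith)
    | (refine le_trans ?_ ((M04.wOne_ge _ _ _ _ _ _ _ _ _ _ _).2.1 B0); push_cast; linarith)
    | (refine le_trans ?_ ((M04.wOne_ge _ _ _ _ _ _ _ _ _ _ _).2.2 B1); push_cast; linarith)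
    | (refine le_trans ?_ ((M04.wOne_ge _ _ _ _ _ _ _ _ _ _ _).2.1 B2); push_cast; linarith)
    | (refine le_trans ?_ ((M04.wOne_ge _ _ _ _ _ _ _ _ _ _ _).2.2 B3); push_cast; linarith)
    | (have := H1 B0; omega)
    | (have := H2 B1; omega)
    | (have := H3 B2; omega)
    | (have := H4 B3; omega)
    | (have := H5 B0 B2; omega)
    | (have := H6 B0 B3; omega)
    | (have := H7 B1 B2; omega)
    | (have := H8 B1 B3; omega)

theorem M04.kk (P : Pot) (hP : P.KB ≤ P.KE) (nb : Bool) (A : Msk) (c : TC) (f f' : Comp)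
    (hok : tOK P nb A c = true) (hnb : nb = true → ¬ (Mini f ∧ Mini f')) :
    (c.l00 : ℤ) * (if slot f f' false false = ∅ then 1 else 0) +
      (c.l01 : ℤ) * (if slot f f' false true = ∅ then 1 else 0) +
      (c.l10 : ℤ) * (if slot f f' true false = ∅ then 1 else 0) +
      (c.l11 : ℤ) * (if slot f f' true true = ∅ then 1 else 0) ≤ KK P f f' := by
  obtain ⟨H0, -⟩ := M04.tok P nb A c hok
  have hS : ((bif nb then P.KE else P.KE - P.KB : ℕ) : ℤ) * emp f f' +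
      (if emp f f' = 0 then 0 else (P.K1 : ℤ)) ≤ KK P f f' := by
    unfold KK
    cases nb
    · have h1 : ((P.KE - P.KB : ℕ) : ℤ) = P.KE - P.KB := by
        push_cast [hP]
        ring
      simp only [cond_false]
      rw [h1]
      have h2 : (0 : ℤ) ≤ (P.KB : ℤ) * emp f f' := by positivity
      split_ifs <;> nlinarith
    · simp only [cond_true]
      rw [if_neg (hnb rfl)]
      simp
  refine le_trans ?_ hS
  generalize (bif nb then P.KE else P.KE - P.KB : ℕ) = S at *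
  unfold emp
  simp only [Fintype.sum_bool]
  by_cases h1 : slot f f' false false = ∅ <;> by_cases h2 : slot f f' false true = ∅ <;>
    by_cases h3 : slot f f' true false = ∅ <;> by_cases h4 : slot f f' true true = ∅ <;>
    simp [h1, h2, h3, h4] <;> omega

theorem M04.sum_ind (W S : Finset ℕ) (h : S ⊆ W) (a : ℤ) :
    ∑ d ∈ W, a * (if d ∈ S then (1 : ℤ) else 0) = a * S.card := by
  rw [← Finset.mul_sum, Finset.sum_ite_mem, Finset.inter_eq_right.2 h, Finset.sum_const,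
    nsmul_eq_mul, mul_one]

theorem M04.one_sub_card (S : Finset ℕ) : (1 : ℤ) - S.card ≤ if S = ∅ then 1 else 0 := by
  split_ifs with h
  · rw [h]
    simp
  · have := Finset.card_pos.2 (Finset.nonempty_iff_ne_empty.2 h)
    omega

/-- Main inequality for one term.
Proof: `KK P f f' ≥ Σ_{σρ} l_{σρ} [slot f f' σ ρ = ∅] ≥ Σ l_{σρ} (1 - card (slot f f' σ ρ))` by the
first condition of `tOK`; then compare the contributions of every colour `c`:
`Σ l_{σρ} [c ∈ slot f f' σ ρ] - lamZ [c new in f] - lamZ [c new in f'] + kap [c new in both] +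
Σ_a (p_a - m_a) [c new on side a] ≤ wts[clsC c]` (and `≤ 0` for colours outside `V`, which are free
in all four components).  Note: a new colour on side `σ` of `f` is free in `mrg p q o`. -/
theorem term_bound (P : Pot) (hP : P.KB ≤ P.KE) (nb : Bool) (A : Msk) (c : TC) (p q r t : Comp)
    (o o' : Bool) (f f' : Comp) (hf : Fix1 (mrg p q o) f) (hf' : Fix1 (mrg r t o') f')
    (hok : tOK P nb A c = true) (hnb : nb = true → ¬ (Mini f ∧ Mini f'))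
    (hA : KindsIn A p q r t o o' f f') (V : Finset ℕ)
    (hV : ∀ d, d ∉ V → cod p d = 0 ∧ cod q d = 0 ∧ cod r d = 0 ∧ cod t d = 0) :
    (c.l00 : ℤ) + c.l01 + c.l10 + c.l11 +
      ((c.p0 : ℤ) - c.m0) * xn (mrg p q o) f false + ((c.p1 : ℤ) - c.m1) * xn (mrg p q o) f true +
      ((c.p2 : ℤ) - c.m2) * xn (mrg r t o') f' false +
      ((c.p3 : ℤ) - c.m3) * xn (mrg r t o') f' true ≤
    valZ P p q r t o o' f f' +
      ∑ d ∈ V, ((wts P A c).getD (clsC p q r t o o' d) 0 : ℤ) := by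
  have hk := M04.kk P hP nb A c f f' hok hnb
  obtain ⟨W, hW, hVW⟩ : ∃ W : Finset ℕ, (f false ⊆ W ∧ f true ⊆ W ∧ f' false ⊆ W ∧ f' true ⊆ W) ∧
      V ⊆ W := by
    refine ⟨V ∪ (f false ∪ f true ∪ (f' false ∪ f' true)), ⟨?_, ?_, ?_, ?_⟩, ?_⟩ <;>
    · intro d hd
      simp only [mem_union]
      tauto
  obtain ⟨W0, W1, W0', W1'⟩ := hW
  have hfW : ∀ σ, f σ ⊆ W := fun σ => by cases σ <;> assumption
  have hfW' : ∀ σ, f' σ ⊆ W := fun σ => by cases σ <;> assumption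
  have hslot : ∀ σ ρ, slot f f' σ ρ ⊆ W := by
    intro σ ρ d hd
    rw [M04.mem_slot] at hd
    rcases hd.1 with h | h
    · exact hfW σ h
    · exact hfW' ρ h
  have hnw : nw (mrg p q o) f ⊆ W := by
    intro d hd
    rw [nw, mem_sdiff, mem_union] at hd
    rcases hd.1 with h | h
    · exact W0 h
    · exact W1 h
  have hnw' : nw (mrg r t o') f' ⊆ W := by
    intro d hd
    rw [nw, mem_sdiff, mem_union] at hd
    rcases hd.1 with h | h
    · exact W0' h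
    · exact W1' h
  have hnc : ∀ σ, newc (mrg p q o) f σ ⊆ W := fun σ d hd => hfW σ (mem_sdiff.1 hd).1
  have hnc' : ∀ σ, newc (mrg r t o') f' σ ⊆ W := fun σ d hd => hfW' σ (mem_sdiff.1 hd).1
  have hsum : ∑ d ∈ W, M04.T P c p q r t o o' f f' d ≤
      ∑ d ∈ V, ((wts P A c).getD (clsC p q r t o o' d) 0 : ℤ) := by
    refine (Finset.sum_le_sum fun d _ => M04.col P nb A c p q r t o o' f f' hf hf' hok hA d).trans ?_
    refine le_of_eq (Finset.sum_subset hVW fun d _ hd => ?_).symm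
    obtain ⟨a1, a2, a3, a4⟩ := hV d hd
    have hc : clsC p q r t o o' d = 20 := by
      rw [clsC, a1, a2, a3, a4]
      cases o <;> cases o' <;> rfl
    rw [hc, M04.w20]
    rfl
  have hexp : ∑ d ∈ W, M04.T P c p q r t o o' f f' d =
      (c.l00 : ℤ) * (slot f f' false false).card + (c.l01 : ℤ) * (slot f f' false true).card +
      (c.l10 : ℤ) * (slot f f' true false).card + (c.l11 : ℤ) * (slot f f' true true).card -
      ∑ d ∈ nw (mrg p q o) f, lamZ P r t o' d - ∑ d ∈ nw (mrg r t o') f', lamZ P p q o d +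
      (P.kap : ℤ) * (nw (mrg p q o) f ∩ nw (mrg r t o') f').card +
      ((c.p0 : ℤ) - c.m0) * (newc (mrg p q o) f false).card +
      ((c.p1 : ℤ) - c.m1) * (newc (mrg p q o) f true).card +
      ((c.p2 : ℤ) - c.m2) * (newc (mrg r t o') f' false).card +
      ((c.p3 : ℤ) - c.m3) * (newc (mrg r t o') f' true).card := by
    unfold M04.T
    rw [sum_add_distrib, sum_add_distrib, sum_add_distrib, sum_add_distrib, sum_add_distrib,
      sum_sub_distrib, sum_sub_distrib, sum_add_distrib, sum_add_distrib, sum_add_distrib,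
      M04.sum_ind W _ (hslot _ _), M04.sum_ind W _ (hslot _ _), M04.sum_ind W _ (hslot _ _),
      M04.sum_ind W _ (hslot _ _), M04.sum_ind W _ (inter_subset_left.trans hnw),
      M04.sum_ind W _ (hnc _), M04.sum_ind W _ (hnc _), M04.sum_ind W _ (hnc' _),
      M04.sum_ind W _ (hnc' _), Finset.sum_ite_mem, Finset.sum_ite_mem,
      Finset.inter_eq_right.2 hnw, Finset.inter_eq_right.2 hnw']
  rw [hexp] at hsum
  have e00 := mul_le_mul_of_nonneg_left (M04.one_sub_card (slot f f' false false))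
    (Int.natCast_nonneg c.l00)
  have e01 := mul_le_mul_of_nonneg_left (M04.one_sub_card (slot f f' false true))
    (Int.natCast_nonneg c.l01)
  have e10 := mul_le_mul_of_nonneg_left (M04.one_sub_card (slot f f' true false))
    (Int.natCast_nonneg c.l10)
  have e11 := mul_le_mul_of_nonneg_left (M04.one_sub_card (slot f f' true true))
    (Int.natCast_nonneg c.l11)
  rw [M04.xn_card hf, M04.xn_card hf, M04.xn_card hf', M04.xn_card hf', valZ]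
  linarith

end Pool.Agent.Helper22.QC
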