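import Pool.Agent.Helper22.QC.Sem

/-! # Packed numbers -/

namespace Pool.Agent.Helper22.QC

open Finset

theorem pk_add (f g : ℕ → ℕ) : pk (fun t => f t + g t) = pk f + pk g := by
  unfold pk
  rw [← Finset.sum_add_distrib]
  refine Finset.sum_congr rfl fun t _ => ?_
  ring

theorem pk_mul (y : ℕ) (f : ℕ → ℕ) : pk (fun t => y * f t) = y * pk f := by
  unfold pk
  rw [Finset.mul_sum]
  refine Finset.sum_congr rfl fun t _ => ?_
  ring

theorem pk_zero : pk (fun _ => 0) = 0 := by
  unfold pk
  simp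

/-! ### products over the digits -/

private theorem M05_s4 (h g : ℕ → ℕ) (n : ℕ) :
    ∑ t ∈ range (4 * n), h (t % 4) * g (t / 4) =
      (h 0 + h 1 + h 2 + h 3) * ∑ u ∈ range n, g u := by
  induction n with
  | zero => simp
  | succ n ih =>
    have e : 4 * (n + 1) = 4 * n + 1 + 1 + 1 + 1 := by ring
    have a0 : (4 * n) % 4 = 0 := by omega
    have a1 : (4 * n + 1) % 4 = 1 := by omega
    have a2 : (4 * n + 1 + 1) % 4 = 2 := by omega
    have a3 : (4 * n + 1 + 1 + 1) % 4 = 3 := by omega
    have b0 : (4 * n) / 4 = n := by omega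
    have b1 : (4 * n + 1) / 4 = n := by omega
    have b2 : (4 * n + 1 + 1) / 4 = n := by omega
    have b3 : (4 * n + 1 + 1 + 1) / 4 = n := by omega
    rw [e, sum_range_succ, sum_range_succ, sum_range_succ, sum_range_succ, ih, a0, a1, a2, a3,
      b0, b1, b2, b3, sum_range_succ]
    ring

private theorem M05_prod (h0 h1 h2 h3 : ℕ → ℕ) :
    ∑ t ∈ range 256, h0 (dig t 0) * h1 (dig t 1) * h2 (dig t 2) * h3 (dig t 3) =
      (h0 0 + h0 1 + h0 2 + h0 3) * (h1 0 + h1 1 + h1 2 + h1 3) * (h2 0 + h2 1 + h2 2 + h2 3) *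
        (h3 0 + h3 1 + h3 2 + h3 3) := by
  have e3 : ∑ t ∈ range 4, h3 (t % 4) = h3 0 + h3 1 + h3 2 + h3 3 := by
    rw [sum_range_succ, sum_range_succ, sum_range_succ, sum_range_succ, sum_range_zero]
    simp
  have e2 : ∑ t ∈ range 16, h2 (t % 4) * h3 (t / 4 % 4) =
      (h2 0 + h2 1 + h2 2 + h2 3) * (h3 0 + h3 1 + h3 2 + h3 3) := by
    rw [← e3]
    exact M05_s4 h2 (fun u => h3 (u % 4)) 4
  have e1 : ∑ t ∈ range 64, h1 (t % 4) * (h2 (t / 4 % 4) * h3 (t / 4 / 4 % 4)) =
      (h1 0 + h1 1 + h1 2 + h1 3) *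
        ((h2 0 + h2 1 + h2 2 + h2 3) * (h3 0 + h3 1 + h3 2 + h3 3)) := by
    rw [← e2]
    exact M05_s4 h1 (fun u => h2 (u % 4) * h3 (u / 4 % 4)) 16
  have e0 : ∑ t ∈ range 256, h0 (t % 4) *
      (h1 (t / 4 % 4) * (h2 (t / 4 / 4 % 4) * h3 (t / 4 / 4 / 4 % 4))) =
      (h0 0 + h0 1 + h0 2 + h0 3) * ((h1 0 + h1 1 + h1 2 + h1 3) *
        ((h2 0 + h2 1 + h2 2 + h2 3) * (h3 0 + h3 1 + h3 2 + h3 3))) := by
    rw [← e1]
    exact M05_s4 h0 (fun u => h1 (u % 4) * (h2 (u / 4 % 4) * h3 (u / 4 / 4 % 4))) 64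
  have e : ∑ t ∈ range 256, h0 (dig t 0) * h1 (dig t 1) * h2 (dig t 2) * h3 (dig t 3) =
      ∑ t ∈ range 256, h0 (t % 4) *
        (h1 (t / 4 % 4) * (h2 (t / 4 / 4 % 4) * h3 (t / 4 / 4 / 4 % 4))) := by
    refine Finset.sum_congr rfl fun t _ => ?_
    have d0 : dig t 0 = t % 4 := by unfold dig; simp
    have d1 : dig t 1 = t / 4 % 4 := by unfold dig; simp
    have d2 : dig t 2 = t / 4 / 4 % 4 := by
      unfold dig
      rw [Nat.div_div_eq_div_mul]
      norm_num
    have d3 : dig t 3 = t / 4 / 4 / 4 % 4 := by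
      unfold dig
      rw [Nat.div_div_eq_div_mul, Nat.div_div_eq_div_mul]
      norm_num
    rw [d0, d1, d2, d3]
    ring
  rw [e, e0]
  ring

private theorem M05_dig_sum (t : ℕ) (ht : t < 256) :
    t = dig t 0 + 4 * dig t 1 + 16 * dig t 2 + 64 * dig t 3 := by
  unfold dig
  norm_num
  omega

private theorem M05_pow (w t : ℕ) (ht : t < 256) :
    2 ^ (w * t) = 2 ^ (w * dig t 0) * 2 ^ (4 * w * dig t 1) * 2 ^ (16 * w * dig t 2) *
      2 ^ (64 * w * dig t 3) := by
  rw [← pow_add, ← pow_add, ← pow_add]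
  congr 1
  conv_lhs => rw [M05_dig_sum t ht]
  ring

/-- the factor of a digit -/
private def M05_h (w m d : ℕ) : ℕ := if m.testBit d = true then 2 ^ (w * d) else 0

private def M05_z (w m d : ℕ) : ℕ := if m.testBit d = true ∧ (m = 15 ∨ d = 0) then 2 ^ (w * d) else 0

private theorem M05_spr (w m : ℕ) :
    spr w m = M05_h w m 0 + M05_h w m 1 + M05_h w m 2 + M05_h w m 3 := by
  have key : ∀ d, m / 2 ^ d % 2 = if m.testBit d = true then 1 else 0 := by
    intro d
    rw [Nat.testBit_eq_decide_div_mod_eq]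
    by_cases h : m / 2 ^ d % 2 = 1
    · simp [h]
    · have : m / 2 ^ d % 2 = 0 := by omega
      simp [this]
  have k0 := key 0
  have k1 := key 1
  have k2 := key 2
  have k3 := key 3
  norm_num at k0 k1 k2 k3
  unfold spr M05_h
  rw [k1, k2, k3]
  have e0 : m % 2 = if m.testBit 0 = true then 1 else 0 := by
    have := key 0
    simpa using this
  rw [e0]
  simp only [ite_mul, one_mul, zero_mul, mul_zero, pow_zero, mul_one]
  rw [mul_comm w 2, mul_comm w 3]

private theorem M05_spz (w m : ℕ) :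
    spz w m = M05_z w m 0 + M05_z w m 1 + M05_z w m 2 + M05_z w m 3 := by
  unfold spz
  by_cases hm : m = 15
  · have e : Nat.beq m 15 = true := by rw [hm]; rfl
    rw [e, cond_true, M05_spr]
    unfold M05_h M05_z
    subst hm
    simp
  · have e : Nat.beq m 15 = false := by
      rw [Bool.eq_false_iff]
      intro h
      exact hm (Nat.eq_of_beq_eq_true h)
    rw [e, cond_false]
    unfold M05_z
    have e0 : m % 2 = if m.testBit 0 = true then 1 else 0 := by
      rw [Nat.testBit_zero]
      by_cases h : m % 2 = 1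
      · simp [h]
      · have : m % 2 = 0 := by omega
        simp [this]
    rw [e0]
    simp [hm]

private theorem M05_inP (A t : ℕ) : inP A t = true ↔
    ((nib A 0).testBit (dig t 0) = true ∧ (nib A 1).testBit (dig t 1) = true ∧
      (nib A 2).testBit (dig t 2) = true ∧ (nib A 3).testBit (dig t 3) = true) ∧
    ¬ ((nib A 0 = 15 ∨ dig t 0 = 0) ∧ (nib A 1 = 15 ∨ dig t 1 = 0) ∧
      (nib A 2 = 15 ∨ dig t 2 = 0) ∧ (nib A 3 = 15 ∨ dig t 3 = 0)) := by
  unfold inP
  have e : List.range 4 = [0, 1, 2, 3] := by decide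
  rw [e]
  simp only [List.all_cons, List.all_nil, List.any_cons, List.any_nil, Bool.and_eq_true,
    Bool.or_eq_true, bne_iff_ne, Bool.and_true, Bool.or_false, ne_eq]
  tauto

/-- `mk w A` is the sum of `2 ^ (w t)` over the matching types -/
theorem mk_eq (w A : ℕ) :
    mk w A = ∑ t ∈ range 256, if inP A t = true then 2 ^ (w * t) else 0 := by
  have hP : spr w (nib A 0) * spr (4 * w) (nib A 1) * spr (16 * w) (nib A 2) *
      spr (64 * w) (nib A 3) =
      ∑ t ∈ range 256, M05_h w (nib A 0) (dig t 0) * M05_h (4 * w) (nib A 1) (dig t 1) *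
        M05_h (16 * w) (nib A 2) (dig t 2) * M05_h (64 * w) (nib A 3) (dig t 3) := by
    rw [M05_prod, M05_spr, M05_spr, M05_spr, M05_spr]
  have hZ : spz w (nib A 0) * spz (4 * w) (nib A 1) * spz (16 * w) (nib A 2) *
      spz (64 * w) (nib A 3) =
      ∑ t ∈ range 256, M05_z w (nib A 0) (dig t 0) * M05_z (4 * w) (nib A 1) (dig t 1) *
        M05_z (16 * w) (nib A 2) (dig t 2) * M05_z (64 * w) (nib A 3) (dig t 3) := by
    rw [M05_prod, M05_spz, M05_spz, M05_spz, M05_spz]
  have key : ∀ t ∈ range 256,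
      M05_h w (nib A 0) (dig t 0) * M05_h (4 * w) (nib A 1) (dig t 1) *
        M05_h (16 * w) (nib A 2) (dig t 2) * M05_h (64 * w) (nib A 3) (dig t 3) =
      (if inP A t = true then 2 ^ (w * t) else 0) +
        M05_z w (nib A 0) (dig t 0) * M05_z (4 * w) (nib A 1) (dig t 1) *
        M05_z (16 * w) (nib A 2) (dig t 2) * M05_z (64 * w) (nib A 3) (dig t 3) := by
    intro t ht
    rw [mem_range] at ht
    have hp := M05_pow w t ht
    have hi := M05_inP A t
    by_cases c : (nib A 0).testBit (dig t 0) = true ∧ (nib A 1).testBit (dig t 1) = true ∧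
      (nib A 2).testBit (dig t 2) = true ∧ (nib A 3).testBit (dig t 3) = true
    · obtain ⟨c0, c1, c2, c3⟩ := c
      have h0 : M05_h w (nib A 0) (dig t 0) = 2 ^ (w * dig t 0) := if_pos c0
      have h1 : M05_h (4 * w) (nib A 1) (dig t 1) = 2 ^ (4 * w * dig t 1) := if_pos c1
      have h2 : M05_h (16 * w) (nib A 2) (dig t 2) = 2 ^ (16 * w * dig t 2) := if_pos c2
      have h3 : M05_h (64 * w) (nib A 3) (dig t 3) = 2 ^ (64 * w * dig t 3) := if_pos c3
      rw [h0, h1, h2, h3, ← hp]
      by_cases d : (nib A 0 = 15 ∨ dig t 0 = 0) ∧ (nib A 1 = 15 ∨ dig t 1 = 0) ∧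
        (nib A 2 = 15 ∨ dig t 2 = 0) ∧ (nib A 3 = 15 ∨ dig t 3 = 0)
      · obtain ⟨d0, d1, d2, d3⟩ := d
        have hn : ¬ inP A t = true := fun h => (hi.1 h).2 ⟨d0, d1, d2, d3⟩
        have z0 : M05_z w (nib A 0) (dig t 0) = 2 ^ (w * dig t 0) := if_pos ⟨c0, d0⟩
        have z1 : M05_z (4 * w) (nib A 1) (dig t 1) = 2 ^ (4 * w * dig t 1) := if_pos ⟨c1, d1⟩
        have z2 : M05_z (16 * w) (nib A 2) (dig t 2) = 2 ^ (16 * w * dig t 2) := if_pos ⟨c2, d2⟩
        have z3 : M05_z (64 * w) (nib A 3) (dig t 3) = 2 ^ (64 * w * dig t 3) := if_pos ⟨c3, d3⟩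
        rw [if_neg hn, z0, z1, z2, z3, ← hp, zero_add]
      · have hy : inP A t = true := hi.2 ⟨⟨c0, c1, c2, c3⟩, d⟩
        rw [if_pos hy]
        have hz : M05_z w (nib A 0) (dig t 0) * M05_z (4 * w) (nib A 1) (dig t 1) *
            M05_z (16 * w) (nib A 2) (dig t 2) * M05_z (64 * w) (nib A 3) (dig t 3) = 0 := by
          by_cases d0 : nib A 0 = 15 ∨ dig t 0 = 0
          · by_cases d1 : nib A 1 = 15 ∨ dig t 1 = 0
            · by_cases d2 : nib A 2 = 15 ∨ dig t 2 = 0
              · have d3 : ¬ (nib A 3 = 15 ∨ dig t 3 = 0) := fun h => d ⟨d0, d1, d2, h⟩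
                have z : M05_z (64 * w) (nib A 3) (dig t 3) = 0 := if_neg fun h => d3 h.2
                rw [z, mul_zero]
              · have z : M05_z (16 * w) (nib A 2) (dig t 2) = 0 := if_neg fun h => d2 h.2
                rw [z, mul_zero, zero_mul]
            · have z : M05_z (4 * w) (nib A 1) (dig t 1) = 0 := if_neg fun h => d1 h.2
              rw [z, mul_zero, zero_mul, zero_mul]
          · have z : M05_z w (nib A 0) (dig t 0) = 0 := if_neg fun h => d0 h.2
            rw [z, zero_mul, zero_mul, zero_mul]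
        rw [hz, add_zero]
    · have hn : ¬ inP A t = true := fun h => c (hi.1 h).1
      rw [if_neg hn, zero_add]
      by_cases c0 : (nib A 0).testBit (dig t 0) = true
      · by_cases c1 : (nib A 1).testBit (dig t 1) = true
        · by_cases c2 : (nib A 2).testBit (dig t 2) = true
          · have c3 : ¬ (nib A 3).testBit (dig t 3) = true := fun h => c ⟨c0, c1, c2, h⟩
            have h : M05_h (64 * w) (nib A 3) (dig t 3) = 0 := if_neg c3
            have z : M05_z (64 * w) (nib A 3) (dig t 3) = 0 := if_neg fun h => c3 h.1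
            rw [h, z, mul_zero, mul_zero]
          · have h : M05_h (16 * w) (nib A 2) (dig t 2) = 0 := if_neg c2
            have z : M05_z (16 * w) (nib A 2) (dig t 2) = 0 := if_neg fun h => c2 h.1
            rw [h, z, mul_zero, mul_zero, zero_mul, zero_mul]
        · have h : M05_h (4 * w) (nib A 1) (dig t 1) = 0 := if_neg c1
          have z : M05_z (4 * w) (nib A 1) (dig t 1) = 0 := if_neg fun h => c1 h.1
          rw [h, z, mul_zero, mul_zero, zero_mul, zero_mul, zero_mul, zero_mul]
      · have h : M05_h w (nib A 0) (dig t 0) = 0 := if_neg c0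
        have z : M05_z w (nib A 0) (dig t 0) = 0 := if_neg fun h => c0 h.1
        rw [h, z]
        simp
  unfold mk
  rw [hP, hZ, Finset.sum_congr rfl key, Finset.sum_add_distrib, Nat.add_sub_cancel]

theorem mk40 (A : ℕ) : mk 40 A = pk fun t => if inP A t = true then 1 else 0 := by
  rw [mk_eq]
  unfold pk
  refine Finset.sum_congr rfl fun t _ => ?_
  show _ = (if inP A t = true then 1 else 0) * 2 ^ (40 * t)
  by_cases h : inP A t = true
  · rw [if_pos h, if_pos h, one_mul]
  · rw [if_neg h, if_neg h, zero_mul]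

theorem ymk_eq (y A : ℕ) : ymk y A = pk fun t => if inP A t = true then y else 0 := by
  unfold ymk
  by_cases hy : y = 0
  · subst hy
    have e : Nat.beq 0 0 = true := rfl
    rw [e, cond_true]
    have e2 : (fun t => if inP A t = true then 0 else 0) = fun _ : ℕ => 0 := by
      funext t
      simp
    rw [e2, pk_zero]
  · have e : Nat.beq y 0 = false := by
      rw [Bool.eq_false_iff]
      intro h
      exact hy (Nat.eq_of_beq_eq_true h)
    rw [e, cond_false, mk40, ← pk_mul]
    congr 1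
    funext t
    by_cases h : inP A t = true
    · rw [if_pos h, if_pos h, mul_one]
    · rw [if_neg h, if_neg h, mul_zero]

private theorem M05_bits_lt (b : ℕ → Bool) (n : ℕ) :
    ∑ s ∈ range n, (if b s = true then 2 ^ s else 0) < 2 ^ n := by
  induction n with
  | zero => simp
  | succ n ih =>
    rw [sum_range_succ, pow_succ]
    by_cases h : b n = true
    · rw [if_pos h]
      omega
    · rw [if_neg h]
      omega

private theorem M05_bits (b : ℕ → Bool) (n t : ℕ) (ht : t < n) :
    (∑ s ∈ range n, (if b s = true then 2 ^ s else 0)).testBit t = b t := by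
  induction n with
  | zero => omega
  | succ n ih =>
    rw [sum_range_succ]
    have hlt := M05_bits_lt b n
    rcases Nat.lt_or_ge t n with h | h
    · by_cases hb : b n = true
      · rw [if_pos hb, Nat.add_comm, Nat.testBit_two_pow_add_gt h, ih h]
      · rw [if_neg hb, add_zero, ih h]
    · have e : t = n := by omega
      subst e
      by_cases hb : b t = true
      · rw [if_pos hb, Nat.add_comm, Nat.testBit_two_pow_add_eq, Nat.testBit_lt_two_pow hlt, hb]
        rfl
      · rw [if_neg hb, add_zero, Nat.testBit_lt_two_pow hlt]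
        simpa using hb

theorem testBit_mk (A t : ℕ) (ht : t < 256) : (mk 1 A).testBit t = inP A t := by
  rw [mk_eq]
  simp only [one_mul]
  exact M05_bits (fun t => inP A t) 256 t ht

/-! ### digits -/

private theorem M05_dg_lt (f : ℕ → ℕ) (hf : ∀ t, f t < 2 ^ 40) (n : ℕ) :
    ∑ t ∈ range n, f t * 2 ^ (40 * t) < 2 ^ (40 * n) := by
  induction n with
  | zero => simp
  | succ n ih =>
    rw [sum_range_succ]
    have e : 2 ^ (40 * (n + 1)) = 2 ^ 40 * 2 ^ (40 * n) := by
      rw [← pow_add]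
      congr 1
      ring
    have h1 : (f n + 1) * 2 ^ (40 * n) ≤ 2 ^ 40 * 2 ^ (40 * n) :=
      Nat.mul_le_mul_right _ (hf n)
    rw [e]
    calc ∑ t ∈ range n, f t * 2 ^ (40 * t) + f n * 2 ^ (40 * n)
        < 2 ^ (40 * n) + f n * 2 ^ (40 * n) := Nat.add_lt_add_right ih _
      _ = (f n + 1) * 2 ^ (40 * n) := by ring
      _ ≤ 2 ^ 40 * 2 ^ (40 * n) := h1

private theorem M05_dg_bit (f : ℕ → ℕ) (hf : ∀ t, f t < 2 ^ 40) (n t j : ℕ) (ht : t < n)
    (hj : j < 40) :
    (∑ t ∈ range n, f t * 2 ^ (40 * t)).testBit (40 * t + j) = (f t).testBit j := by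
  induction n with
  | zero => omega
  | succ n ih =>
    rw [sum_range_succ]
    have hlt := M05_dg_lt f hf n
    have e : ∑ t ∈ range n, f t * 2 ^ (40 * t) + f n * 2 ^ (40 * n) =
        2 ^ (40 * n) * f n + ∑ t ∈ range n, f t * 2 ^ (40 * t) := by ring
    rw [e, Nat.testBit_two_pow_mul_add _ hlt]
    rcases Nat.lt_or_ge t n with h | h
    · rw [if_pos (by omega), ih h]
    · have e : t = n := by omega
      subst e
      rw [if_neg (by omega)]
      congr 1
      omega

private theorem M05_geom (n : ℕ) :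
    (∑ t ∈ range n, 2 ^ 39 * 2 ^ (40 * t)) * (2 ^ 40 - 1) + 2 ^ 39 = 2 ^ 39 * 2 ^ (40 * n) := by
  induction n with
  | zero => simp
  | succ n ih =>
    have e : 2 ^ (40 * (n + 1)) = 2 ^ (40 * n) * 2 ^ 40 := by
      rw [← pow_add]
      congr 1
    have e2 : (2 : ℕ) ^ 40 = (2 ^ 40 - 1) + 1 := by norm_num
    rw [sum_range_succ, e, add_mul, add_right_comm, ih, ← mul_assoc]
    conv_rhs => rw [e2]
    ring

private theorem M05_H40a : H40 * (2 ^ 40 - 1) + 2 ^ 39 = 2 ^ 39 * 2 ^ (40 * 256) := by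
  decide +kernel

private theorem M05_H40 : H40 = pk fun _ => 2 ^ 39 := by
  have h1 := M05_geom 256
  rw [← M05_H40a] at h1
  have h2 := Nat.add_right_cancel h1
  exact (Nat.eq_of_mul_eq_mul_right (by norm_num) h2).symm

theorem cmpF_sound (f g : ℕ → ℕ) (hf : ∀ t, f t < 2 ^ 39) (hg : ∀ t, g t < 2 ^ 39)
    (h : cmpF (pk f) (pk g) = true) : ∀ t < 256, f t ≤ g t := by
  intro t ht
  unfold cmpF at h
  have h1 := Nat.eq_of_beq_eq_true h
  have e : pk g + H40 - pk f = pk fun t => g t + 2 ^ 39 - f t := by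
    have e1 : pk g + H40 = pk f + pk fun t => g t + 2 ^ 39 - f t := by
      rw [M05_H40, ← pk_add, ← pk_add]
      congr 1
      funext s
      have := hf s
      omega
    rw [e1, Nat.add_sub_cancel_left]
  rw [e] at h1
  have h2 : (Nat.land (pk fun t => g t + 2 ^ 39 - f t) H40).testBit (40 * t + 39) =
      H40.testBit (40 * t + 39) := by rw [h1]
  have h3 : H40.testBit (40 * t + 39) = true := by
    rw [M05_H40]
    unfold pk
    rw [M05_dg_bit (fun _ => 2 ^ 39) (fun _ => by norm_num) 256 t 39 ht (by norm_num)]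
    exact Nat.testBit_two_pow_self
  have h4 : (pk fun t => g t + 2 ^ 39 - f t).testBit (40 * t + 39) = true := by
    have h5 : (Nat.land (pk fun t => g t + 2 ^ 39 - f t) H40).testBit (40 * t + 39) = true := by
      rw [h2, h3]
    have h6 : Nat.land (pk fun t => g t + 2 ^ 39 - f t) H40 =
        (pk fun t => g t + 2 ^ 39 - f t) &&& H40 := rfl
    rw [h6, Nat.testBit_land, Bool.and_eq_true] at h5
    exact h5.1
  unfold pk at h4
  rw [M05_dg_bit (fun t => g t + 2 ^ 39 - f t) (fun s => by
    have := hf s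
    have := hg s
    have e : 2 ^ 40 = 2 ^ 39 + 2 ^ 39 := by norm_num
    rw [e]
    omega) 256 t 39 ht (by norm_num)] at h4
  by_contra hc
  have hlt : g t + 2 ^ 39 - f t < 2 ^ 39 := by
    have := hf t
    omega
  rw [Nat.testBit_lt_two_pow hlt] at h4
  exact Bool.false_ne_true h4

/-! ### class masks -/

private theorem M05_dot (cl : ℕ → ℕ) : ∀ (w : List ℕ) (k : ℕ),
    dot w ((List.range' k w.length).map fun j => pk fun t => if cl t = j then 1 else 0) =
      pk fun t => if k ≤ cl t then w.getD (cl t - k) 0 else 0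
  | [], k => by
    have e : (fun t => if k ≤ cl t then ([] : List ℕ).getD (cl t - k) 0 else 0) =
        fun _ => 0 := by
      funext t
      simp
    rw [e, pk_zero]
    rfl
  | a :: w, k => by
    have ih := M05_dot cl w (k + 1)
    have e : dot (a :: w) ((List.range' k (a :: w).length).map fun j =>
        pk fun t => if cl t = j then 1 else 0) =
        a * (pk fun t => if cl t = k then 1 else 0) +
          dot w ((List.range' (k + 1) w.length).map fun j =>
            pk fun t => if cl t = j then 1 else 0) := by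
      rw [List.length_cons, List.range'_succ, List.map_cons]
      rfl
    rw [e, ih, ← pk_mul, ← pk_add]
    congr 1
    funext t
    rcases lt_trichotomy (cl t) k with h | h | h
    · rw [if_neg (by omega), if_neg (by omega), if_neg (by omega), mul_zero]
    · rw [if_pos h, if_neg (by omega), if_pos (by omega), h, Nat.sub_self]
      simp
    · rw [if_neg (by omega), if_pos (by omega), if_pos (by omega)]
      obtain ⟨m, hm⟩ : ∃ m, cl t - k = m + 1 := ⟨cl t - k - 1, by omega⟩
      have hm' : cl t - (k + 1) = m := by omega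
      rw [hm, hm', List.getD_cons_succ]
      simp

/-- a weighted sum of the class masks -/
theorem dot_td (w : List ℕ) (hw : w.length = 20) (i : Fin 3) (o o' : Bool) :
    dot w (tdC i o o').ms = pk fun t => w.getD (cls i o o' t) 0 := by
  have h := M05_dot (fun t => cls i o o' t) w 0
  rw [hw, ← List.range_eq_range'] at h
  have e : (tdC i o o').ms = (List.range 20).map fun j =>
      pk fun t => if cls i o o' t = j then 1 else 0 := rfl
  rw [e, h]
  rfl

end Pool.Agent.Helper22.QC
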