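import Pool.Agent.Helper22.QC.Sem

/-! # Types and patterns -/

namespace Pool.Agent.Helper22.QC

open Finset
open Pool.Agent.Helper2.OC

theorem cod_lt (p : Comp) (c : ℕ) : cod p c < 4 := by
  unfold cod
  split_ifs <;> omega

theorem typ_lt (s : Fin 4 → Comp) (c : ℕ) : typ s c < 256 := by
  have h0 := cod_lt (s 0) c
  have h1 := cod_lt (s 1) c
  have h2 := cod_lt (s 2) c
  have h3 := cod_lt (s 3) c
  unfold typ
  omega

theorem dig_typ (s : Fin 4 → Comp) (c : ℕ) (i : Fin 4) : dig (typ s c) i = cod (s i) c := by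
  have h0 := cod_lt (s 0) c
  have h1 := cod_lt (s 1) c
  have h2 := cod_lt (s 2) c
  have h3 := cod_lt (s 3) c
  unfold dig typ
  fin_cases i
  · change (cod (s 0) c + 4 * cod (s 1) c + 16 * cod (s 2) c + 64 * cod (s 3) c) / 1 % 4 =
      cod (s 0) c
    omega
  · change (cod (s 0) c + 4 * cod (s 1) c + 16 * cod (s 2) c + 64 * cod (s 3) c) / 4 % 4 =
      cod (s 1) c
    omega
  · change (cod (s 0) c + 4 * cod (s 1) c + 16 * cod (s 2) c + 64 * cod (s 3) c) / 16 % 4 =
      cod (s 2) c
    omega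
  · change (cod (s 0) c + 4 * cod (s 1) c + 16 * cod (s 2) c + 64 * cod (s 3) c) / 64 % 4 =
      cod (s 3) c
    omega

theorem cls_typ (s : Fin 4 → Comp) (c : ℕ) (i : Fin 3) (o o' : Bool) :
    cls i o o' (typ s c) =
      clsC (s (pr i 0)) (s (pr i 1)) (s (pr i 2)) (s (pr i 3)) o o' c := by
  simp only [cls, clsC, dig_typ]

private theorem M06_kindOf_le (x y : ℕ) : kindOf x y ≤ 11 := by
  unfold kindOf
  split_ifs <;> omega

private theorem M06_mcd_le (k : ℕ) : mcd k ≤ 3 := by
  unfold mcd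
  split_ifs <;> omega

theorem cls_le (i : Fin 3) (o o' : Bool) (t : ℕ) : cls i o o' t ≤ 20 := by
  unfold cls clsK
  have h1 := M06_kindOf_le (dig t (pr i 0)) (swo o (dig t (pr i 1)))
  have h2 := M06_kindOf_le (dig t (pr i 2)) (swo o' (dig t (pr i 3)))
  have h3 := M06_mcd_le (kindOf (dig t (pr i 0)) (swo o (dig t (pr i 1))))
  have h4 := M06_mcd_le (kindOf (dig t (pr i 2)) (swo o' (dig t (pr i 3))))
  split_ifs <;> omega

private theorem M06_cod_ne (p : Comp) (c : ℕ) : cod p c ≠ 0 ↔ c ∈ p false ∨ c ∈ p true := by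
  unfold cod
  by_cases h1 : c ∈ p false <;> by_cases h2 : c ∈ p true <;> simp [h1, h2]

theorem mem_U (s : Fin 4 → Comp) (c : ℕ) : c ∈ U s ↔ ∃ i, cod (s i) c ≠ 0 := by
  unfold U
  simp only [Finset.mem_biUnion, Finset.mem_univ, true_and, Finset.mem_union, M06_cod_ne]

/-- the pattern in terms of the codes -/
private theorem M06_inP (s : Fin 4 → Comp) (c A : ℕ) : inP A (typ s c) = true ↔
    (∀ k : Fin 4, (nib A k).testBit (cod (s k) c) = true) ∧
      ∃ k : Fin 4, nib A k ≠ 15 ∧ cod (s k) c ≠ 0 := by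
  have h0 : dig (typ s c) 0 = cod (s 0) c := dig_typ s c 0
  have h1 : dig (typ s c) 1 = cod (s 1) c := dig_typ s c 1
  have h2 : dig (typ s c) 2 = cod (s 2) c := dig_typ s c 2
  have h3 : dig (typ s c) 3 = cod (s 3) c := dig_typ s c 3
  have hr : List.range 4 = [0, 1, 2, 3] := rfl
  unfold inP
  rw [hr]
  simp only [List.all_cons, List.all_nil, List.any_cons, List.any_nil, h0, h1, h2, h3,
    Bool.and_true, Bool.or_false, Bool.and_eq_true, Bool.or_eq_true, bne_iff_ne,
    Fin.forall_fin_succ, Fin.exists_fin_succ]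
  simp only [Fin.isValue, Fin.val_zero, Fin.val_succ, Fin.succ_zero_eq_one, Fin.succ_one_eq_two,
    IsEmpty.forall_iff, and_true, IsEmpty.exists_iff, or_false]
  rfl

private theorem M06_nib_mP : ∀ i j : Fin 4, i < j → ∀ x y : Bool, ∀ k : Fin 4,
    nib (mP i x.toNat j y.toNat) k =
      if k = i then nbM x.toNat else if k = j then nbM y.toNat else 15 := by
  decide

private theorem M06_nib_lP : ∀ i : Fin 4, ∀ x : Bool, ∀ k : Fin 4,
    nib (lP i x.toNat) k = if k = i then 2 ^ (x.toNat + 1) else 15 := by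
  decide

private theorem M06_tb15 (p : Comp) (c : ℕ) : Nat.testBit 15 (cod p c) = true := by
  have h := cod_lt p c
  interval_cases h1 : cod p c <;> decide

private theorem M06_tbM (p : Comp) (c : ℕ) (x : Bool) :
    (nbM x.toNat).testBit (cod p c) = true ↔ c ∉ p (!x) := by
  unfold cod
  cases x <;> by_cases h1 : c ∈ p false <;> by_cases h2 : c ∈ p true <;>
    simp [h1, h2] <;> decide

private theorem M06_tbL (p : Comp) (c : ℕ) (x : Bool) :
    (2 ^ (x.toNat + 1)).testBit (cod p c) = true ↔ c ∈ p x ∧ c ∉ p (!x) := by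
  unfold cod
  cases x <;> by_cases h1 : c ∈ p false <;> by_cases h2 : c ∈ p true <;>
    simp [h1, h2] <;> decide

private theorem M06_nbM_ne (x : Bool) : nbM x.toNat ≠ 15 := by
  cases x <;> decide

private theorem M06_pow_ne (x : Bool) : 2 ^ (x.toNat + 1) ≠ 15 := by
  cases x <;> decide

private theorem M06_cod_ne' (p : Comp) (c : ℕ) (x : Bool) :
    cod p c ≠ 0 ↔ c ∈ p x ∨ c ∈ p (!x) := by
  rw [M06_cod_ne]
  cases x
  · rfl
  · exact or_comm

/-- merge patterns count the private colours of a side of a merge -/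
theorem cnt_mP (s : Fin 4 → Comp) (i j : Fin 4) (hij : i < j) (x y : Bool) :
    cnt s (mP i x.toNat j y.toNat) = (slot (s i) (s j) x y).card := by
  unfold cnt
  congr 1
  ext c
  rw [Finset.mem_filter, M06_inP, mem_U]
  have hne : j ≠ i := hij.ne'
  have hi : nib (mP i x.toNat j y.toNat) i = nbM x.toNat := by
    rw [M06_nib_mP i j hij x y i, if_pos rfl]
  have hj : nib (mP i x.toNat j y.toNat) j = nbM y.toNat := by
    rw [M06_nib_mP i j hij x y j, if_neg hne, if_pos rfl]
  have hk : ∀ k : Fin 4, k ≠ i → k ≠ j → nib (mP i x.toNat j y.toNat) k = 15 := by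
    intro k h1 h2
    rw [M06_nib_mP i j hij x y k, if_neg h1, if_neg h2]
  unfold slot
  rw [Finset.mem_sdiff, Finset.mem_union, Finset.mem_union]
  constructor
  · rintro ⟨-, h1, k, h2, h3⟩
    have h4 := h1 i
    have h5 := h1 j
    rw [hi, M06_tbM] at h4
    rw [hj, M06_tbM] at h5
    refine ⟨?_, fun h => h.elim h4 h5⟩
    by_cases hki : k = i
    · rw [hki, M06_cod_ne' _ _ x] at h3
      exact Or.inl (h3.resolve_right h4)
    · by_cases hkj : k = j
      · rw [hkj, M06_cod_ne' _ _ y] at h3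
        exact Or.inr (h3.resolve_right h5)
      · exact absurd (hk k hki hkj) h2
  · rintro ⟨h1, h2⟩
    have h4 : c ∉ s i (!x) := fun h => h2 (Or.inl h)
    have h5 : c ∉ s j (!y) := fun h => h2 (Or.inr h)
    have h6 : ∀ k : Fin 4, (nib (mP i x.toNat j y.toNat) k).testBit (cod (s k) c) = true := by
      intro k
      by_cases hki : k = i
      · rw [hki, hi, M06_tbM]
        exact h4
      · by_cases hkj : k = j
        · rw [hkj, hj, M06_tbM]
          exact h5
        · rw [hk k hki hkj]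
          exact M06_tb15 _ _
    rcases h1 with h1 | h1
    · have h7 : cod (s i) c ≠ 0 := (M06_cod_ne' _ _ x).2 (Or.inl h1)
      exact ⟨⟨i, h7⟩, h6, i, by rw [hi]; exact M06_nbM_ne x, h7⟩
    · have h7 : cod (s j) c ≠ 0 := (M06_cod_ne' _ _ y).2 (Or.inl h1)
      exact ⟨⟨j, h7⟩, h6, j, by rw [hj]; exact M06_nbM_ne y, h7⟩

theorem cnt_lP (s : Fin 4 → Comp) (i : Fin 4) (x : Bool) :
    cnt s (lP i x.toNat) = ((s i) x \ (s i) (!x)).card := by
  unfold cnt
  congr 1
  ext c
  rw [Finset.mem_filter, M06_inP, mem_U, Finset.mem_sdiff]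
  have hi : nib (lP i x.toNat) i = 2 ^ (x.toNat + 1) := by
    rw [M06_nib_lP i x i, if_pos rfl]
  have hk : ∀ k : Fin 4, k ≠ i → nib (lP i x.toNat) k = 15 := by
    intro k h1
    rw [M06_nib_lP i x k, if_neg h1]
  constructor
  · rintro ⟨-, h1, -⟩
    have h4 := h1 i
    rw [hi, M06_tbL] at h4
    exact h4
  · intro h1
    have h7 : cod (s i) c ≠ 0 := (M06_cod_ne' _ _ x).2 (Or.inl h1.1)
    refine ⟨⟨i, h7⟩, ?_, i, by rw [hi]; exact M06_pow_ne x, h7⟩
    intro k
    by_cases hki : k = i
    · rw [hki, hi, M06_tbL]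
      exact h1
    · rw [hk k hki]
      exact M06_tb15 _ _

theorem has_iff (R : List ℕ) (l : ℕ) : has R l = true ↔ l ∈ R := by
  unfold has
  rw [List.any_eq_true]
  constructor
  · rintro ⟨a, h1, h2⟩
    rw [Nat.beq_eq] at h2
    rw [h2]
    exact h1
  · intro h
    exact ⟨l, h, by rw [Nat.beq_eq]⟩

/-- a non-empty pattern -/
theorem isN_sound (s : Fin 4 → Comp) (R : List ℕ) (hs : ∀ l ∈ R, satL s l) (A : ℕ)
    (h : isN R A = true) : 1 ≤ cnt s A := by
  unfold isN at h
  rw [Bool.or_eq_true, has_iff, has_iff] at h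
  rcases h with h | h
  · have h1 := (hs _ h).1 (by omega)
    have h2 : 4 * A / 4 = A := by omega
    rwa [h2] at h1
  · have h1 := (hs _ h).2.1 (by omega)
    have h2 : (4 * A + 1) / 4 = A := by omega
    rw [h2] at h1
    omega

private theorem M06_kill (R : List ℕ) (t : ℕ) (h : (kill R).testBit t = true) :
    ∃ l ∈ R, l % 4 = 2 ∧ (mk 1 (l / 4)).testBit t = true := by
  induction R with
  | nil =>
    change Nat.testBit 0 t = true at h
    rw [Nat.zero_testBit] at h
    exact absurd h (by decide)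
  | cons a R ih =>
    have h1 : kill (a :: R) = bif Nat.beq (a % 4) 2 then Nat.lor (mk 1 (a / 4)) (kill R)
      else kill R := rfl
    rw [h1] at h
    by_cases h2 : a % 4 = 2
    · have h3 : Nat.beq (a % 4) 2 = true := by rw [Nat.beq_eq]; exact h2
      rw [h3, cond_true] at h
      have h4 : Nat.testBit (mk 1 (a / 4) ||| kill R) t = true := h
      rw [Nat.testBit_or, Bool.or_eq_true] at h4
      rcases h4 with h4 | h4
      · exact ⟨a, List.mem_cons_self, h2, h4⟩
      · obtain ⟨l, h5, h6⟩ := ih h4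
        exact ⟨l, List.mem_cons_of_mem _ h5, h6⟩
    · have h3 : Nat.beq (a % 4) 2 = false := by
        rw [Bool.eq_false_iff]
        intro h4
        rw [Nat.beq_eq] at h4
        exact h2 h4
      rw [h3, cond_false] at h
      obtain ⟨l, h5, h6⟩ := ih h
      exact ⟨l, List.mem_cons_of_mem _ h5, h6⟩

/-- a pattern which is excluded by the region (use `testBit_mk` of M05: here as a hypothesis) -/
theorem isE_sound (hmk : ∀ A t, t < 256 → (mk 1 A).testBit t = inP A t) (s : Fin 4 → Comp)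
    (R : List ℕ) (hs : ∀ l ∈ R, satL s l) (A : ℕ) (h : isE (kill R) A = true) : cnt s A = 0 := by
  unfold isE at h
  rw [Nat.beq_eq] at h
  unfold cnt
  rw [Finset.card_eq_zero, Finset.filter_eq_empty_iff]
  intro c hc hc'
  have h1 : (mk 1 A).testBit (typ s c) = true := by
    rw [hmk A _ (typ_lt s c)]
    exact hc'
  have h2 : Nat.testBit (mk 1 A &&& kill R) (typ s c) = true := by
    have h3 : mk 1 A &&& kill R = mk 1 A := h
    rw [h3]
    exact h1
  rw [Nat.testBit_and, Bool.and_eq_true] at h2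
  obtain ⟨l, h3, h4, h5⟩ := M06_kill R _ h2.2
  rw [hmk _ _ (typ_lt s c)] at h5
  have h6 := (hs l h3).2.2.1 h4
  unfold cnt at h6
  rw [Finset.card_eq_zero, Finset.filter_eq_empty_iff] at h6
  exact h6 hc h5

private theorem M06_lv (s : Fin 4 → Comp) (hOk : ∀ i, (s i).Ok) (A : ℕ) (h : A ∈ lvL) :
    1 ≤ cnt s A := by
  have key : ∀ (i : Fin 4) (x : Bool), 1 ≤ cnt s (lP i x.toNat) := by
    intro i x
    rw [cnt_lP]
    obtain ⟨c, h1, h2⟩ := hOk i x
    exact Finset.card_pos.2 ⟨c, Finset.mem_sdiff.2 ⟨h1, h2⟩⟩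
  unfold lvL at h
  simp only [List.mem_cons, List.not_mem_nil, or_false] at h
  rcases h with h | h | h | h | h | h | h | h
  · rw [h]
    exact key 0 false
  · rw [h]
    exact key 0 true
  · rw [h]
    exact key 1 false
  · rw [h]
    exact key 1 true
  · rw [h]
    exact key 2 false
  · rw [h]
    exact key 2 true
  · rw [h]
    exact key 3 false
  · rw [h]
    exact key 3 true

/-- a literal implied by a region holds -/
theorem impl_sound (hmk : ∀ A t, t < 256 → (mk 1 A).testBit t = inP A t) (s : Fin 4 → Comp)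
    (hOk : ∀ i, (s i).Ok) (R : List ℕ) (hs : ∀ l ∈ R, satL s l) (l : ℕ)
    (h : impl lvL R (kill R) l = true) : satL s l := by
  unfold impl at h
  rw [Bool.or_eq_true] at h
  rcases h with h | h
  · rw [has_iff] at h
    exact hs l h
  have hl : l % 4 = 0 ∨ l % 4 = 1 ∨ l % 4 = 2 ∨ l % 4 = 3 := by omega
  rcases hl with hl | hl | hl | hl
  · have h1 : Nat.beq (l % 4) 0 = true := by rw [Nat.beq_eq]; exact hl
    rw [h1, cond_true, Bool.or_eq_true, has_iff, has_iff] at h
    refine ⟨fun _ => ?_, fun h2 => by omega, fun h2 => by omega, fun h2 => by omega⟩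
    rcases h with h | h
    · have h2 := (hs _ h).2.1 (by omega)
      have h3 : (l + 1) / 4 = l / 4 := by omega
      rw [h3] at h2
      omega
    · exact M06_lv s hOk _ h
  · have h1 : Nat.beq (l % 4) 0 = false := by rw [hl]; rfl
    have h2 : Nat.beq (l % 4) 1 = true := by rw [hl]; rfl
    rw [h1, cond_false, h2, cond_true] at h
    exact absurd h (by decide)
  · have h1 : Nat.beq (l % 4) 0 = false := by rw [hl]; rfl
    have h2 : Nat.beq (l % 4) 1 = false := by rw [hl]; rfl
    have h3 : Nat.beq (l % 4) 2 = true := by rw [hl]; rfl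
    rw [h1, cond_false, h2, cond_false, h3, cond_true] at h
    refine ⟨fun h2 => by omega, fun h2 => by omega, fun _ => ?_, fun h2 => by omega⟩
    exact isE_sound hmk s R hs _ h
  · have h1 : Nat.beq (l % 4) 0 = false := by rw [hl]; rfl
    have h2 : Nat.beq (l % 4) 1 = false := by rw [hl]; rfl
    have h3 : Nat.beq (l % 4) 2 = false := by rw [hl]; rfl
    rw [h1, cond_false, h2, cond_false, h3, cond_false, Bool.or_eq_true, has_iff] at h
    refine ⟨fun h2 => by omega, fun h2 => by omega, fun h2 => by omega, fun _ => ?_⟩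
    rcases h with h | h
    · have h4 := (hs _ h).2.2.1 (by omega)
      have h5 : (l - 1) / 4 = l / 4 := by omega
      rw [h5] at h4
      omega
    · rw [isE_sound hmk s R hs _ h]
      exact Nat.zero_le _

end Pool.Agent.Helper22.QC
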