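import Pool.Agent.Helper22.QC.Lem.M04
import Pool.Agent.Helper22.QC.Lem.M05
import Pool.Agent.Helper22.QC.Lem.M06

/-! # Semantics of the terms of an ordinary leaf -/

namespace Pool.Agent.Helper22.QC

open Finset
open Pool.Agent.Helper2.OC

theorem fd_lt (x i : ℕ) : fd x i < 2 ^ 24 := by
  unfold fd
  exact Nat.mod_lt _ (by norm_num)

theorem M07.sp_lt (x i : ℕ) : sp (fd x i) < 2 ^ 24 := by
  unfold sp
  cases h : Nat.ble 8388608 (fd x i)
  · rw [cond_false]
    exact fd_lt x i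
  · rw [cond_true]
    norm_num

theorem M07.getD_le (B : ℕ) : ∀ (l : List ℕ), (∀ w ∈ l, w ≤ B) → ∀ j, l.getD j 0 ≤ B
  | [], _, _ => by
    rw [List.getD_nil]
    exact Nat.zero_le _
  | a :: l, h, 0 => by
    rw [List.getD_cons_zero]
    exact h a List.mem_cons_self
  | a :: l, h, j + 1 => by
    rw [List.getD_cons_succ]
    exact M07.getD_le B l (fun w hw => h w (List.mem_cons_of_mem _ hw)) j

theorem M07.mx_le {a b B : ℕ} (ha : a ≤ B) (hb : b ≤ B) : mx a b ≤ B := by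
  unfold mx
  cases Nat.ble a b
  · exact ha
  · exact hb

theorem M07.wOne_le {cov c0 c1 p0 m0 p1 m1 lp lm : ℕ} (b0 b1 : Bool) (h : cov ≤ 2 ^ 27)
    (h0 : c0 ≤ 2 ^ 24) (h1 : c1 ≤ 2 ^ 24) (h2 : p0 ≤ 2 ^ 24) (h3 : p1 ≤ 2 ^ 24)
    (h4 : lm ≤ 2 ^ 24) : wOne cov c0 c1 p0 m0 p1 m1 lp lm b0 b1 ≤ 2 ^ 27 := by
  unfold wOne
  refine M07.mx_le h (M07.mx_le ?_ ?_)
  · cases b0
    · exact Nat.zero_le _
    · show c0 + p0 + lm - (m0 + lp) ≤ 2 ^ 27
      omega
  · cases b1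
    · exact Nat.zero_le _
    · show c1 + p1 + lm - (m1 + lp) ≤ 2 ^ 27
      omega

theorem M07.wts_le (P : Pot) (hlm : ∀ i, P.lm.getD i 0 ≤ 2 ^ 24) (c : TC)
    (h1 : c.l00 ≤ 2 ^ 24) (h2 : c.l01 ≤ 2 ^ 24) (h3 : c.l10 ≤ 2 ^ 24) (h4 : c.l11 ≤ 2 ^ 24)
    (h5 : c.p0 ≤ 2 ^ 24) (h6 : c.p1 ≤ 2 ^ 24) (h7 : c.p2 ≤ 2 ^ 24) (h8 : c.p3 ≤ 2 ^ 24) (j : ℕ) :
    (wts P mAll c).getD j 0 ≤ 2 ^ 27 := by
  refine M07.getD_le _ _ ?_ j
  intro w hw
  simp only [wts, List.mem_cons, List.not_mem_nil, or_false] at hw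
  rcases hw with hw | hw | hw | hw | hw | hw | hw | hw | hw | hw | hw | hw | hw | hw | hw | hw |
    hw | hw | hw | hw
  · omega
  · omega
  · omega
  · omega
  · rw [hw]; exact M07.wOne_le _ _ (by omega) h1 h3 h5 h6 (hlm _)
  · rw [hw]; exact M07.wOne_le _ _ (by omega) h1 h3 h5 h6 (hlm _)
  · rw [hw]; exact M07.wOne_le _ _ (by omega) h2 h4 h5 h6 (hlm _)
  · rw [hw]; exact M07.wOne_le _ _ (by omega) h2 h4 h5 h6 (hlm _)
  · rw [hw]; exact M07.wOne_le _ _ (Nat.zero_le _) (Nat.zero_le _) (Nat.zero_le _) h5 h6 (hlm _)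
  · rw [hw]; exact M07.wOne_le _ _ (Nat.zero_le _) (Nat.zero_le _) (Nat.zero_le _) h5 h6 (hlm _)
  · rw [hw]; exact M07.wOne_le _ _ (Nat.zero_le _) (Nat.zero_le _) (Nat.zero_le _) h5 h6 (hlm _)
  · rw [hw]; exact M07.wOne_le _ _ (Nat.zero_le _) (Nat.zero_le _) (Nat.zero_le _) h5 h6 (hlm _)
  · rw [hw]; exact M07.wOne_le _ _ (by omega) h1 h2 h7 h8 (hlm _)
  · rw [hw]; exact M07.wOne_le _ _ (by omega) h1 h2 h7 h8 (hlm _)
  · rw [hw]; exact M07.wOne_le _ _ (by omega) h3 h4 h7 h8 (hlm _)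
  · rw [hw]; exact M07.wOne_le _ _ (by omega) h3 h4 h7 h8 (hlm _)
  · rw [hw]; exact M07.wOne_le _ _ (Nat.zero_le _) (Nat.zero_le _) (Nat.zero_le _) h7 h8 (hlm _)
  · rw [hw]; exact M07.wOne_le _ _ (Nat.zero_le _) (Nat.zero_le _) (Nat.zero_le _) h7 h8 (hlm _)
  · rw [hw]; exact M07.wOne_le _ _ (Nat.zero_le _) (Nat.zero_le _) (Nat.zero_le _) h7 h8 (hlm _)
  · rw [hw]; exact M07.wOne_le _ _ (Nat.zero_le _) (Nat.zero_le _) (Nat.zero_le _) h7 h8 (hlm _)

theorem M07.kindOf_le (x y : ℕ) : kindOf x y ≤ 11 := by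
  unfold kindOf
  split_ifs <;> omega

theorem M07.tb {k : ℕ} (hk : k ≤ 11) : Nat.testBit 4095 k = true := by
  interval_cases k <;> decide

theorem M07.kinds {m f m' f' r t : Comp} {o' σ : Bool} {k : ℕ}
    (h : nkind m f m' f' r t o' σ k) : Nat.testBit 4095 k = true := by
  refine M07.tb ?_
  rcases h with ⟨h, -⟩ | ⟨c, -, h⟩
  · omega
  · rw [h]
    split_ifs
    · omega
    · omega
    · exact M07.kindOf_le _ _

/-- a side of the merge without private colour gets a new colour -/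
theorem M07.eM_le {p q f : Comp} {o : Bool} (hf : Fix1 (mrg p q o) f) (σ : Bool) :
    eM p q o σ ≤ xn (mrg p q o) f σ := by
  obtain ⟨χ, h1, h2⟩ := hf
  unfold eM xn
  by_cases hs : slot p q σ (xor σ o) = ∅
  · rw [if_pos hs, if_neg]
    intro hn
    have h3 : χ σ ∈ mrg p q o σ := by
      by_contra h
      have h4 : χ σ ∈ newc (mrg p q o) f σ := by
        unfold newc
        rw [mem_sdiff, h1 σ]
        exact ⟨mem_insert_self _ _, h⟩
      rw [hn] at h4
      exact absurd h4 (notMem_empty _)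
    have h4 : χ σ ∉ mrg p q o (!σ) := by
      intro h
      refine h2 σ ?_
      rw [h1 (!σ)]
      exact mem_insert_of_mem h
    have h5 : χ σ ∈ slot p q σ (xor σ o) := by
      unfold slot
      rw [mem_sdiff]
      refine ⟨h3, fun h => h4 ?_⟩
      unfold mrg
      have h6 : (xor (!σ) o) = !(xor σ o) := by cases σ <;> cases o <;> rfl
      rw [h6]
      exact h
    rw [hs] at h5
    exact absurd h5 (notMem_empty _)
  · rw [if_neg hs]
    split_ifs <;> norm_num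

theorem M07.xn_le (m f : Comp) (σ : Bool) : xn m f σ ≤ 1 := by
  unfold xn
  split_ifs <;> norm_num

/-- private colours of the merge stay private -/
theorem M07.slot_sub {p q f : Comp} {o : Bool} (hf : Fix1 (mrg p q o) f) (σ : Bool) :
    slot p q σ (xor σ o) ⊆ f σ \ f (!σ) := by
  obtain ⟨χ, h1, h2⟩ := hf
  intro c hc
  unfold slot at hc
  rw [mem_sdiff] at hc
  have h3 : c ∈ f σ := by
    rw [h1 σ]
    exact mem_insert_of_mem hc.1
  rw [mem_sdiff]
  refine ⟨h3, ?_⟩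
  rw [h1 (!σ), mem_insert]
  rintro (h | h)
  · have h4 := h2 (!σ)
    rw [Bool.not_not, ← h] at h4
    exact h4 h3
  · refine hc.2 ?_
    have h6 : (xor (!σ) o) = !(xor σ o) := by cases σ <;> cases o <;> rfl
    unfold mrg at h
    rw [h6] at h
    exact h

theorem M07.not_mini {p q f : Comp} {o : Bool} (hf : Fix1 (mrg p q o) f) (σ : Bool)
    (h : 2 ≤ (slot p q σ (xor σ o)).card) : ¬ Mini f := by
  intro hm
  have h1 := card_le_card (M07.slot_sub hf σ)
  have h2 := hm σ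
  omega

/-- value which is certified by a term -/
def tVal (P : Pot) (s : Fin 4 → Comp) (x idx : ℕ) (i : Fin 3) (o o' : Bool) (f f' : Comp) : ℤ :=
  valZ P (s (pr i 0)) (s (pr i 1)) (s (pr i 2)) (s (pr i 3)) o o' f f' -
    ((sp (fd x (idx + 4)) : ℤ) * eM (s (pr i 0)) (s (pr i 1)) o false +
      (sp (fd x (idx + 5)) : ℤ) * eM (s (pr i 0)) (s (pr i 1)) o true +
      (sp (fd x (idx + 6)) : ℤ) * eM (s (pr i 2)) (s (pr i 3)) o' false +
      (sp (fd x (idx + 7)) : ℤ) * eM (s (pr i 2)) (s (pr i 3)) o' true)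

theorem M07.prlt : ∀ i : Fin 3, pr i 0 < pr i 1 ∧ pr i 2 < pr i 3 := by decide

theorem M07.mul {p m : ℕ} {e x : ℤ} (h : e ≤ x) (h1 : x ≤ 1) :
    (p : ℤ) * e - m ≤ ((p : ℤ) - m) * x := by
  have h2 : (p : ℤ) * e ≤ p * x := mul_le_mul_of_nonneg_left h (Int.natCast_nonneg p)
  have h3 : (m : ℤ) * x ≤ m * 1 := mul_le_mul_of_nonneg_left h1 (Int.natCast_nonneg m)
  rw [sub_mul]
  linarith

/-- Use `term_bound` with `V = U s`, `A = mAll` and `c = tcOf x idx`; if `eM = 1` then the side gets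
a new colour (`xn = 1`).  If a merge pattern has the literal `≥ 2` in `R` then that side of the fix
has at least two private colours (`slot (s a) (s b) σ (xor σ o) ⊆ f σ \ f (!σ)`). -/
theorem tAcc_sem (P : Pot) (hP : P.KB ≤ P.KE) (hlm : ∀ i, P.lm.getD i 0 ≤ 2 ^ 24)
    (s : Fin 4 → Comp) (R : List ℕ) (hs : ∀ l ∈ R, satL s l) (x idx : ℕ) (i : Fin 3) (o o' : Bool)
    (f f' : Comp) (hf : Fix1 (mrg (s (pr i 0)) (s (pr i 1)) o) f)
    (hf' : Fix1 (mrg (s (pr i 2)) (s (pr i 3)) o') f') :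
    Sem s (tAcc P R x (tdC i o o') idx) (tVal P s x idx i o o' f f') 1 := by
  have hle : ∀ k, fd x k ≤ 2 ^ 24 := fun k => (fd_lt x k).le
  have hsp : ∀ k, sp (fd x k) ≤ 2 ^ 24 := fun k => (M07.sp_lt x k).le
  refine ⟨fun t => (wts P mAll (tcOf x idx)).getD (cls i o o' t) 0, fun _ => 0, ?_, ?_, ?_, ?_, ?_⟩
  · exact dot_td _ rfl i o o'
  · exact pk_zero.symm
  · intro t
    rw [one_mul]
    exact M07.wts_le P hlm _ (hle _) (hle _) (hle _) (hle _) (hsp _) (hsp _) (hsp _) (hsp _) _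
  · intro t
    exact Nat.zero_le _
  · intro hok
    have hnb : ((tdC i o o').mp.any fun A => has R (4 * A + 1)) = true → ¬ (Mini f ∧ Mini f') := by
      intro h hm
      rw [List.any_eq_true] at h
      obtain ⟨A, hA, hR⟩ := h
      rw [has_iff] at hR
      have h2 : 2 ≤ cnt s A := by
        have h3 := (hs _ hR).2.1 (by omega)
        have h4 : (4 * A + 1) / 4 = A := by omega
        rwa [h4] at h3
      simp only [tdC, List.mem_cons, List.not_mem_nil, or_false] at hA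
      rcases hA with hA | hA | hA | hA
      · have h3 := cnt_mP s (pr i 0) (pr i 1) (M07.prlt i).1 false o
        rw [hA, show (0 : ℕ) = false.toNat from rfl, h3] at h2
        refine M07.not_mini hf false ?_ hm.1
        rwa [Bool.false_xor]
      · have h3 := cnt_mP s (pr i 0) (pr i 1) (M07.prlt i).1 true (!o)
        rw [hA, show (1 : ℕ) = true.toNat from rfl, h3] at h2
        refine M07.not_mini hf true ?_ hm.1
        rwa [Bool.true_xor]
      · have h3 := cnt_mP s (pr i 2) (pr i 3) (M07.prlt i).2 false o'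
        rw [hA, show (0 : ℕ) = false.toNat from rfl, h3] at h2
        refine M07.not_mini hf' false ?_ hm.2
        rwa [Bool.false_xor]
      · have h3 := cnt_mP s (pr i 2) (pr i 3) (M07.prlt i).2 true (!o')
        rw [hA, show (1 : ℕ) = true.toNat from rfl, h3] at h2
        refine M07.not_mini hf' true ?_ hm.2
        rwa [Bool.true_xor]
    have hk : KindsIn mAll (s (pr i 0)) (s (pr i 1)) (s (pr i 2)) (s (pr i 3)) o o' f f' :=
      ⟨fun _ h => M07.kinds h, fun _ h => M07.kinds h, fun _ h => M07.kinds h,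
        fun _ h => M07.kinds h⟩
    have hV : ∀ d, d ∉ U s → cod (s (pr i 0)) d = 0 ∧ cod (s (pr i 1)) d = 0 ∧
        cod (s (pr i 2)) d = 0 ∧ cod (s (pr i 3)) d = 0 := by
      intro d hd
      rw [mem_U] at hd
      push Not at hd
      exact ⟨hd _, hd _, hd _, hd _⟩
    have key := term_bound P hP _ mAll (tcOf x idx) (s (pr i 0)) (s (pr i 1)) (s (pr i 2))
      (s (pr i 3)) o o' f f' hf hf' hok hnb hk (U s) hV
    have hsum : ∑ d ∈ U s, ((wts P mAll (tcOf x idx)).getD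
        (clsC (s (pr i 0)) (s (pr i 1)) (s (pr i 2)) (s (pr i 3)) o o' d) 0 : ℤ) =
        ∑ c ∈ U s, ((((wts P mAll (tcOf x idx)).getD (cls i o o' (typ s c)) 0 : ℕ)) : ℤ) := by
      refine sum_congr rfl fun d _ => ?_
      rw [cls_typ]
    rw [hsum] at key
    have e0 := M07.mul (p := (tcOf x idx).p0) (m := (tcOf x idx).m0) (M07.eM_le hf false)
      (M07.xn_le _ _ _)
    have e1 := M07.mul (p := (tcOf x idx).p1) (m := (tcOf x idx).m1) (M07.eM_le hf true)
      (M07.xn_le _ _ _)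
    have e2 := M07.mul (p := (tcOf x idx).p2) (m := (tcOf x idx).m2) (M07.eM_le hf' false)
      (M07.xn_le _ _ _)
    have e3 := M07.mul (p := (tcOf x idx).p3) (m := (tcOf x idx).m3) (M07.eM_le hf' true)
      (M07.xn_le _ _ _)
    have hz : ∑ c ∈ U s, (((fun _ => 0 : ℕ → ℕ) (typ s c) : ℕ) : ℤ) = 0 := by
      simp
    rw [hz]
    have hga : ((tAcc P R x (tdC i o o') idx).ga : ℤ) = (tcOf x idx).l00 + (tcOf x idx).l01 +
        (tcOf x idx).l10 + (tcOf x idx).l11 := by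
      simp only [tAcc]
      push_cast
      ring
    have hlo : ((tAcc P R x (tdC i o o') idx).lo : ℤ) = (tcOf x idx).m0 + (tcOf x idx).m1 +
        (tcOf x idx).m2 + (tcOf x idx).m3 := by
      simp only [tAcc]
      push_cast
      ring
    rw [hga, hlo]
    unfold tVal
    have p0 : (tcOf x idx).p0 = sp (fd x (idx + 4)) := rfl
    have p1 : (tcOf x idx).p1 = sp (fd x (idx + 5)) := rfl
    have p2 : (tcOf x idx).p2 = sp (fd x (idx + 6)) := rfl
    have p3 : (tcOf x idx).p3 = sp (fd x (idx + 7)) := rfl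
    rw [← p0, ← p1, ← p2, ← p3]
    linarith

end Pool.Agent.Helper22.QC
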