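import Pool.Agent.Helper22.QC.Lem.M05
import Pool.Agent.Helper22.QC.Lem.M06

/-! # Semantics of the pairs, live sides and literals of a leaf -/

namespace Pool.Agent.Helper22.QC

open Finset
open Pool.Agent.Helper2.OC

/-- indicator of an empty merge side -/
def eS (p q : Comp) (x y : Bool) : ℤ := if slot p q x y = ∅ then 1 else 0

theorem M08.fd_lt (x i : ℕ) : fd x i < 2 ^ 24 := by
  unfold fd
  exact Nat.mod_lt _ (by norm_num)

/-- the sum of a pattern -/
theorem M08.sum_pat (s : Fin 4 → Comp) (A y : ℕ) :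
    ∑ c ∈ U s, (((if inP A (typ s c) = true then y else 0 : ℕ)) : ℤ) = y * cnt s A := by
  have h : ∀ c ∈ U s, (((if inP A (typ s c) = true then y else 0 : ℕ)) : ℤ) =
      if inP A (typ s c) = true then (y : ℤ) else 0 := by
    intro c _
    split_ifs
    · rfl
    · rfl
  rw [sum_congr rfl h, ← sum_filter, sum_const, nsmul_eq_mul, mul_comm]
  rfl

/-- a basic certificate with one pattern on the left -/
theorem M08.one (s : Fin 4 → Comp) (ok : Bool) (ga lo y A : ℕ) (v : ℤ) (hy : y ≤ 2 ^ 27)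
    (h : ok = true → (ga : ℤ) - lo - y * cnt s A ≤ v) : Sem s ⟨ok, ga, lo, ymk y A, 0⟩ v 1 := by
  refine ⟨fun t => if inP A t = true then y else 0, fun _ => 0, ymk_eq y A, pk_zero.symm, ?_, ?_,
    ?_⟩
  · intro t
    show (if inP A t = true then y else 0) ≤ 1 * 2 ^ 27
    split_ifs
    · omega
    · omega
  · intro t
    exact Nat.zero_le _
  · intro hok
    have h1 := h hok
    have h2 := M08.sum_pat s A y
    have h3 : ∑ c ∈ U s, (((fun _ => 0 : ℕ → ℕ) (typ s c) : ℕ) : ℤ) = 0 := by simp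
    show (ga : ℤ) - lo + ∑ c ∈ U s, (((fun _ => 0 : ℕ → ℕ) (typ s c) : ℕ) : ℤ) -
      ∑ c ∈ U s, (((if inP A (typ s c) = true then y else 0 : ℕ)) : ℤ) ≤ v
    rw [h2, h3]
    linarith

/-- a basic certificate with one pattern on the right -/
theorem M08.oneR (s : Fin 4 → Comp) (ok : Bool) (ga lo y A : ℕ) (v : ℤ) (hy : y ≤ 2 ^ 27)
    (h : ok = true → (ga : ℤ) - lo + y * cnt s A ≤ v) : Sem s ⟨ok, ga, lo, 0, ymk y A⟩ v 1 := by
  refine ⟨fun _ => 0, fun t => if inP A t = true then y else 0, pk_zero.symm, ymk_eq y A, ?_, ?_,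
    ?_⟩
  · intro t
    exact Nat.zero_le _
  · intro t
    show (if inP A t = true then y else 0) ≤ 1 * 2 ^ 27
    split_ifs
    · omega
    · omega
  · intro hok
    have h1 := h hok
    have h2 := M08.sum_pat s A y
    have h3 : ∑ c ∈ U s, (((fun _ => 0 : ℕ → ℕ) (typ s c) : ℕ) : ℤ) = 0 := by simp
    show (ga : ℤ) - lo + ∑ c ∈ U s, (((if inP A (typ s c) = true then y else 0 : ℕ)) : ℤ) -
      ∑ c ∈ U s, (((fun _ => 0 : ℕ → ℕ) (typ s c) : ℕ) : ℤ) ≤ v
    rw [h2, h3]
    linarith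

theorem M08.zero (s : Fin 4 → Comp) : Sem s ⟨true, 0, 0, 0, 0⟩ 0 0 := by
  refine ⟨fun _ => 0, fun _ => 0, pk_zero.symm, pk_zero.symm, fun _ => Nat.zero_le _,
    fun _ => Nat.zero_le _, fun _ => ?_⟩
  simp

theorem M08.ymkL_eq (y : ℕ) : ∀ l : List ℕ, ymkL y l =
    pk fun t => (l.map fun A => if inP A t = true then y else 0).sum
  | [] => by
    simp only [ymkL, List.map_nil, List.sum_nil]
    exact pk_zero.symm
  | A :: l => by
    simp only [ymkL, List.map_cons, List.sum_cons]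
    rw [M08.ymkL_eq y l, ymk_eq]
    exact (pk_add _ _).symm

theorem M08.satcnt {s : Fin 4 → Comp} {R : List ℕ} (hs : ∀ l ∈ R, satL s l) {A : ℕ}
    (h : has R (4 * A + 3) = true) : cnt s A ≤ 1 := by
  rw [has_iff] at h
  have h1 := (hs _ h).2.2.2 (by omega)
  have h2 : (4 * A + 3) / 4 = A := by omega
  rwa [h2] at h1

theorem M08.satcnt2 {s : Fin 4 → Comp} {R : List ℕ} (hs : ∀ l ∈ R, satL s l) {A : ℕ}
    (h : has R (4 * A + 1) = true) : 2 ≤ cnt s A := by
  rw [has_iff] at h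
  have h1 := (hs _ h).2.1 (by omega)
  have h2 : (4 * A + 1) / 4 = A := by omega
  rwa [h2] at h1

/-- indicator of an empty pattern -/
def M08.ez (s : Fin 4 → Comp) (A : ℕ) : ℤ := if cnt s A = 0 then 1 else 0

theorem M08.ez_slot (s : Fin 4 → Comp) (i j : Fin 4) (hij : i < j) (x y : Bool) :
    M08.ez s (mP i x.toNat j y.toNat) = eS (s i) (s j) x y := by
  unfold M08.ez eS
  rw [cnt_mP s i j hij x y]
  by_cases h : slot (s i) (s j) x y = ∅
  · rw [if_pos h, if_pos (by rw [h]; rfl)]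
  · rw [if_neg h, if_neg (fun h' => h (card_eq_zero.1 h'))]

theorem M08.z_sem (s : Fin 4 → Comp) (R : List ℕ) (hs : ∀ l ∈ R, satL s l) (x κ : ℕ)
    (z : ℕ × ℕ × ℕ) (j : ℕ) :
    Sem s (zAcc R (kill R) x κ z j)
      ((((sp (fd x z.2.1) : ℤ) + sp (fd x z.2.2)) - κ) * M08.ez s z.1) 1 := by
  have hmu := M08.fd_lt x j
  unfold zAcc
  set mu := fd x j with hmudef
  set om : ℕ := sp (fd x z.2.1) + sp (fd x z.2.2) with hom
  have homz : ((sp (fd x z.2.1) : ℤ) + sp (fd x z.2.2)) = (om : ℤ) := by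
    rw [hom]
    push_cast
    ring
  rw [homz]
  show Sem s (bif isE (kill R) z.1 then ⟨true, om, κ, ymk mu z.1, 0⟩
    else bif isN R z.1 then ⟨true, mu, 0, ymk mu z.1, 0⟩
    else ⟨true, mu, κ + mu - om, ymk mu z.1, 0⟩) (((om : ℤ) - κ) * M08.ez s z.1) 1
  cases h1 : isE (kill R) z.1
  · rw [cond_false]
    cases h2 : isN R z.1
    · rw [cond_false]
      refine M08.one s _ _ _ _ _ _ (by omega) fun _ => ?_
      unfold M08.ez
      by_cases hc : cnt s z.1 = 0
      · rw [if_pos hc, hc]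
        have h3 : ((κ + mu - om : ℕ) : ℤ) ≥ κ + mu - om := by omega
        push_cast
        linarith
      · rw [if_neg hc]
        have h4 : (1 : ℤ) ≤ cnt s z.1 := by
          have : 1 ≤ cnt s z.1 := Nat.one_le_iff_ne_zero.2 hc
          exact_mod_cast this
        have h5 : (mu : ℤ) * 1 ≤ mu * cnt s z.1 :=
          mul_le_mul_of_nonneg_left h4 (Int.natCast_nonneg _)
        have h6 : (0 : ℤ) ≤ ((κ + mu - om : ℕ) : ℤ) := Int.natCast_nonneg _
        rw [mul_zero]
        linarith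
    · rw [cond_true]
      refine M08.one s _ _ _ _ _ _ (by omega) fun _ => ?_
      have h3 := isN_sound s R hs _ h2
      unfold M08.ez
      rw [if_neg (by omega)]
      have h4 : (1 : ℤ) ≤ cnt s z.1 := by exact_mod_cast h3
      have h5 : (mu : ℤ) * 1 ≤ mu * cnt s z.1 :=
        mul_le_mul_of_nonneg_left h4 (Int.natCast_nonneg _)
      rw [mul_zero]
      push_cast
      linarith
  · rw [cond_true]
    refine M08.one s _ _ _ _ _ _ (by omega) fun _ => ?_
    have h3 := isE_sound testBit_mk s R hs _ h1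
    unfold M08.ez
    rw [if_pos h3, h3]
    push_cast
    linarith

theorem M08.cntN_ge (s : Fin 4 → Comp) (R : List ℕ) (hs : ∀ l ∈ R, satL s l) :
    ∀ l : List (ℕ × ℕ × ℕ), (l.map fun z => M08.ez s z.1).sum ≤ (cntN R l : ℤ)
  | [] => by simp [cntN]
  | z :: l => by
    have ih := M08.cntN_ge s R hs l
    rw [List.map_cons, List.sum_cons]
    have h : M08.ez s z.1 ≤ ((bif isN R z.1 then 0 else 1 : ℕ) : ℤ) := by
      unfold M08.ez
      cases h2 : isN R z.1
      · rw [cond_false]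
        split_ifs <;> norm_num
      · have h3 := isN_sound s R hs _ h2
        rw [cond_true, if_neg (by omega)]
        norm_num
    simp only [cntN]
    push_cast
    linarith

theorem M08.cntN_le (R : List ℕ) : ∀ l : List (ℕ × ℕ × ℕ), cntN R l ≤ l.length
  | [] => le_refl _
  | z :: l => by
    have ih := M08.cntN_le R l
    have h : (bif isN R z.1 then 0 else 1 : ℕ) ≤ 1 := by
      cases isN R z.1
      · exact le_refl _
      · exact Nat.zero_le _
    rw [List.length_cons]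
    simp only [cntN]
    omega

theorem M08.emp_eq (p q : Comp) : (emp p q : ℤ) =
    eS p q false false + (eS p q false true + (eS p q true false + eS p q true true)) := by
  unfold emp eS
  simp only [Fintype.sum_bool]
  push_cast
  ring

theorem M08.emp_mul (t e K1 : ℤ) (h : t ≤ K1) (he : 1 ≤ e) : K1 ≤ t + (K1 - t) * e := by
  nlinarith

/-- the pair inequality -/
theorem M08.pair (P : Pot) (hP : P.KB ≤ P.KE) (s : Fin 4 → Comp) (hOk : ∀ i, (s i).Ok)
    (R : List ℕ) (hs : ∀ l ∈ R, satL s l) (i j : Fin 4) (hij : i < j) (θ b : ℕ)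
    (hθ : θ ≤ P.K1) (hb : b ≤ P.KB) (nb both : Bool) (N : ℕ) (hN : (emp (s i) (s j) : ℤ) ≤ N)
    (hnb : nb = true → ∃ A ∈ [lP i 0, lP i 1, lP j 0, lP j 1], 2 ≤ cnt s A)
    (hboth : both = true → ∀ A ∈ [lP i 0, lP i 1, lP j 0, lP j 1], cnt s A ≤ 1) :
    ((8 * (bif nb || both then 0 else b * N) : ℕ) : ℤ) - ((2 * θ : ℕ) : ℤ) -
      (2 * ((bif nb || both then 0 else b * N : ℕ) : ℤ)) *
        (cnt s (lP i 0) + (cnt s (lP i 1) + (cnt s (lP j 0) + (cnt s (lP j 1) : ℤ)))) ≤
    ((2 * (P.KE + P.K1 - ((bif nb then 0 else bif both then P.KB else b) + θ)) : ℕ) : ℤ) *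
      emp (s i) (s j) - 2 * KK P (s i) (s j) := by
  have c0 : ∀ (i : Fin 4), cnt s (lP i 0) = ((s i) false \ (s i) true).card :=
    fun i => cnt_lP s i false
  have c1 : ∀ (i : Fin 4), cnt s (lP i 1) = ((s i) true \ (s i) false).card :=
    fun i => cnt_lP s i true
  have g0 : ∀ i : Fin 4, 1 ≤ cnt s (lP i 0) := by
    intro i
    rw [c0]
    obtain ⟨c, h1, h2⟩ := hOk i false
    exact card_pos.2 ⟨c, mem_sdiff.2 ⟨h1, h2⟩⟩
  have g1 : ∀ i : Fin 4, 1 ≤ cnt s (lP i 1) := by
    intro i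
    rw [c1]
    obtain ⟨c, h1, h2⟩ := hOk i true
    exact card_pos.2 ⟨c, mem_sdiff.2 ⟨h1, h2⟩⟩
  have mini : ∀ i, Mini (s i) ↔ cnt s (lP i 0) ≤ 1 ∧ cnt s (lP i 1) ≤ 1 := by
    intro i
    rw [c0, c1]
    unfold Mini
    constructor
    · intro h
      exact ⟨h false, h true⟩
    · rintro ⟨h1, h2⟩ σ
      cases σ
      · exact h1
      · exact h2
  have a0 := g0 i
  have a1 := g1 i
  have a2 := g0 j
  have a3 := g1 j
  have he0 : (0 : ℤ) ≤ emp (s i) (s j) := Int.natCast_nonneg _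
  have hK1 : (if emp (s i) (s j) = 0 then 0 else (P.K1 : ℤ)) ≤
      θ + ((P.K1 : ℤ) - θ) * emp (s i) (s j) := by
    by_cases h : emp (s i) (s j) = 0
    · rw [if_pos h, h]
      push_cast
      linarith [Int.natCast_nonneg θ]
    · rw [if_neg h]
      have h1 : (1 : ℤ) ≤ emp (s i) (s j) := by
        have : 1 ≤ emp (s i) (s j) := Nat.one_le_iff_ne_zero.2 h
        exact_mod_cast this
      have h2 : (θ : ℤ) ≤ P.K1 := by exact_mod_cast hθ
      exact M08.emp_mul _ _ _ h2 h1
  set e : ℤ := (emp (s i) (s j) : ℤ) with hedef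
  have hKB : (0 : ℤ) ≤ (P.KB : ℤ) * e := mul_nonneg (Int.natCast_nonneg _) he0
  have hbz : (b : ℤ) ≤ P.KB := by exact_mod_cast hb
  have hbe : (b : ℤ) * e ≤ P.KB * e := mul_le_mul_of_nonneg_right hbz he0
  have hbN : (b : ℤ) * e ≤ b * N := mul_le_mul_of_nonneg_left hN (Int.natCast_nonneg _)
  have hb0 : (0 : ℤ) ≤ (b : ℤ) * N := mul_nonneg (Int.natCast_nonneg _) (Int.natCast_nonneg _)
  have hKK : KK P (s i) (s j) = (P.KE : ℤ) * e + (if emp (s i) (s j) = 0 then 0 else (P.K1 : ℤ)) -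
    (if Mini (s i) ∧ Mini (s j) then (P.KB : ℤ) * e else 0) := rfl
  rw [hKK]
  cases nb
  · rw [Bool.false_or, cond_false]
    cases both
    · rw [cond_false, cond_false]
      have hsub : ((P.KE + P.K1 - (b + θ) : ℕ) : ℤ) = P.KE + P.K1 - (b + θ) := by omega
      push_cast
      rw [hsub]
      by_cases hm : Mini (s i) ∧ Mini (s j)
      · rw [if_pos hm]
        have hu : (4 : ℤ) ≤ (cnt s (lP i 0) + (cnt s (lP i 1) + (cnt s (lP j 0) +
            (cnt s (lP j 1) : ℤ)))) := by omega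
        have h1 : ((b : ℤ) * N) * 4 ≤ ((b : ℤ) * N) * (cnt s (lP i 0) + (cnt s (lP i 1) +
            (cnt s (lP j 0) + (cnt s (lP j 1) : ℤ)))) := mul_le_mul_of_nonneg_left hu hb0
        have h3 : 2 * ((P.KE : ℤ) + P.K1 - (b + θ)) * e = 2 * (P.KE * e) + 2 * ((P.K1 - θ) * e)
          - 2 * (b * e) := by ring
        rw [h3]
        linarith
      · rw [if_neg hm]
        have hu : (5 : ℤ) ≤ (cnt s (lP i 0) + (cnt s (lP i 1) + (cnt s (lP j 0) +
            (cnt s (lP j 1) : ℤ)))) := by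
          rw [mini, mini] at hm
          omega
        have h1 : ((b : ℤ) * N) * 5 ≤ ((b : ℤ) * N) * (cnt s (lP i 0) + (cnt s (lP i 1) +
            (cnt s (lP j 0) + (cnt s (lP j 1) : ℤ)))) := mul_le_mul_of_nonneg_left hu hb0
        have h3 : 2 * ((P.KE : ℤ) + P.K1 - (b + θ)) * e = 2 * (P.KE * e) + 2 * ((P.K1 - θ) * e)
          - 2 * (b * e) := by ring
        rw [h3]
        linarith
    · rw [cond_true, cond_true]
      have hB := hboth rfl
      have hm : Mini (s i) ∧ Mini (s j) := by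
        rw [mini, mini]
        exact ⟨⟨hB _ (by simp), hB _ (by simp)⟩, hB _ (by simp), hB _ (by simp)⟩
      rw [if_pos hm]
      have hsub : ((P.KE + P.K1 - (P.KB + θ) : ℕ) : ℤ) = P.KE + P.K1 - (P.KB + θ) := by omega
      push_cast
      rw [hsub]
      have h3 : 2 * ((P.KE : ℤ) + P.K1 - (P.KB + θ)) * e =
        2 * (P.KE * e) + 2 * ((P.K1 - θ) * e) - 2 * (P.KB * e) := by ring
      rw [h3]
      linarith
  · rw [Bool.true_or, cond_true, cond_true]
    obtain ⟨A, hA, hA2⟩ := hnb rfl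
    have hm : ¬ (Mini (s i) ∧ Mini (s j)) := by
      rw [mini, mini]
      rintro ⟨⟨h1, h2⟩, h3, h4⟩
      simp only [List.mem_cons, List.not_mem_nil, or_false] at hA
      rcases hA with hA | hA | hA | hA
      · rw [hA] at hA2; omega
      · rw [hA] at hA2; omega
      · rw [hA] at hA2; omega
      · rw [hA] at hA2; omega
    rw [if_neg hm]
    have hsub : ((P.KE + P.K1 - (0 + θ) : ℕ) : ℤ) = P.KE + P.K1 - θ := by omega
    push_cast at hsub ⊢
    rw [hsub]
    have h3 : 2 * ((P.KE : ℤ) + P.K1 - θ) * e =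
      2 * (P.KE * e) + 2 * ((P.K1 - θ) * e) := by ring
    rw [h3]
    linarith

/-- Pair inequality.  With `e = emp (s i) (s j) = Σ eS`, `u = Σ (live sides) card - 4 ≥ 0`:
`KK = KE e + K1 [e ≠ 0] - KB e [Mini, Mini]`, `K1 [e ≠ 0] ≤ θ + (K1 - θ) e`, and
`KE e - KB e [Mini, Mini] ≤ (KE - bb) e + ut u` (three cases: `nb`: not both minimal, `bb = 0`;
`both`: both minimal, `bb = KB`; otherwise `bb = b`, `ut = b * cntN`, `e ≤ cntN`). -/
theorem pAcc_sem (P : Pot) (hP : P.KB ≤ P.KE) (s : Fin 4 → Comp) (hOk : ∀ i, (s i).Ok)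
    (R : List ℕ) (hs : ∀ l ∈ R, satL s l) (x p : ℕ) (i j : Fin 4) (hij : i < j) (ix : List ℕ) :
    Sem s (pAcc P R (kill R) x (pdC i j ix) p)
      (-2 * KK P (s i) (s j) +
        (((sp (fd x (ix.getD 0 0)) : ℤ) + sp (fd x (ix.getD 1 0))) * eS (s i) (s j) false false +
         ((sp (fd x (ix.getD 2 0)) : ℤ) + sp (fd x (ix.getD 3 0))) * eS (s i) (s j) false true +
         ((sp (fd x (ix.getD 4 0)) : ℤ) + sp (fd x (ix.getD 5 0))) * eS (s i) (s j) true false +
         ((sp (fd x (ix.getD 6 0)) : ℤ) + sp (fd x (ix.getD 7 0))) * eS (s i) (s j) true true))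
      8 := by
  have z00 : M08.ez s (mP i 0 j 0) = eS (s i) (s j) false false := M08.ez_slot s i j hij false false
  have z01 : M08.ez s (mP i 0 j 1) = eS (s i) (s j) false true := M08.ez_slot s i j hij false true
  have z10 : M08.ez s (mP i 1 j 0) = eS (s i) (s j) true false := M08.ez_slot s i j hij true false
  have z11 : M08.ez s (mP i 1 j 1) = eS (s i) (s j) true true := M08.ez_slot s i j hij true true
  set θ := fd x (96 + p) with hθ
  set b := fd x (102 + p) with hb
  set nb : Bool := (pdC i j ix).lz.any fun A => has R (4 * A + 1) with hnb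
  set both : Bool := (pdC i j ix).lz.all fun A => has R (4 * A + 3) with hboth
  set N : ℕ := cntN R (pdC i j ix).mz with hNdef
  set ut : ℕ := bif nb || both then 0 else b * N with hut
  set κ : ℕ := 2 * (P.KE + P.K1 - ((bif nb then 0 else bif both then P.KB else b) + θ)) with hκ
  have hshape : pAcc P R (kill R) x (pdC i j ix) p =
      (Acc.mk (Nat.ble θ P.K1 && Nat.ble b P.KB) (8 * ut) (2 * θ)
        (ymkL (2 * ut) (pdC i j ix).lz) 0).add
      ((zAcc R (kill R) x κ (mP i 0 j 0, ix.getD 0 0, ix.getD 1 0) (116 + 4 * p)).add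
        ((zAcc R (kill R) x κ (mP i 0 j 1, ix.getD 2 0, ix.getD 3 0) (116 + 4 * p + 1)).add
          ((zAcc R (kill R) x κ (mP i 1 j 0, ix.getD 4 0, ix.getD 5 0) (116 + 4 * p + 1 + 1)).add
            ((zAcc R (kill R) x κ (mP i 1 j 1, ix.getD 6 0, ix.getD 7 0)
              (116 + 4 * p + 1 + 1 + 1)).add ⟨true, 0, 0, 0, 0⟩)))) := rfl
  rw [hshape]
  have hlen : N ≤ 4 := M08.cntN_le R _
  have hb24 : b < 2 ^ 24 := M08.fd_lt x _
  have hut4 : ut ≤ 2 ^ 26 := by
    rw [hut]
    cases nb || both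
    · rw [cond_false]
      have : b * N ≤ 2 ^ 24 * 4 := Nat.mul_le_mul hb24.le hlen
      omega
    · rw [cond_true]
      exact Nat.zero_le _
  have hfirst : Sem s (Acc.mk (Nat.ble θ P.K1 && Nat.ble b P.KB) (8 * ut) (2 * θ)
      (ymkL (2 * ut) (pdC i j ix).lz) 0) ((κ : ℤ) * emp (s i) (s j) - 2 * KK P (s i) (s j)) 4 := by
    refine ⟨fun t => ((pdC i j ix).lz.map fun A => if inP A t = true then 2 * ut else 0).sum,
      fun _ => 0, M08.ymkL_eq _ _, pk_zero.symm, ?_, fun _ => Nat.zero_le _, ?_⟩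
    · intro t
      have h1 : ∀ A, (if inP A t = true then 2 * ut else 0) ≤ 2 * ut := by
        intro A
        split_ifs
        · exact le_refl _
        · exact Nat.zero_le _
      have a0 := h1 (lP i 0)
      have a1 := h1 (lP i 1)
      have a2 := h1 (lP j 0)
      have a3 := h1 (lP j 1)
      show ([lP i 0, lP i 1, lP j 0, lP j 1].map fun A =>
        if inP A t = true then 2 * ut else 0).sum ≤ 4 * 2 ^ 27
      simp only [List.map_cons, List.map_nil, List.sum_cons, List.sum_nil]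
      omega
    · intro hok
      simp only [Bool.and_eq_true, Nat.ble_eq] at hok
      have hN : (emp (s i) (s j) : ℤ) ≤ N := by
        have h1 := M08.cntN_ge s R hs (pdC i j ix).mz
        have h2 : ((pdC i j ix).mz.map fun z => M08.ez s z.1).sum =
            M08.ez s (mP i 0 j 0) + (M08.ez s (mP i 0 j 1) + (M08.ez s (mP i 1 j 0) +
              (M08.ez s (mP i 1 j 1) + 0))) := rfl
        rw [h2, z00, z01, z10, z11] at h1
        rw [M08.emp_eq]
        linarith
      have key := M08.pair P hP s hOk R hs i j hij θ b hok.1 hok.2 nb both N hN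
        (by
          intro h
          rw [hnb, List.any_eq_true] at h
          obtain ⟨A, hA, hA2⟩ := h
          exact ⟨A, hA, M08.satcnt2 hs hA2⟩)
        (by
          intro h A hA
          rw [hboth, List.all_eq_true] at h
          exact M08.satcnt hs (h A hA))
      rw [← hut, ← hκ] at key
      have hsum : ∑ c ∈ U s, ((((pdC i j ix).lz.map fun A =>
          if inP A (typ s c) = true then 2 * ut else 0).sum : ℕ) : ℤ) =
          (2 * (ut : ℤ)) * (cnt s (lP i 0) + (cnt s (lP i 1) + (cnt s (lP j 0) +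
            (cnt s (lP j 1) : ℤ)))) := by
        have h1 : ∀ c ∈ U s, ((((pdC i j ix).lz.map fun A =>
            if inP A (typ s c) = true then 2 * ut else 0).sum : ℕ) : ℤ) =
            (((if inP (lP i 0) (typ s c) = true then 2 * ut else 0 : ℕ)) : ℤ) +
            ((((if inP (lP i 1) (typ s c) = true then 2 * ut else 0 : ℕ)) : ℤ) +
            ((((if inP (lP j 0) (typ s c) = true then 2 * ut else 0 : ℕ)) : ℤ) +
            (((if inP (lP j 1) (typ s c) = true then 2 * ut else 0 : ℕ)) : ℤ))) := by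
          intro c _
          show ((([lP i 0, lP i 1, lP j 0, lP j 1].map fun A =>
            if inP A (typ s c) = true then 2 * ut else 0).sum : ℕ) : ℤ) = _
          rw [List.map_cons, List.map_cons, List.map_cons, List.map_cons, List.map_nil,
            List.sum_cons, List.sum_cons, List.sum_cons, List.sum_cons, List.sum_nil, add_zero,
            Nat.cast_add, Nat.cast_add, Nat.cast_add]
        rw [sum_congr rfl h1, sum_add_distrib, sum_add_distrib, sum_add_distrib, M08.sum_pat,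
          M08.sum_pat, M08.sum_pat, M08.sum_pat]
        push_cast
        ring
      have h3 : ∑ c ∈ U s, (((fun _ => 0 : ℕ → ℕ) (typ s c) : ℕ) : ℤ) = 0 := by simp
      show (((8 * ut : ℕ)) : ℤ) - ((2 * θ : ℕ) : ℤ) +
        ∑ c ∈ U s, (((fun _ => 0 : ℕ → ℕ) (typ s c) : ℕ) : ℤ) -
        ∑ c ∈ U s, ((((pdC i j ix).lz.map fun A =>
          if inP A (typ s c) = true then 2 * ut else 0).sum : ℕ) : ℤ) ≤ _
      rw [hsum, h3]
      linarith
  have s00 := M08.z_sem s R hs x κ (mP i 0 j 0, ix.getD 0 0, ix.getD 1 0) (116 + 4 * p)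
  have s01 := M08.z_sem s R hs x κ (mP i 0 j 1, ix.getD 2 0, ix.getD 3 0) (116 + 4 * p + 1)
  have s10 := M08.z_sem s R hs x κ (mP i 1 j 0, ix.getD 4 0, ix.getD 5 0) (116 + 4 * p + 1 + 1)
  have s11 := M08.z_sem s R hs x κ (mP i 1 j 1, ix.getD 6 0, ix.getD 7 0)
    (116 + 4 * p + 1 + 1 + 1)
  have tot := Sem.add hfirst (Sem.add s00 (Sem.add s01 (Sem.add s10 (Sem.add s11 (M08.zero s)
    pk_add) pk_add) pk_add) pk_add) pk_add
  have hval : (κ : ℤ) * emp (s i) (s j) - 2 * KK P (s i) (s j) +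
      ((((sp (fd x (ix.getD 0 0)) : ℤ) + sp (fd x (ix.getD 1 0))) - κ) * M08.ez s (mP i 0 j 0) +
      ((((sp (fd x (ix.getD 2 0)) : ℤ) + sp (fd x (ix.getD 3 0))) - κ) * M08.ez s (mP i 0 j 1) +
      ((((sp (fd x (ix.getD 4 0)) : ℤ) + sp (fd x (ix.getD 5 0))) - κ) * M08.ez s (mP i 1 j 0) +
      ((((sp (fd x (ix.getD 6 0)) : ℤ) + sp (fd x (ix.getD 7 0))) - κ) * M08.ez s (mP i 1 j 1) +
      0)))) =
      -2 * KK P (s i) (s j) +
        (((sp (fd x (ix.getD 0 0)) : ℤ) + sp (fd x (ix.getD 1 0))) * eS (s i) (s j) false false +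
         ((sp (fd x (ix.getD 2 0)) : ℤ) + sp (fd x (ix.getD 3 0))) * eS (s i) (s j) false true +
         ((sp (fd x (ix.getD 4 0)) : ℤ) + sp (fd x (ix.getD 5 0))) * eS (s i) (s j) true false +
         ((sp (fd x (ix.getD 6 0)) : ℤ) + sp (fd x (ix.getD 7 0))) * eS (s i) (s j) true true) := by
    rw [z00, z01, z10, z11, M08.emp_eq]
    ring
  rw [← hval]
  exact tot

theorem M08.vLoop (s : Fin 4 → Comp) (x : ℕ) : ∀ (l : List ℕ) (j : ℕ),
    (∀ A ∈ l, 1 ≤ cnt s A) → Sem s (vLoop x l j) 0 l.length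
  | [], _, _ => M08.zero s
  | A :: l, j, h => by
    have h1 : Sem s (Acc.mk true (fd x j) 0 (ymk (fd x j) A) 0) 0 1 := by
      refine M08.one s _ _ _ _ _ _ (by have := M08.fd_lt x j; omega) fun _ => ?_
      have h4 : (1 : ℤ) ≤ cnt s A := by exact_mod_cast h A List.mem_cons_self
      have h5 : (fd x j : ℤ) * 1 ≤ fd x j * cnt s A :=
        mul_le_mul_of_nonneg_left h4 (Int.natCast_nonneg _)
      push_cast
      linarith
    have h2 := M08.vLoop s x l (j + 1) fun B hB => h B (List.mem_cons_of_mem _ hB)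
    have h3 := Sem.add h1 h2 pk_add
    rw [List.length_cons, Nat.add_comm]
    rw [add_zero] at h3
    exact h3

theorem vLoop_sem (s : Fin 4 → Comp) (hOk : ∀ i, (s i).Ok) (x j : ℕ) :
    Sem s (vLoop x lvL j) 0 8 := by
  refine M08.vLoop s x lvL j ?_
  have key : ∀ (i : Fin 4) (x : Bool), 1 ≤ cnt s (lP i x.toNat) := by
    intro i x
    rw [cnt_lP]
    obtain ⟨c, h1, h2⟩ := hOk i x
    exact Finset.card_pos.2 ⟨c, Finset.mem_sdiff.2 ⟨h1, h2⟩⟩
  intro A hA
  unfold lvL at hA
  simp only [List.mem_cons, List.not_mem_nil, or_false] at hA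
  rcases hA with h | h | h | h | h | h | h | h
  · rw [h]
    exact key 0 false
  · rw [h]
    exact key 0 true
  · rw [h]
    exact key 1 false
  · rw [h]
    exact key 1 true
  · rw [h]
    exact key 2 false
  · rw [h]
    exact key 2 true
  · rw [h]
    exact key 3 false
  · rw [h]
    exact key 3 true

theorem M08.lAcc (s : Fin 4 → Comp) (l y : ℕ) (hy : y < 2 ^ 24) (h : satL s l) :
    Sem s (lAcc l y) 0 1 := by
  have hl : l % 4 = 0 ∨ l % 4 = 1 ∨ l % 4 = 2 ∨ l % 4 = 3 := by omega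
  unfold QC.lAcc
  rcases hl with hl | hl | hl | hl
  · rw [show Nat.beq (l % 4) 0 = true by rw [hl]; rfl, cond_true]
    refine M08.one s _ _ _ _ _ _ (by omega) fun _ => ?_
    have h4 : (1 : ℤ) ≤ cnt s (l / 4) := by exact_mod_cast h.1 hl
    have h5 : (y : ℤ) * 1 ≤ y * cnt s (l / 4) :=
      mul_le_mul_of_nonneg_left h4 (Int.natCast_nonneg _)
    push_cast
    linarith
  · rw [show Nat.beq (l % 4) 0 = false by rw [hl]; rfl, cond_false,
      show Nat.beq (l % 4) 1 = true by rw [hl]; rfl, cond_true]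
    refine M08.one s _ _ _ _ _ _ (by omega) fun _ => ?_
    have h4 : (2 : ℤ) ≤ cnt s (l / 4) := by exact_mod_cast h.2.1 hl
    have h5 : (y : ℤ) * 2 ≤ y * cnt s (l / 4) :=
      mul_le_mul_of_nonneg_left h4 (Int.natCast_nonneg _)
    push_cast
    linarith
  · rw [show Nat.beq (l % 4) 0 = false by rw [hl]; rfl, cond_false,
      show Nat.beq (l % 4) 1 = false by rw [hl]; rfl, cond_false,
      show Nat.beq (l % 4) 2 = true by rw [hl]; rfl, cond_true]
    refine M08.oneR s _ _ _ _ _ _ (by omega) fun _ => ?_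
    rw [h.2.2.1 hl]
    push_cast
    linarith
  · rw [show Nat.beq (l % 4) 0 = false by rw [hl]; rfl, cond_false,
      show Nat.beq (l % 4) 1 = false by rw [hl]; rfl, cond_false,
      show Nat.beq (l % 4) 2 = false by rw [hl]; rfl, cond_false]
    refine M08.oneR s _ _ _ _ _ _ (by omega) fun _ => ?_
    have h4 : (cnt s (l / 4) : ℤ) ≤ 1 := by exact_mod_cast h.2.2.2 hl
    have h5 : (y : ℤ) * cnt s (l / 4) ≤ y * 1 :=
      mul_le_mul_of_nonneg_left h4 (Int.natCast_nonneg _)
    push_cast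
    linarith

theorem lLoop_sem (s : Fin 4 → Comp) (R : List ℕ) (hs : ∀ l ∈ R, satL s l) (x j : ℕ) :
    Sem s (lLoop x R j) 0 R.length := by
  induction R generalizing j with
  | nil => exact M08.zero s
  | cons l R ih =>
    have h1 := M08.lAcc s l (fd x j) (M08.fd_lt x j) (hs l List.mem_cons_self)
    have h2 := ih (fun B hB => hs B (List.mem_cons_of_mem _ hB)) (j + 1)
    have h3 := Sem.add h1 h2 pk_add
    rw [List.length_cons, Nat.add_comm]
    rw [add_zero] at h3
    exact h3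

end Pool.Agent.Helper22.QC
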