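import Pool.Agent.Helper22.QC.Lem.M07
import Pool.Agent.Helper22.QC.Lem.M08

/-! # Soundness of ordinary leaves -/

namespace Pool.Agent.Helper22.QC

open Finset
open Pool.Agent.Helper2.OC

/-- final step, common to ordinary and special leaves: `v = Σ val - 2 Σ KK` -/
theorem accOK_sound (E : Env) (hE : EnvOK E) (s : Fin 4 → Comp) (a : Acc) (v : ℤ) (n : ℕ)
    (hn : n ≤ 2000) (ha : Sem s a v n) (h : accOK E.T E.GP a = true) :
    (E.T : ℤ) ≤ v + ∑ c ∈ U s, (gT E.P (typ s c) : ℤ) := by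
  obtain ⟨fL, fR, h1, h2, h3, h4, h5⟩ := ha
  unfold accOK at h
  simp only [Bool.and_eq_true] at h
  obtain ⟨⟨hok, hT⟩, hc⟩ := h
  have hT' : E.T + a.lo ≤ a.ga := Nat.le_of_ble_eq_true hT
  have h5' := h5 hok
  rw [h1, h2, hE.hGP, ← pk_add] at hc
  have hb : n * 2 ^ 27 ≤ 2000 * 2 ^ 27 := Nat.mul_le_mul_right _ hn
  have hcmp := cmpF_sound fL (fun t => fR t + gT E.P t)
    (fun t => by
      have := h3 t
      omega)
    (fun t => by
      have h6 := h4 t
      have h7 := hE.hG t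
      show fR t + gT E.P t < 2 ^ 39
      omega) hc
  have hs : ∑ c ∈ U s, (fL (typ s c) : ℤ) ≤
      ∑ c ∈ U s, (fR (typ s c) : ℤ) + ∑ c ∈ U s, (gT E.P (typ s c) : ℤ) := by
    rw [← Finset.sum_add_distrib]
    refine Finset.sum_le_sum fun c _ => ?_
    have := hcmp (typ s c) (typ_lt s c)
    have h6 : fL (typ s c) ≤ fR (typ s c) + gT E.P (typ s c) := this
    exact_mod_cast h6
  have hT'' : (E.T : ℤ) + a.lo ≤ a.ga := by exact_mod_cast hT'
  linarith

/-- the multipliers of the empty merge sides occur twice in the terms and once in the pairs -/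
theorem leaf_sound (E : Env) (hE : EnvOK E) (R : List ℕ) (hR : R.length ≤ 1000) (x : ℕ)
    (h : leafOK E R x = true) : Holds E.P E.T R := by
  intro s hOk hs F hF
  unfold leafOK at h
  rw [hE.htd, hE.hpd, hE.hlv] at h
  have ht : ∀ (i : Fin 3) (o o' : Bool) (idx : ℕ),
      Sem s (tAcc E.P R x (tdC i o o') idx)
        (tVal E.P s x idx i o o' (F i o o').1 (F i o o').2) 1 := fun i o o' idx =>
    tAcc_sem E.P hE.hKB hE.hlm s R hs x idx i o o' _ _ (hF i o o').1 (hF i o o').2
  have hp := fun (p : ℕ) (i j : Fin 4) (hij : i < j) (ix : List ℕ) =>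
    pAcc_sem E.P hE.hKB s hOk R hs x p i j hij ix
  have h0 : Sem s ⟨true, 0, 0, 0, 0⟩ 0 0 := by
    refine ⟨fun _ => 0, fun _ => 0, ?_, ?_, ?_, ?_, ?_⟩
    · exact pk_zero.symm
    · exact pk_zero.symm
    · intro t; exact Nat.zero_le _
    · intro t; exact Nat.zero_le _
    · intro _; simp
  have hT := (ht 0 false false 0).add ((ht 0 false true 8).add ((ht 0 true false 16).add
    ((ht 0 true true 24).add ((ht 1 false false 32).add ((ht 1 false true 40).add
    ((ht 1 true false 48).add ((ht 1 true true 56).add ((ht 2 false false 64).add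
    ((ht 2 false true 72).add ((ht 2 true false 80).add ((ht 2 true true 88).add h0
    pk_add) pk_add) pk_add) pk_add) pk_add) pk_add) pk_add) pk_add) pk_add) pk_add) pk_add) pk_add
  have hP := (hp 0 0 1 (by decide) [4, 12, 20, 28, 21, 29, 5, 13]).add
    ((hp 1 0 2 (by decide) [36, 44, 52, 60, 53, 61, 37, 45]).add
    ((hp 2 0 3 (by decide) [68, 76, 84, 92, 85, 93, 69, 77]).add
    ((hp 3 1 2 (by decide) [70, 86, 78, 94, 79, 95, 71, 87]).add
    ((hp 4 1 3 (by decide) [38, 54, 46, 62, 47, 63, 39, 55]).add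
    ((hp 5 2 3 (by decide) [6, 22, 14, 30, 15, 31, 7, 23]).add h0
    pk_add) pk_add) pk_add) pk_add) pk_add) pk_add
  have hV := vLoop_sem s hOk x 108
  have hL := lLoop_sem s R hs x 140
  have hA := (hT.add hP pk_add).add (hV.add hL pk_add) pk_add
  have hfin := accOK_sound E hE s _ _ _ (by omega) hA h
  have q00 : pr 0 0 = 0 := rfl
  have q01 : pr 0 1 = 1 := rfl
  have q02 : pr 0 2 = 2 := rfl
  have q03 : pr 0 3 = 3 := rfl
  have q10 : pr 1 0 = 0 := rfl
  have q11 : pr 1 1 = 2 := rfl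
  have q12 : pr 1 2 = 1 := rfl
  have q13 : pr 1 3 = 3 := rfl
  have q20 : pr 2 0 = 0 := rfl
  have q21 : pr 2 1 = 3 := rfl
  have q22 : pr 2 2 = 1 := rfl
  have q23 : pr 2 3 = 2 := rfl
  have e1 : ∑ i : Fin 4, ∑ j : Fin 4, (if i < j then KK E.P (s i) (s j) else 0) =
      KK E.P (s 0) (s 1) + KK E.P (s 0) (s 2) + KK E.P (s 0) (s 3) + KK E.P (s 1) (s 2) +
        KK E.P (s 1) (s 3) + KK E.P (s 2) (s 3) := by
    have c00 : ¬ ((0 : Fin 4) < 0) := by decide
    have c01 : (0 : Fin 4) < 1 := by decide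
    have c02 : (0 : Fin 4) < 2 := by decide
    have c03 : (0 : Fin 4) < 3 := by decide
    have c10 : ¬ ((1 : Fin 4) < 0) := by decide
    have c11 : ¬ ((1 : Fin 4) < 1) := by decide
    have c12 : (1 : Fin 4) < 2 := by decide
    have c13 : (1 : Fin 4) < 3 := by decide
    have c20 : ¬ ((2 : Fin 4) < 0) := by decide
    have c21 : ¬ ((2 : Fin 4) < 1) := by decide
    have c22 : ¬ ((2 : Fin 4) < 2) := by decide
    have c23 : (2 : Fin 4) < 3 := by decide
    have c30 : ¬ ((3 : Fin 4) < 0) := by decide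
    have c31 : ¬ ((3 : Fin 4) < 1) := by decide
    have c32 : ¬ ((3 : Fin 4) < 2) := by decide
    have c33 : ¬ ((3 : Fin 4) < 3) := by decide
    simp only [Fin.sum_univ_four, if_pos c01, if_pos c02, if_pos c03, if_pos c12, if_pos c13,
      if_pos c23, if_neg c00, if_neg c10, if_neg c11, if_neg c20, if_neg c21, if_neg c22,
      if_neg c30, if_neg c31, if_neg c32, if_neg c33]
    ring
  rw [e1]
  unfold tVal eM at hfin
  unfold eS at hfin
  simp only [Fin.sum_univ_three, Fintype.sum_bool]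
  simp only [q00, q01, q02, q03, q10, q11, q12, q13, q20, q21, q22, q23, Bool.xor_false,
    Bool.xor_true, Bool.not_true, Bool.not_false,
    List.getD_cons_zero, List.getD_cons_succ, Nat.reduceAdd] at hfin ⊢
  linarith

end Pool.Agent.Helper22.QC
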