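import Pool.Agent.Helper22.QC.Sem
import Pool.Agent.Helper22.QC.TablesA

/-! # The literal tables -/

namespace Pool.Agent.Helper22.QC

open Finset

/-- `by decide +kernel` for suitable computable reformulations -/
theorem termsT_eq : termsT = tdL := by
  decide +kernel

theorem pairsT_eq : pairsT = pdL := by
  decide +kernel

theorem livesT_eq : livesT = lvL := by
  decide +kernel

theorem M12.getD_le (l : List ℕ) (B : ℕ) (h : ∀ x ∈ l, x ≤ B) (i : ℕ) : l.getD i 0 ≤ B := by
  rw [List.getD_eq_getElem?_getD]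
  rcases hx : l[i]? with _ | x
  · simp
  · simpa using h x (List.mem_of_getElem? hx)

theorem M12.getD2_le (l : List (List ℕ)) (B : ℕ) (h : ∀ m ∈ l, ∀ x ∈ m, x ≤ B) (i j : ℕ) :
    (l.getD i []).getD j 0 ≤ B := by
  apply M12.getD_le
  rw [List.getD_eq_getElem?_getD]
  rcases hx : l[i]? with _ | m
  · simp
  · simpa using h m (List.mem_of_getElem? hx)

theorem M12.hG : ∀ t, gT potA t ≤ 2 ^ 27 := by
  intro t
  unfold gT
  apply M12.getD2_le
  decide +kernel

theorem M12.hlm : ∀ i, potA.lm.getD i 0 ≤ 2 ^ 24 := by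
  intro i
  apply M12.getD_le
  decide +kernel

theorem M12.hGP : gpA = pk (gT potA) := by
  decide +kernel

theorem M12.hG0 : gT potA 0 = 0 := by
  decide +kernel

theorem M12.hKB : potA.KB ≤ potA.KE := by
  decide +kernel

theorem envA_ok : EnvOK envA where
  hKB := M12.hKB
  hG := M12.hG
  hG0 := M12.hG0
  hlm := M12.hlm
  hGP := M12.hGP
  htd := termsT_eq
  hpd := pairsT_eq
  hlv := livesT_eq

end Pool.Agent.Helper22.QC
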